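import Pool.Agent.Q283.FT.Stm3
import Pool.Agent.Y682.Lcl

/-!
# Project FT (helper283), job ISQ: the quadratic relation for the local classes
-/

set_option autoImplicit false

namespace Pool.Agent.Q192.FT

open NumberField IsDedekindDomain WeierstrassCurve
open Pool.Agent.Q283.FT Pool.Agent.Q7.LK Pool.Agent.Y682
open Pool.Agent.TH841.SH.D (Pt)

theorem df_ne' {F : Type} [Field F] {e : Fin 3 → F} (he : Rt e) (l : Fin 3) : df e l ≠ 0 := by
  rw [df]
  split_ifs with h h'
  · exact sub_ne_zero.2 fun h => absurd (he.inj h) (by decide)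
  · exact sub_ne_zero.2 fun h => absurd (he.inj h) (by decide)
  · exact sub_ne_zero.2 fun h => absurd (he.inj h) (by decide)

section A

variable {F : Type} [Field F] [NumberField F] (v : HeightOneSpectrum (𝓞 F))

/-- an element of `F` close to `x` -/
theorem exists_near (x : v.adicCompletion F) (e : Fin 3 → F)
    (hx : ∀ j, x ≠ algebraMap F (v.adicCompletion F) (e j)) :
    ∃ x₀ : F, ∀ j, x₀ - e j ≠ 0 ∧ ∃ r : v.adicCompletion F,
      algebraMap F (v.adicCompletion F) (x₀ - e j) = (x - algebraMap F (v.adicCompletion F) (e j)) * r ^ 2 := by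
  have h4 : (4 : v.adicCompletion F) ≠ 0 := by
    have e : (4 : v.adicCompletion F) = algebraMap F _ (4 : F) := by rw [map_ofNat]
    rw [e]
    exact (map_ne_zero _).2 (by norm_num)
  have hv4 : vv v (4 : v.adicCompletion F) ≠ 0 := (Valuation.ne_zero_iff _).2 h4
  have hv41 : vv v (4 : v.adicCompletion F) ≤ 1 := by
    have e : (4 : v.adicCompletion F) = algebraMap F _ (algebraMap (𝓞 F) F 4) := by
      rw [map_ofNat, map_ofNat]
    rw [e, vv_coe]
    exact v.valuation_le_one _
  have hj : ∀ j, vv v 4 * vv v (x - algebraMap F (v.adicCompletion F) (e j)) ≠ 0 := fun j =>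
    mul_ne_zero hv4 ((Valuation.ne_zero_iff _).2 (sub_ne_zero.2 (hx j)))
  obtain ⟨γ, hγ, hγj⟩ : ∃ γ : WithZero (Multiplicative ℤ), γ ≠ 0 ∧
      ∀ j, γ ≤ vv v 4 * vv v (x - algebraMap F (v.adicCompletion F) (e j)) := by
    refine ⟨min (vv v 4 * vv v (x - algebraMap F (v.adicCompletion F) (e 0)))
      (min (vv v 4 * vv v (x - algebraMap F (v.adicCompletion F) (e 1)))
        (vv v 4 * vv v (x - algebraMap F (v.adicCompletion F) (e 2)))), ?_, ?_⟩
    · rcases min_choice (vv v 4 * vv v (x - algebraMap F (v.adicCompletion F) (e 0)))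
        (min (vv v 4 * vv v (x - algebraMap F (v.adicCompletion F) (e 1)))
        (vv v 4 * vv v (x - algebraMap F (v.adicCompletion F) (e 2)))) with h | h
      · rw [h]; exact hj 0
      · rw [h]
        rcases min_choice (vv v 4 * vv v (x - algebraMap F (v.adicCompletion F) (e 1)))
          (vv v 4 * vv v (x - algebraMap F (v.adicCompletion F) (e 2))) with h | h
        · rw [h]; exact hj 1
        · rw [h]; exact hj 2
    · intro j
      fin_cases j
      · exact min_le_left _ _
      · exact (min_le_right _ _).trans (min_le_left _ _)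
      · exact (min_le_right _ _).trans (min_le_right _ _)
  obtain ⟨x₀, hx₀⟩ := exists_approx v x γ hγ
  refine ⟨x₀, fun j => ?_⟩
  have hd : x - algebraMap F (v.adicCompletion F) (e j) ≠ 0 := sub_ne_zero.2 (hx j)
  have hvd : vv v (x - algebraMap F (v.adicCompletion F) (e j)) ≠ 0 := (Valuation.ne_zero_iff _).2 hd
  have ht : vv v ((algebraMap F (v.adicCompletion F) x₀ - x) / (x - algebraMap F (v.adicCompletion F) (e j))) <
      vv v 4 := by
    rw [map_div₀]
    exact (div_lt_iff₀ (zero_lt_iff.2 hvd)).2 (hx₀.trans_le (hγj j))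
  obtain ⟨r, hr⟩ := exists_sqrt v _ ht
  have h5 : algebraMap F (v.adicCompletion F) (x₀ - e j) =
      (x - algebraMap F (v.adicCompletion F) (e j)) * r ^ 2 := by
    rw [hr, map_sub, mul_add, mul_one, mul_div_cancel₀ _ hd]
    ring
  refine ⟨?_, r, h5⟩
  intro h0
  rw [h0, map_zero] at h5
  have h6 : r ^ 2 = 0 := by
    rcases mul_eq_zero.1 h5.symm with h | h
    · exact absurd h hd
    · exact h
  rw [h6] at hr
  have h7 : (algebraMap F (v.adicCompletion F) x₀ - x) / (x - algebraMap F (v.adicCompletion F) (e j)) = -1 := by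
    linear_combination -hr
  rw [h7, Valuation.map_neg, map_one] at ht
  exact absurd ht (not_lt.2 hv41)

end A

theorem two0 : (2 : ZMod 2) = 0 := by decide

/-- the quadratic relation for the local classes -/
theorem isq (_hKUA : Pool.Agent.Q283.FT.S_KUA) (hAXP : Pool.Agent.Q283.FT.S_AXP) (hSTB : Pool.Agent.Q283.FT.S_STB)
    (_hBAS : Pool.Agent.Q7.LK.S_BAS) (hCPL : Pool.Agent.Q7.LK.S_CPL) : Pool.Agent.Q283.FT.S_ISQ := by
  intro F _ _ i ζ hi hζ t ht e he v a b hab
  have : Fact (Nat.Prime 2) := ⟨Nat.prime_two⟩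
  obtain ⟨ha, hb, hcov⟩ := hab
  obtain ⟨P, hP⟩ := (hAXP F i hi e he (v.adicCompletion F) a b ha hb).1 hcov
  obtain ⟨hAA, hST⟩ := hSTB F i ζ hi hζ t ht v
  have two : (2 : ZMod 2) = 0 := two0
  have hsym : ∀ A B : F, A ≠ 0 → B ≠ 0 → t v A B = t v B A := by
    intro A B hA hB
    have h := ht.anti v A B hA hB
    linear_combination h - t v B A * two
  have hml : ∀ A B C : F, A ≠ 0 → B ≠ 0 → C ≠ 0 → t v (A * B) C = t v A C + t v B C :=
    fun A B C hA hB hC => ht.mul v A B C hA hB hC
  have hmr : ∀ A B C : F, A ≠ 0 → B ≠ 0 → C ≠ 0 → t v A (B * C) = t v A B + t v A C := by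
    intro A B C hA hB hC
    rw [hsym A _ hA (mul_ne_zero hB hC), hml _ _ _ hB hC hA, hsym B A hB hA, hsym C A hC hA]
  have hR : ∀ A B : F, A ≠ 0 → B ≠ 0 → Lpw 2 v (A * B) → ∀ C, C ≠ 0 → t v A C = t v B C := by
    intro A B hA hB h C hC
    have h1 := hml A B C hA hB hC
    rw [ht.pow v (A * B) C h hC] at h1
    linear_combination -h1 - t v B C * two
  have hL : ∀ A : F, A ≠ 0 → (∃ s : v.adicCompletion F, algebraMap F (v.adicCompletion F) A = s ^ 2) → Lpw 2 v A :=
    fun A hA h => (hCPL 2 F v A).2 ⟨hA, h⟩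
  -- the class of `a` is that of `A`
  have key : ∀ A B : F, A ≠ 0 → B ≠ 0 → Lpw 2 v (a * A) → Lpw 2 v (b * B) →
      t v A B + t v A (df e 0) + t v A (df e 2) + t v B (df e 1) + t v B (df e 2) = 0 →
      t v a b + t v a (df e 0 * df e 2) + t v b (df e 1 * df e 2) = 0 := by
    intro A B hA hB h1 h2 h3
    have d0 := df_ne' he 0
    have d1 := df_ne' he 1
    have d2 := df_ne' he 2
    rw [hmr a _ _ ha d0 d2, hmr b _ _ hb d1 d2, hR a A ha hA h1 b hb, hR a A ha hA h1 _ d0, hR a A ha hA h1 _ d2,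
      hR b B hb hB h2 _ d1, hR b B hb hB h2 _ d2, hsym A b hA hb, hR b B hb hB h2 A hA, hsym B A hB hA]
    linear_combination h3
  have d0 := df_ne' he 0
  have d1 := df_ne' he 1
  have d2 := df_ne' he 2
  have e0 : df e 0 = e 1 - e 2 := rfl
  have e1 : df e 1 = e 0 - e 2 := rfl
  have e2 : df e 2 = e 0 - e 1 := rfl
  have hst3 : t v (df e 2) (df e 0) = t v (df e 2) (df e 1) + t v (df e 0) (df e 1) :=
    hST _ _ _ d2 d0 d1 (by rw [e0, e1, e2]; ring)
  obtain ⟨-, -, hP⟩ := hP
  rcases hP with ⟨-, ⟨s, hs⟩, ⟨s', hs'⟩⟩ | ⟨x, y, h, -, h1, h2⟩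
  · have la : Lpw 2 v a := hL a ha ⟨s, by rw [hs]; ring⟩
    have lb : Lpw 2 v b := hL b hb ⟨s', by rw [hs']; ring⟩
    rw [ht.pow v a _ la hb, ht.pow v a _ la (mul_ne_zero d0 d2), ht.pow v b _ lb (mul_ne_zero d1 d2)]
    ring
  · have hxy : y ^ 2 = (x - algebraMap F (v.adicCompletion F) (e 0)) * (x - algebraMap F (v.adicCompletion F) (e 1)) *
        (x - algebraMap F (v.adicCompletion F) (e 2)) := by
      have h3 := (Affine.equation_iff _ _).1 h.1
      have h4 : algebraMap F (v.adicCompletion F) (e 2) =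
          -algebraMap F (v.adicCompletion F) (e 0) - algebraMap F (v.adicCompletion F) (e 1) := by
        rw [← map_neg, ← map_sub]
        congr 1
        linear_combination he.sum
      simp [crv, Pool.Agent.Q283.EN.sh] at h3
      rw [h4] at h3 ⊢
      linear_combination h3
    by_cases hx0 : x = algebraMap F (v.adicCompletion F) (e 0)
    · -- the point `(e 0, 0)`
      have h3 : IsSquare (algebraMap F (v.adicCompletion F) a * algebraMap F (v.adicCompletion F) (df e 1 * df e 2)) := by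
        rcases h1 with h1 | h1
        · exact absurd hx0 h1.1
        · exact h1.2
      have h4 : IsSquare (algebraMap F (v.adicCompletion F) b * algebraMap F (v.adicCompletion F) (df e 2)) := by
        rcases h2 with h2 | h2
        · have := h2.2
          rw [hx0, ← map_sub] at this
          exact this
        · exfalso
          have := h2.1
          rw [hx0] at this
          exact d2 (by rw [e2, (algebraMap F (v.adicCompletion F)).injective this, sub_self])
      obtain ⟨s, hs⟩ := h3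
      obtain ⟨s', hs'⟩ := h4
      refine key _ _ (mul_ne_zero d1 d2) d2 (hL _ (mul_ne_zero ha (mul_ne_zero d1 d2)) ⟨s, by rw [map_mul, hs]; ring⟩)
        (hL _ (mul_ne_zero hb d2) ⟨s', by rw [map_mul, hs']; ring⟩) ?_
      linear_combination 2 * hml _ _ _ d1 d2 d2 + hml _ _ _ d1 d2 d0 + 3 * hAA _ d2 + hsym _ _ d1 d0 + hst3 +
        (t v (df e 1) (df e 2) + t v (df e 0) (df e 1) + t v (df e 2) (df e 1)) * two
    have h3 : IsSquare (algebraMap F (v.adicCompletion F) a * (x - algebraMap F (v.adicCompletion F) (e 0))) := by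
      rcases h1 with h1 | h1
      · exact h1.2
      · exact absurd h1.1 hx0
    obtain ⟨s, hs⟩ := h3
    have hI : algebraMap F (v.adicCompletion F) i ^ 2 = -1 := by
      rw [← map_pow, hi, map_neg, map_one]
    by_cases hx1 : x = algebraMap F (v.adicCompletion F) (e 1)
    · -- the point `(e 1, 0)`
      have h4 : IsSquare (algebraMap F (v.adicCompletion F) b * algebraMap F (v.adicCompletion F) (df e 0 * df e 2)) := by
        rcases h2 with h2 | h2
        · exact absurd hx1 h2.1
        · exact h2.2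
      obtain ⟨s', hs'⟩ := h4
      refine key _ _ d2 (mul_ne_zero d0 d2) (hL _ (mul_ne_zero ha d2) ⟨s * algebraMap F (v.adicCompletion F) i, ?_⟩)
        (hL _ (mul_ne_zero hb (mul_ne_zero d0 d2)) ⟨s', by rw [map_mul, hs']; ring⟩) ?_
      · rw [hx1] at hs
        rw [map_mul, e2, map_sub, mul_pow, hI]
        linear_combination -hs
      linear_combination hmr _ _ _ d2 d0 d2 + hml _ _ _ d0 d2 d1 + hml _ _ _ d0 d2 d2 + hsym _ _ d0 d2 + 3 * hAA _ d2 +
        hst3 + (t v (df e 2) (df e 0) + t v (df e 0) (df e 1) + t v (df e 2) (df e 1)) * two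
    have h4 : IsSquare (algebraMap F (v.adicCompletion F) b * (x - algebraMap F (v.adicCompletion F) (e 1))) := by
      rcases h2 with h2 | h2
      · exact h2.2
      · exact absurd h2.1 hx1
    obtain ⟨s', hs'⟩ := h4
    by_cases hx2 : x = algebraMap F (v.adicCompletion F) (e 2)
    · -- the point `(e 2, 0)`
      refine key _ _ d1 d0 (hL _ (mul_ne_zero ha d1) ⟨s * algebraMap F (v.adicCompletion F) i, ?_⟩)
        (hL _ (mul_ne_zero hb d0) ⟨s' * algebraMap F (v.adicCompletion F) i, ?_⟩) ?_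
      · rw [hx2] at hs
        rw [map_mul, e1, map_sub, mul_pow, hI]
        linear_combination -hs
      · rw [hx2] at hs'
        rw [map_mul, e0, map_sub, mul_pow, hI]
        linear_combination -hs'
      linear_combination hsym _ _ d1 d2 + hsym _ _ d0 d2 + hst3 +
        (t v (df e 1) (df e 0) + t v (df e 2) (df e 1) + t v (df e 0) (df e 1)) * two
    -- the other points
    obtain ⟨x₀, hx₀⟩ := exists_near v x e (fun j => by
      fin_cases j
      · exact hx0
      · exact hx1
      · exact hx2)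
    obtain ⟨n0, r0, hr0⟩ := hx₀ 0
    obtain ⟨n1, r1, hr1⟩ := hx₀ 1
    obtain ⟨n2, r2, hr2⟩ := hx₀ 2
    have g0 : Lpw 2 v (a * (x₀ - e 0)) := hL _ (mul_ne_zero ha n0) ⟨s * r0, by
      rw [map_mul, hr0]
      linear_combination r0 ^ 2 * hs⟩
    have g1 : Lpw 2 v (b * (x₀ - e 1)) := hL _ (mul_ne_zero hb n1) ⟨s' * r1, by
      rw [map_mul, hr1]
      linear_combination r1 ^ 2 * hs'⟩
    have g2 : Lpw 2 v ((x₀ - e 0) * (x₀ - e 1) * (x₀ - e 2)) :=
      hL _ (mul_ne_zero (mul_ne_zero n0 n1) n2) ⟨y * r0 * r1 * r2, by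
      rw [map_mul, map_mul, hr0, hr1, hr2]
      linear_combination -(r0 * r1 * r2) ^ 2 * hxy⟩
    have q : ∀ X : F, X ≠ 0 → t v X (x₀ - e 2) = t v (x₀ - e 0) X + t v (x₀ - e 1) X := by
      intro X hX
      rw [hsym X _ hX n2, ← hR _ _ (mul_ne_zero n0 n1) n2 g2 X hX, hml _ _ _ n0 n1 hX]
    refine key _ _ n0 n1 g0 g1 ?_
    have k1 := hST _ _ _ n0 d2 n1 (by rw [e2]; ring)
    have k2 := hST _ _ _ n1 d0 n2 (by rw [e0]; ring)
    have k3 := hST _ _ _ n0 d1 n2 (by rw [e1]; ring)
    linear_combination k1 + hsym _ _ n1 d2 - (k2 + q _ n1 + q _ d0) - (k3 + q _ n0 + q _ d1) + hsym _ _ n0 n1 -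
      hAA _ n1 - hAA _ n0 + t v (df e 2) (x₀ - e 1) * two

end Pool.Agent.Q192.FT
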