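import Pool.Agent.Q283.FT.Stm3

/-!
# Project FT (helper283), job LCP: properties of the local conditions
-/

set_option autoImplicit false

namespace Pool.Agent.Q192.FT

open NumberField IsDedekindDomain WeierstrassCurve
open Pool.Agent.Q283.FT Pool.Agent.Q7.LK
open Pool.Agent.TH841.SH.D (Pt)

section A

variable {F : Type} [Field F] {e : Fin 3 → F} {L : Type} [Field L] [Algebra F L]

/-- multiplication of the class by squares -/
theorem Cov.mul_sq {a b m m' : F} (h : Cov e L a b) {s s' : L} (hs : s ≠ 0) (hs' : s' ≠ 0)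
    (h1 : algebraMap F L m = s ^ 2) (h2 : algebraMap F L m' = s' ^ 2) : Cov e L (a * m) (b * m') := by
  obtain ⟨z, w, h0, h3, h4⟩ := h
  refine ⟨![z 0 / s, z 1 / s', z 2 / (s * s')], w, ?_, ?_, ?_⟩
  · rcases h0 with h | h
    · left
      intro hz
      apply h
      have e0 := congrFun hz 0
      have e1 := congrFun hz 1
      have e2 := congrFun hz 2
      simp only [Matrix.cons_val_zero, Matrix.cons_val_one, Matrix.cons_val, Pi.zero_apply, div_eq_zero_iff, hs, hs',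
        or_false, mul_eq_zero] at e0 e1 e2
      funext j
      fin_cases j
      · exact e0
      · exact e1
      · exact e2
    · exact Or.inr h
  · simp only [Matrix.cons_val_zero, Matrix.cons_val_one, Matrix.cons_val, map_mul, h1, h2]
    have e1 : algebraMap F L a * s ^ 2 * (z 0 / s) ^ 2 = algebraMap F L a * z 0 ^ 2 := by
      field_simp
    have e2 : algebraMap F L b * s' ^ 2 * (z 1 / s') ^ 2 = algebraMap F L b * z 1 ^ 2 := by
      field_simp
    rw [e1, e2]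
    exact h3
  · simp only [Matrix.cons_val_zero, Matrix.cons_val_one, Matrix.cons_val, map_mul, h1, h2] at h4 ⊢
    have e1 : algebraMap F L a * s ^ 2 * (z 0 / s) ^ 2 = algebraMap F L a * z 0 ^ 2 := by
      field_simp
    have e2 : algebraMap F L a * s ^ 2 * (algebraMap F L b * s' ^ 2) * (z 2 / (s * s')) ^ 2 =
        algebraMap F L a * algebraMap F L b * z 2 ^ 2 := by
      field_simp
    rw [e1, e2]
    exact h4

/-- the twist by a square -/
theorem Cov.twi_sq {a b n : F} (h : Cov e L a b) {s : L} (hs : s ≠ 0)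
    (h1 : algebraMap F L n = s ^ 2) : Cov (twi n e) L a b := by
  obtain ⟨z, w, h0, h3, h4⟩ := h
  refine ⟨z, w / s, ?_, ?_, ?_⟩
  · rcases h0 with h | h
    · exact Or.inl h
    · exact Or.inr (div_ne_zero h hs)
  · simp only [twi, map_mul, h1]
    have e1 : ∀ x : L, s ^ 2 * x * (w / s) ^ 2 = x * w ^ 2 := by
      intro x
      field_simp
    rw [e1, e1]
    exact h3
  · simp only [twi, map_mul, h1] at h4 ⊢
    have e1 : ∀ x : L, s ^ 2 * x * (w / s) ^ 2 = x * w ^ 2 := by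
      intro x
      field_simp
    rw [e1, e1]
    exact h4

end A

theorem df_ne {F : Type} [Field F] {e : Fin 3 → F} (he : Rt e) (l : Fin 3) : df e l ≠ 0 := by
  rw [df]
  split_ifs with h h'
  · exact sub_ne_zero.2 fun h => absurd (he.inj h) (by decide)
  · exact sub_ne_zero.2 fun h => absurd (he.inj h) (by decide)
  · exact sub_ne_zero.2 fun h => absurd (he.inj h) (by decide)

/-- properties of the local conditions -/
theorem lcp (hKUA : Pool.Agent.Q283.FT.S_KUA) (hKUB : Pool.Agent.Q283.FT.S_KUB) (hAXP : Pool.Agent.Q283.FT.S_AXP)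
    (hBAS : Pool.Agent.Q7.LK.S_BAS) (hCPL : Pool.Agent.Q7.LK.S_CPL) : Pool.Agent.Q283.FT.S_LCP := by
  intro F _ _ i hi e he v
  have : Fact (Nat.Prime 2) := ⟨Nat.prime_two⟩
  obtain ⟨-, hmul, hpow, -, -, -, -⟩ := hBAS 2 F v
  have hsq : ∀ {m : F}, Lpw 2 v m → m ≠ 0 ∧ ∃ s : v.adicCompletion F, s ≠ 0 ∧ algebraMap F (v.adicCompletion F) m = s ^ 2 := by
    intro m hm
    obtain ⟨hm0, s, hs⟩ := (hCPL 2 F v m).1 hm
    refine ⟨hm0, s, ?_, hs⟩
    rintro rfl
    have h1 : algebraMap F (v.adicCompletion F) m = 0 ^ 2 := hs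
    rw [zero_pow two_ne_zero] at h1
    exact (map_ne_zero _).2 hm0 h1
  have h2 : ∀ a b m m' : F, Lpw 2 v m → Lpw 2 v m' → AX v e a b → AX v e (a * m) (b * m') := by
    intro a b m m' hm hm' h
    obtain ⟨hm0, s, hs0, hs⟩ := hsq hm
    obtain ⟨hm0', s', hs0', hs'⟩ := hsq hm'
    exact ⟨mul_ne_zero h.1 hm0, mul_ne_zero h.2.1 hm0', Cov.mul_sq h.2.2 hs0 hs0' hs hs'⟩
  refine ⟨?_, h2, ?_, ?_⟩
  · intro a b a' b' h h'
    obtain ⟨P, hP⟩ := (hAXP F i hi e he (v.adicCompletion F) a b h.1 h.2.1).1 h.2.2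
    obtain ⟨Q, hQ⟩ := (hAXP F i hi e he (v.adicCompletion F) a' b' h'.1 h'.2.1).1 h'.2.2
    refine ⟨mul_ne_zero h.1 h'.1, mul_ne_zero h.2.1 h'.2.1,
      (hAXP F i hi e he (v.adicCompletion F) _ _ (mul_ne_zero h.1 h'.1) (mul_ne_zero h.2.1 h'.2.1)).2 ⟨P + Q, ?_⟩⟩
    have h3 := hKUB F i hi e he (v.adicCompletion F) P Q _ _ _ _ hP hQ
    rw [map_mul, map_mul]
    exact h3
  · intro a b n hn h
    obtain ⟨hm0, s, hs0, hs⟩ := hsq hn
    exact ⟨h.1, h.2.1, Cov.twi_sq h.2.2 hs0 hs⟩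
  · -- the classes of the points of order dividing `2`
    have key : ∀ (a b c d : F), c ≠ 0 → d ≠ 0 → AX v e c d → Lpw 2 v (a * c) → Lpw 2 v (b * d) → AX v e a b := by
      intro a b c d hc hd h h3 h4
      have h5 : Lpw 2 v (a * c * (c⁻¹) ^ 2) := hmul _ _ h3 (hpow _ (inv_ne_zero hc))
      have h6 : Lpw 2 v (b * d * (d⁻¹) ^ 2) := hmul _ _ h4 (hpow _ (inv_ne_zero hd))
      have h7 := h2 _ _ _ _ h5 h6 h
      have e1 : c * (a * c * (c⁻¹) ^ 2) = a := by
        field_simp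
      have e2 : d * (b * d * (d⁻¹) ^ 2) = b := by
        field_simp
      rw [e1, e2] at h7
      exact h7
    obtain ⟨-, -, -, hz, ht⟩ := hKUA F i hi e he (v.adicCompletion F)
    have d0 := df_ne he 0
    have d1 := df_ne he 1
    have d2 := df_ne he 2
    have hT : ∀ (c d : F), c ≠ 0 → d ≠ 0 →
        (∃ P : Pt (crv e) (v.adicCompletion F), Cx e (v.adicCompletion F) P (algebraMap F _ c) (algebraMap F _ d)) →
        AX v e c d := fun c d hc hd h => ⟨hc, hd, (hAXP F i hi e he (v.adicCompletion F) c d hc hd).2 h⟩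
    rintro a b (⟨h3, h4⟩ | ⟨h3, h4⟩ | ⟨h3, h4⟩ | ⟨h3, h4⟩)
    · refine key a b 1 1 one_ne_zero one_ne_zero (hT 1 1 one_ne_zero one_ne_zero ⟨0, ?_⟩) (by rwa [mul_one])
        (by rwa [mul_one])
      rw [map_one]
      exact hz
    · obtain ⟨h, h5⟩ := ht 0
      refine key a b _ _ (mul_ne_zero d1 d2) d2 (hT _ _ (mul_ne_zero d1 d2) d2 
        ⟨Affine.Point.some (algebraMap F _ (e 0)) 0 h, ?_⟩) h3 h4
      exact h5
    · obtain ⟨h, h5⟩ := ht 1
      refine key a b _ _ d2 (mul_ne_zero d0 d2) (hT _ _ d2 (mul_ne_zero d0 d2) 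
        ⟨Affine.Point.some (algebraMap F _ (e 1)) 0 h, ?_⟩) h3 h4
      exact h5
    · obtain ⟨h, h5⟩ := ht 2
      refine key a b _ _ d1 d0 (hT _ _ d1 d0 
        ⟨Affine.Point.some (algebraMap F _ (e 2)) 0 h, ?_⟩) h3 h4
      exact h5

end Pool.Agent.Q192.FT
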