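import Pool.Agent.Q192.FT.Defs
import Pool.Agent.TH80.OMS.Defs

/-!
# Nondegenerate critical tori: definitions

Author: helper192.
-/

set_option autoImplicit false

open scoped Manifold ContDiff Topology

universe u

namespace Pool.Agent.Q192.FT

open Set Pool.Agent.H718R2.G Pool.Agent.H728R2.OS Pool.Agent.Y318.MN Pool.Agent.H637R2.TD
  Pool.Agent.Y318.LF

/-- The second derivative of `h` at the points of the core is nondegenerate in the normal
directions. -/
def NormNondeg (n : ℕ) {N : Type u} (h : N → ℝ) (d : ℕ) (E : V n → N) : Prop :=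
  ∀ x w, fderiv ℝ (fderiv ℝ fun v => h (E v)) (emb n d x) w = 0 →
    ∀ i : Fin n, d ≤ (i : ℕ) → w i = 0

/-- The chain recurrent set of `g` is finite and hyperbolic. -/
def HypFin {d : ℕ} (g : Torus d ≃ₜ Torus d) : Prop :=
  (ChainRec g).Finite ∧ IsHyperbolic toTorus g (ChainRec g)

/-- `f` is a `C^r` diffeomorphism of `𝕋^d` which preserves the standard flag of foliations and its
orientations (for `d = 1`: an orientation preserving `C^r` diffeomorphism of the circle), or which
is isotopic to the identity and preserves a complete flag of linear foliations, or which is any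
other limit of `C^r` diffeomorphisms with finite hyperbolic chain recurrent set. -/
def TameH {d : ℕ} (r : ℕ∞) (f : Torus d ≃ₜ Torus d) : Prop :=
  IsFlagDiffeo r f ∨ (∃ W, PreservesFlag r f W) ∨ Approx r f HypFin

/-- Finitely many pairwise disjoint cycles of critical tori of `h`, nondegenerate in the normal
directions, on which the return maps `f j` of `F` are tame. -/
structure MorseTori (n : ℕ) {N : Type u} [TopologicalSpace N] [ChartedSpace (V n) N] (r : ℕ∞)
    (h : N → ℝ) (F : N → N) {p : ℕ} (d m : Fin p → ℕ) (E : Fin p → V n → N)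
    (f : ∀ j, Torus (d j) ≃ₜ Torus (d j)) : Prop where
  tori : ∀ j, CritTorus n h F (d j) (m j) (E j) (f j)
  dis : ∀ i j, i ≠ j → Disjoint (cyc n F (d i) (m i) (E i)) (cyc n F (d j) (m j) (E j))
  nondeg : ∀ j, NormNondeg n h (d j) (E j)
  tame : ∀ j, TameH r (f j)

/-- The points all whose iterates `F^k(x)`, `k ∈ ℤ`, are critical points of `h` are nondegenerate
critical points or in the tori; `Nondeg`: nondegenerate second derivative, in every chart. -/
def CoveredM (n : ℕ) {N : Type u} [TopologicalSpace N] [ChartedSpace (V n) N]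
    (A : Set N) (nd : N → Prop) (F : N → N) {p : ℕ} (d m : Fin p → ℕ)
    (E : Fin p → V n → N) : Prop :=
  ∀ z ∈ A, nd z ∨ ∃ j, z ∈ cyc n F (d j) (m j) (E j)

end Pool.Agent.Q192.FT
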