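import Pool.Agent.Q192.FT.Defs
import Pool.Agent.H678R3.Attr.Iso
import Pool.Agent.Y318.LF.Stab

/-!
# Torus diffeomorphisms which are limits of diffeomorphisms with finite chain recurrent set

The two density theorems are those of the starting hand-ins `MP_3a2b62_an.FlagDiffeos` and
`MP_3a2b62_an.LinearFlags`.

Author: helper192.
-/

set_option autoImplicit false

open scoped ContDiff Topology

namespace Pool.Agent.Q192.FT

open Pool.Agent.H728R2.OS Pool.Agent.H637R2.TD Pool.Agent.Y318.LF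

theorem ck_refl {d : ℕ} {r : ℕ∞} (hr : 1 ≤ r) {g : Torus d ≃ₜ Torus d}
    (hg : IsDiffeo toTorus r g) {η : ℝ} (hη : 0 < η) : CkClose toTorus 1 η g g := by
  obtain ⟨⟨B, hB, hBl⟩, -⟩ := hg
  have hB1 : ContDiff ℝ 1 B := hB.of_le (by exact_mod_cast hr)
  refine ⟨B, B, by exact_mod_cast hB1, by exact_mod_cast hB1, hBl, hBl, fun j _ z => ?_⟩
  have e : (fun w => B w - B w) = fun _ => (0 : Fin d → ℝ) := by
    funext w
    exact sub_self _
  rw [e]
  have h1 : iteratedFDeriv ℝ j (fun _ : Fin d → ℝ => (0 : Fin d → ℝ)) z = 0 := by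
    have := iteratedFDeriv_fun_zero (𝕜 := ℝ) (E := Fin d → ℝ) (F := Fin d → ℝ) (n := j)
    exact congrFun this z
  rw [h1, norm_zero]
  exact hη

theorem approx_flag {d : ℕ} {r : ℕ∞} (hr : 1 ≤ r) {f : Torus d ≃ₜ Torus d}
    (hf : IsFlagDiffeo r f) : Approx r f fun g => (ChainRec g).Finite := by
  refine ⟨hf.diffeo, fun k hk ε hε => ?_⟩
  obtain ⟨g, h1, h2, η, hη, h3⟩ := Pool.Agent.H678R3.Attr.main hr f hf k hk ε hε
  exact ⟨g, h1.diffeo, h2, (h3 g (ck_refl hr h1.diffeo hη)).1⟩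

theorem approx_linear {d : ℕ} {r : ℕ∞} (hr : 1 ≤ r) {f : Torus d ≃ₜ Torus d}
    {W : ℕ → Submodule ℝ (Fin d → ℝ)} (hf : PreservesFlag r f W) :
    Approx r f fun g => (ChainRec g).Finite := by
  refine ⟨hf.1, fun k hk ε hε => ?_⟩
  obtain ⟨g, W', h1, h2, η, hη, h3⟩ := attr Pool.Agent.Y210.LF.prim Pool.Agent.Y301.LF.t
    Pool.Agent.Y210.LF.t_cjatt hr hf k hk ε hε
  exact ⟨g, h1.1, h2, (h3 g (ck_refl hr h1.1 hη)).2⟩

end Pool.Agent.Q192.FT
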