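import Pool.Agent.Q192.FT.Defs
import Pool.Agent.TH80.OMS.Defs
import Pool.Agent.TH80.OMS.SymDefs

/-!
# Limits of diffeomorphisms which do not decrease a function with critical tori: definitions

`Omega f`, `Per f`: the nonwandering and the periodic points of `f`; `CritInv n G h`: the points whose
whole `G`-orbit consists of critical points of `h`. Author: helper192.
-/

set_option autoImplicit false

open scoped Manifold ContDiff Topology

universe u

namespace Pool.Agent.Q192.FT

open Set Pool.Agent.H718R2.G Pool.Agent.H728R2.OS Pool.Agent.Y318.MN Pool.Agent.TH80.OMS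

/-- The smooth function `h` does not decrease under `G`. -/
def Mono (n : ℕ) {N : Type u} [TopologicalSpace N] [ChartedSpace (V n) N] (h : N → ℝ)
    (G : N → N) : Prop :=
  ContMDiff (𝓡 n) 𝓘(ℝ, ℝ) ∞ h ∧ ∀ x, h x ≤ h (G x)

/-- At most countably many recurrent points of `G` in the set `A` are neither periodic nor in the
tori. -/
def FewRec (n : ℕ) {N : Type u} [TopologicalSpace N] (A : Set N) (G : N → N) {p : ℕ}
    (d m : Fin p → ℕ) (E : Fin p → V n → N) : Prop :=
  {x ∈ A | (∀ W ∈ 𝓝 x, ∃ k : ℕ, 1 ≤ k ∧ G^[k] x ∈ W) ∧ x ∉ Per G ∧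
    ∀ j, x ∉ cyc n G (d j) (m j) (E j)}.Countable

/-- `G` does not decrease some smooth function `h`, and among the recurrent points of `G` whose whole
orbit consists of critical points of `h`, at most countably many are neither periodic nor in
finitely many cycles of critical tori of `h` with tame return maps. -/
def NoDecreaseTori (n : ℕ) (N : Type u) [TopologicalSpace N] [ChartedSpace (V n) N] (r : ℕ∞)
    (G : DiffM n N r) : Prop :=
  ∃ (h : N → ℝ) (p : ℕ) (d m : Fin p → ℕ) (E : Fin p → V n → N)
    (f : ∀ j, Torus (d j) ≃ₜ Torus (d j)), Mono n h G ∧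
    CritTori n r h G d m E f ∧ FewRec n (CritInv n G h) G d m E

/-- `F` is a limit in `Diff^r(N)` of diffeomorphisms as in `NoDecreaseTori`. -/
def LimTori (n : ℕ) (N : Type u) [TopologicalSpace N] [ChartedSpace (V n) N] (r : ℕ∞)
    (F : DiffM n N r) : Prop :=
  ∀ U : Set (DiffM n N r), IsOpen[strongTop n N r] U → F ∈ U → ∃ G ∈ U, NoDecreaseTori n N r G

/-- Every smooth function which `F` does not decrease is critical at the nonwandering points of `F`,
and every smooth first integral of `F` has only critical points (so it is locally constant). -/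
def CritFun (n : ℕ) {N : Type u} [TopologicalSpace N] [ChartedSpace (V n) N] (F : N → N) : Prop :=
  ∀ h : N → ℝ, Mono n h F →
    (∀ p ∈ Omega F, IsCrit n h p) ∧ ((∀ x, h (F x) = h x) → ∀ x, IsCrit n h x)

/-- `f` on its nonwandering set is topologically conjugate to the restriction of `f` to a closed
invariant set `K` contained in `C`. -/
def ConjInto {X : Type u} [TopologicalSpace X] (f : X → X) (C : Set X) : Prop :=
  ∃ K : Set X, IsClosed K ∧ K ⊆ C ∧ f '' K = K ∧ ∃ e : Omega f ≃ₜ K,
    ∀ x y : Omega f, (y : X) = f x → (e y : X) = f (e x)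

/-- `F` is structurally stable in `Diff^r(N)`: all `G` in a neighbourhood of `F` are topologically
conjugate to `F`. -/
def StructStable (n : ℕ) (N : Type u) [TopologicalSpace N] [ChartedSpace (V n) N] (r : ℕ∞)
    (F : DiffM n N r) : Prop :=
  ∃ U : Set (DiffM n N r), IsOpen[strongTop n N r] U ∧ F ∈ U ∧
    ∀ G ∈ U, ∃ h : N ≃ₜ N, ∀ x, h (F x) = G (h x)

end Pool.Agent.Q192.FT
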