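import Pool.Agent.Q192.FT.Main
import Pool.Agent.Q192.FT.Flags
import Pool.Agent.Q192.FT.SDefs
import Pool.Agent.Y318.MN.Main

/-!
# `Ω`-stable diffeomorphisms which do not decrease a function with critical tori

Author: helper192.
-/

set_option autoImplicit false
set_option linter.unusedSectionVars false

open scoped Manifold ContDiff Topology NNReal
open Filter Set Metric MeasureTheory

universe u

namespace Pool.Agent.Q192.FT

open Pool.Agent.H718R2.G Pool.Agent.Y318.MN Pool.Agent.TH80.OMS Pool.Agent.Y504.CO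

open Pool.Agent.H728R2.OS (Torus toTorus ChainRec)

open Pool.Agent.H728R2.FA (omegaLim)

variable {n : ℕ} {N : Type u} [TopologicalSpace N] [T2Space N] [CompactSpace N]
  [ChartedSpace (V n) N] [IsManifold (𝓡 n) ∞ N]

theorem tame_approx {d : ℕ} {r : ℕ∞} (hr : 1 ≤ r) {f : Torus d ≃ₜ Torus d} (hf : Tame r f) :
    Approx r f fun g => (ChainRec g).Finite := by
  rcases hf with h1 | ⟨W, h1⟩ | h1
  · exact approx_flag hr h1
  · exact approx_linear hr h1
  · exact h1

theorem critInv_symm {r : ℕ∞} {F : DiffM n N r} {h : N → ℝ} {x : N}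
    (hx : F x ∈ CritInv n F h) : x ∈ CritInv n F h := by
  intro k
  refine ⟨?_, ?_⟩
  · rcases k with _ | k
    · have := (hx 1).2
      rw [Function.iterate_one, F.symm_apply_apply] at this
      exact this
    · rw [Function.iterate_succ_apply]
      exact (hx k).1
  · have := (hx (k + 1)).2
    rw [Function.iterate_succ_apply, F.symm_apply_apply] at this
    exact this

theorem cyc_critInv {h : N → ℝ} {r : ℕ∞} {F : DiffM n N r} {d m : ℕ} {E : V n → N}
    {f : Torus d ≃ₜ Torus d} (H : CritTorus n h F d m E f) :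
    cyc n F d m E ⊆ CritInv n F h := by
  have himg := cyc_img H
  have hcr : ∀ x ∈ cyc n F d m E, IsCrit n h x := by
    rintro _ ⟨i, hi, x, rfl⟩
    exact H.orb i hi x
  have hf : ∀ x ∈ cyc n F d m E, F x ∈ cyc n F d m E := fun x hx => by
    rw [← himg]
    exact mem_image_of_mem _ hx
  have hb : ∀ x ∈ cyc n F d m E, F.symm x ∈ cyc n F d m E := fun x hx => by
    rw [← himg] at hx
    obtain ⟨y, hy, rfl⟩ := hx
    rw [F.symm_apply_apply]
    exact hy
  intro x hx k
  constructor
  · apply hcr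
    induction k with
    | zero => exact hx
    | succ k ih => rw [Function.iterate_succ_apply']; exact hf _ ih
  · apply hcr
    induction k with
    | zero => exact hx
    | succ k ih => rw [Function.iterate_succ_apply']; exact hb _ ih

theorem rec_omegaLim {X : Type u} [TopologicalSpace X] [T1Space X] {g : X → X} {x : X}
    (hx : x ∈ Rec g) (hp : x ∉ Per g) : x ∈ omegaLim g x := by
  intro U hU K
  have hfin : ((fun k : ℕ => g^[k + 1] x) '' (Finset.range K : Set ℕ)).Finite :=
    (Finset.finite_toSet _).image _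
  have hW : U ∩ ((fun k : ℕ => g^[k + 1] x) '' (Finset.range K : Set ℕ))ᶜ ∈ 𝓝 x := by
    refine inter_mem hU (hfin.isClosed.isOpen_compl.mem_nhds ?_)
    rintro ⟨k, -, hk⟩
    exact hp ⟨k + 1, by omega, hk⟩
  obtain ⟨k, hk, hk'⟩ := hx _ hW
  refine ⟨k, ?_, hk'.1⟩
  by_contra hcon
  refine hk'.2 ⟨k - 1, Finset.mem_coe.2 (Finset.mem_range.2 (by omega)), ?_⟩
  show g^[k - 1 + 1] x = g^[k] x
  rw [Nat.sub_add_cancel hk]

/-- **Perturbation to a diffeomorphism with few recurrent critical points.** -/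
theorem noDecrease_of_tori {r : ℕ∞} (hr : 1 ≤ r) {F : DiffM n N r} (hF : NoDecreaseTori n N r F)
    (U : Set (DiffM n N r)) (hU : IsOpen[strongTop n N r] U) (hFU : F ∈ U) :
    ∃ G ∈ U, NoDecrease n N r G := by
  obtain ⟨h, p, d, m, E, f, ⟨hh, hm⟩, hT, hcount⟩ := hF
  have HS : Sys h (CritInv n F h) F :=
    ⟨hm, fun x hx => (hx 0).1, fun x => ⟨critInv_symm, critInv_map⟩, Subset.rfl⟩
  obtain ⟨G, hGU, HG, ⟨g, hg, H'⟩, hcyc', hag⟩ := multi hr HS d m E f hT.tori
    (fun j => cyc_critInv (hT.tori j)) hT.dis _ (fun j => tame_approx hr (hT.tame j)) U hU hFU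
  have himg : ∀ j, G '' cyc n F (d j) (m j) (E j) = cyc n F (d j) (m j) (E j) := by
    intro j
    have h1 := cyc_img (H' j)
    rwa [hcyc' j] at h1
  have hfw : ∀ j x, x ∈ cyc n F (d j) (m j) (E j) → G x ∈ cyc n F (d j) (m j) (E j) := by
    intro j x hx
    rw [← himg j]
    exact mem_image_of_mem _ hx
  have hbw : ∀ j x, G x ∈ cyc n F (d j) (m j) (E j) → x ∈ cyc n F (d j) (m j) (E j) := by
    intro j x hx
    rw [← himg j] at hx
    obtain ⟨y, hy, hyx⟩ := hx
    rwa [← G.injective hyx]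
  have hmet := Pool.Agent.Y504.CO.exists_metric n N
  refine ⟨G, hGU, h, hh, HG.mono, hcount.mono ?_⟩
  rintro x ⟨⟨hx1, hx2⟩, hx3⟩
  have hxC : x ∈ CritInv n F h := HG.cov hx1
  have hncyc : ∀ j, x ∉ cyc n F (d j) (m j) (E j) := by
    intro j hxj
    letI : MetricSpace N := TopologicalSpace.metrizableSpaceMetric N
    obtain ⟨θ, hθ, hθi, hθE⟩ := exists_theta (hT.tori j).le (hT.tori j).tube
    have hcycθ : cyc n F (d j) (m j) (E j) =
        ⋃ i : Fin (m j), (fun t => G.toHomeomorph^[(i : ℕ)] (θ t)) '' univ := by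
      rw [← hcyc' j]
      exact cyc_eq hθE
    have hcl : IsClosed (cyc n F (d j) (m j) (E j)) := by
      rw [← hcyc' j]
      exact cyc_closed G.continuous (H' j)
    have hit : ∀ k : ℕ, G^[k] x ∈ cyc n F (d j) (m j) (E j) := by
      intro k
      induction k with
      | zero => exact hxj
      | succ k ih => rw [Function.iterate_succ_apply']; exact hfw j _ ih
    have hsub : omegaLim G.toHomeomorph x ⊆ cyc n F (d j) (m j) (E j) := by
      intro y hy
      by_contra hyc
      obtain ⟨k, -, hk⟩ := hy _ (hcl.isOpen_compl.mem_nhds hyc) 0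
      exact hk (hit k)
    have h1 := cyc_limit G.toHomeomorph (hT.tori j).pos hθ hθi (g j) (hg j)
      (theta_dyn (H' j) hθE) (fun i h0 him s t => by
        obtain ⟨a, rfl⟩ := tor_surj' s
        obtain ⟨b, rfl⟩ := tor_surj' t
        rw [hθE, hθE]
        exact (H' j).dis i h0 him a b) (by rw [← hcycθ]; exact hsub)
      (rec_omegaLim (g := G.toHomeomorph) hx2 hx3)
    obtain ⟨k, hk, h2⟩ := h1
    exact hx3 ⟨k, hk, h2⟩
  have horb : ∀ k : ℕ, G^[k] x = F^[k] x ∧ G^[k] x ∈ CritInv n F h ∧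
      ∀ j, G^[k] x ∉ cyc n F (d j) (m j) (E j) := by
    intro k
    induction k with
    | zero => exact ⟨rfl, hxC, hncyc⟩
    | succ k ih =>
      obtain ⟨i1, i2, i3⟩ := ih
      rw [Function.iterate_succ_apply', Function.iterate_succ_apply', ← i1]
      refine ⟨hag _ i2 fun j z hz => i3 j ?_, (HG.inv _).2 i2, fun j hj => i3 j (hbw j _ hj)⟩
      rw [hz]
      exact core_mem_cyc (hT.tori j).pos z
  refine ⟨hxC, ?_, ?_, hncyc⟩
  · intro W hW
    obtain ⟨k, hk, hk'⟩ := hx2 W hW
    exact ⟨k, hk, by rw [← (horb k).1]; exact hk'⟩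
  · rintro ⟨k, hk, hk'⟩
    exact hx3 ⟨k, hk, by rw [(horb k).1]; exact hk'⟩

/-- **Converse of the `Ω`-stability theorem for limits of such diffeomorphisms.** -/
theorem stable_tori {r : ℕ∞} (hr : 1 ≤ r) {F : DiffM n N r} (hF : OmegaStable n N r F)
    (hcl : LimTori n N r F) :
    FiniteNoCycle F ∧ ∀ p ∈ Omega F, IsHyperbolicPer n F p := by
  refine closure_main hr hF fun U hU hFU => ?_
  obtain ⟨G, hGU, hG⟩ := hcl U hU hFU
  exact noDecrease_of_tori hr hG U hU hGU

end Pool.Agent.Q192.FT
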