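import Pool.Agent.Q192.FT.Nocyc
import Pool.Agent.Q192.FT.Stab
import Pool.Agent.Y504.CO.Plug

/-!
# Axiom A approximations of diffeomorphisms with nondegenerate critical tori

Author: helper192.
-/

set_option autoImplicit false
set_option linter.unusedSectionVars false

open scoped Manifold ContDiff Topology NNReal
open Filter Set Metric

universe u

namespace Pool.Agent.Q192.FT

open Pool.Agent.H718R2.G Pool.Agent.TH80.OMS Pool.Agent.Y504.CO Pool.Agent.Y318.MN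

open Pool.Agent.H728R2.OS (Torus toTorus IsLift IsHyperbolic ChainRec)

theorem tameH_approx {d : ℕ} {r : ℕ∞} (hr : 1 ≤ r) {f : Torus d ≃ₜ Torus d} (hf : TameH r f) :
    Approx r f HypFin := by
  rcases hf with hf | ⟨W, hf⟩ | h1
  · refine ⟨hf.diffeo, fun k hk ε hε => ?_⟩
    obtain ⟨g, hg, hc, hC, hH⟩ := Pool.Agent.H637R2.TD.density_close hr f hf k hk ε hε
    obtain ⟨h1, h2, -⟩ := Pool.Agent.H637R2.TD.all_of_conv g hC hH
    exact ⟨g, hg.diffeo, hc, h1, h2.1⟩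
  · refine ⟨hf.1, fun k hk ε hε => ?_⟩
    obtain ⟨g, W', h1, -, h2, h3, -, -, h4, -⟩ :=
      Pool.Agent.Y318.LF.dens Pool.Agent.Y210.LF.prim Pool.Agent.Y301.LF.t hr hf k hk ε hε
    exact ⟨g, h1.1, h2, h4, h3.1⟩
  · exact h1

section fin

variable {n : ℕ} {N : Type u} [TopologicalSpace N] [T2Space N] [CompactSpace N]
  [ChartedSpace (V n) N] [IsManifold (𝓡 n) ∞ N]

/-- near a torus of a cycle, the invariant critical points are on the cycle -/
theorem crit_near {h : N → ℝ} {r : ℕ∞} {F : DiffM n N r} {d m : ℕ} {E : V n → N}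
    {f : Torus d ≃ₜ Torus d} (H : CritTorus n h F d m E f) {x : N} (hx : x ∈ cyc n F d m E) :
    ∀ᶠ z in 𝓝 x, z ∈ CritInv n F h → z ∈ cyc n F d m E := by
  obtain ⟨i, hi, y, rfl⟩ := hx
  obtain ⟨χ, hχ, hv, hχE⟩ := H.chart (emb n d y)
  have h1 : F.symm^[i] (F^[i] (E (emb n d y))) = E (emb n d y) := symm_iterD F i _
  have h2 : E (emb n d y) ∈ χ.source := by
    rw [← hχE _ hv]
    exact χ.map_target hv
  have hci : Continuous (F.symm^[i]) := F.symm.continuous.iterate i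
  have h3 : ∀ᶠ z in 𝓝 (F^[i] (E (emb n d y))), F.symm^[i] z ∈ χ.source := by
    have h4 := hci.tendsto (F^[i] (E (emb n d y)))
    rw [h1] at h4
    exact h4.eventually (χ.open_source.mem_nhds h2)
  filter_upwards [h3] with z hz hzc
  have h5 : E (χ (F.symm^[i] z)) = F.symm^[i] z := by
    rw [← hχE _ (χ.map_source hz), χ.left_inv hz]
  have h6 : IsCrit n h (E (χ (F.symm^[i] z))) := by
    rw [h5]
    exact (hzc i).2
  obtain ⟨y', hy'⟩ := (core_iff H.le _).1 (H.core.1 h6)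
  refine ⟨i, hi, y', ?_⟩
  rw [← hy', h5, iter_symmD]

theorem rest_finite {h : N → ℝ} (hh : ContMDiff (𝓡 n) 𝓘(ℝ, ℝ) ∞ h) {r : ℕ∞} {F : DiffM n N r}
    {p : ℕ} (d m : Fin p → ℕ) (E : Fin p → V n → N) (f : ∀ j, Torus (d j) ≃ₜ Torus (d j))
    (H : ∀ j, CritTorus n h F (d j) (m j) (E j) (f j))
    (hcov : ∀ z ∈ CritInv n F h, Nondeg n h z ∨ ∃ j, z ∈ cyc n F (d j) (m j) (E j)) :
    (CritInv n F h \ ⋃ j, cyc n F (d j) (m j) (E j)).Finite := by
  by_contra hinf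
  obtain ⟨x, hx, hacc⟩ := Set.Infinite.exists_accPt_of_subset_isCompact hinf
    (critInv_closed hh).isCompact sdiff_subset
  rw [accPt_iff_frequently_nhdsNE] at hacc
  rcases hcov x hx with hnd | ⟨j, hj⟩
  · have h1 := nondeg_isolated hh (hx 0).1 hnd
    apply hacc
    filter_upwards [nhdsWithin_le_nhds (s := {x}ᶜ) h1, self_mem_nhdsWithin] with y hy hne hcon
    exact hne (hy (hcon.1 0).1)
  · apply hacc
    filter_upwards [nhdsWithin_le_nhds (s := {x}ᶜ) (crit_near (H j) hj)] with y hy hcon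
    exact hcon.2 (mem_iUnion.2 ⟨j, hy hcon.1⟩)

end fin

section asm

variable {n : ℕ} {N : Type u} [MetricSpace N] [CompactSpace N]
  [ChartedSpace (V n) N] [IsManifold (𝓡 n) ∞ N]

/-- the pieces are isolated -/
theorem piece_iso {G : N ≃ₜ N} {p : ℕ} {d m : Fin p → ℕ}
    (θ : ∀ j, Torus (d j) → N) (hθ : ∀ j, Continuous (θ j))
    (hdis : ∀ j j', j ≠ j' → ∀ i < m j, ∀ i' < m j', ∀ t t', G^[i] (θ j t) ≠ G^[i'] (θ j' t'))
    (hdis' : ∀ j, ∀ i, 0 < i → i < m j → ∀ t t', G^[i] (θ j t) ≠ θ j t')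
    {Z : Set N} (hZ : Z.Finite) (hZd : ∀ j, ∀ i < m j, ∀ t, G^[i] (θ j t) ∉ Z) {C : Set N}
    (hC : ∀ x ∈ C, x ∈ Z ∨ ∃ j, ∃ i < m j, ∃ t, x = G^[i] (θ j t)) (j : Fin p) {i : ℕ}
    (hi : i < m j) : ∃ ρ : ℝ, 0 < ρ ∧ ∀ a ∈ (fun t => G^[i] (θ j t)) '' univ, ∀ c ∈ C,
      dist a c < ρ → c ∈ (fun t => G^[i] (θ j t)) '' univ := by
  have hcont : ∀ (j : Fin p) (i : ℕ), Continuous fun t => G^[i] (θ j t) := fun j i =>
    (G.continuous.iterate i).comp (hθ j)
  set B : Set N := Z ∪ ⋃ s : (Σ j : Fin p, Fin (m j)), ⋃ _ : s ≠ ⟨j, ⟨i, hi⟩⟩,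
    (fun t => G^[(s.2 : ℕ)] (θ s.1 t)) '' univ with hB
  have hBcl : IsClosed B := by
    refine hZ.isClosed.union (isClosed_iUnion_of_finite fun s => isClosed_iUnion_of_finite
      fun _ => ?_)
    exact (isCompact_univ.image (hcont s.1 s.2)).isClosed
  refine iso_of_closed (isCompact_univ.image (hcont j i)) hBcl ?_ fun x hx => ?_
  · rw [Set.disjoint_left]
    rintro _ ⟨t, -, rfl⟩ (h | h)
    · exact hZd j i hi t h
    · obtain ⟨⟨j', i'⟩, h⟩ := mem_iUnion.1 h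
      obtain ⟨hne, h⟩ := mem_iUnion.1 h
      obtain ⟨t', -, ht'⟩ := h
      have ht : G^[(i' : ℕ)] (θ j' t') = G^[i] (θ j t) := ht'
      by_cases hj : j' = j
      · subst hj
        have hii : (i' : ℕ) ≠ i := fun hh => hne (by
          have : i' = ⟨i, hi⟩ := Fin.ext hh
          rw [this])
        rcases lt_or_gt_of_ne hii with h1 | h1
        · obtain ⟨e, he⟩ := Nat.exists_eq_add_of_lt h1
          rw [he, add_assoc, Function.iterate_add_apply] at ht
          exact hdis' j' (e + 1) (by omega) (by omega) t t' ((G.injective.iterate _) ht).symm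
        · obtain ⟨e, he⟩ := Nat.exists_eq_add_of_lt h1
          have hlt := i'.2
          rw [he, add_assoc, Function.iterate_add_apply] at ht
          exact hdis' j' (e + 1) (by omega) (by omega) t' t ((G.injective.iterate _) ht)
      · exact hdis j' j hj i' i'.2 i hi t' t ht
  · rcases hC x hx with h | ⟨j', i', hi', t, rfl⟩
    · exact Or.inr (Or.inl h)
    · by_cases hs : (⟨j', ⟨i', hi'⟩⟩ : Σ j : Fin p, Fin (m j)) = ⟨j, ⟨i, hi⟩⟩
      · left
        obtain ⟨hj, hi2⟩ := Sigma.mk.inj_iff.1 hs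
        subst hj
        have hi3 : i' = i := congrArg Fin.val (eq_of_heq hi2)
        subst hi3
        exact ⟨t, mem_univ _, rfl⟩
      · right
        right
        exact mem_iUnion.2 ⟨⟨j', ⟨i', hi'⟩⟩, mem_iUnion.2 ⟨hs, t, mem_univ _, rfl⟩⟩

end asm

section final

variable {n : ℕ} {N : Type u} [TopologicalSpace N] [T2Space N] [CompactSpace N]
  [ChartedSpace (V n) N] [IsManifold (𝓡 n) ∞ N]

/-- **Axiom A approximations.** -/
theorem axiomA {r : ℕ∞} (hr : 1 ≤ r) (F : DiffM n N r) {h : N → ℝ}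
    (hh : ContMDiff (𝓡 n) 𝓘(ℝ, ℝ) ∞ h) (hm : ∀ x, h x ≤ h (F x)) {p : ℕ} (d m : Fin p → ℕ)
    (E : Fin p → V n → N) (f : ∀ j, Torus (d j) ≃ₜ Torus (d j)) (hT : MorseTori n r h F d m E f)
    (hcov : ∀ z ∈ CritInv n F h, Nondeg n h z ∨ ∃ j, z ∈ cyc n F (d j) (m j) (E j))
    (U : Set (DiffM n N r)) (hU : IsOpen[strongTop n N r] U) (hFU : F ∈ U) :
    ∃ G ∈ U, FiniteNoCycle G ∧ (∀ p ∈ Omega G, IsHyperbolicPer n G p) ∧
      Omega G ⊆ CritInv n F h ∧ ∀ x, h x ≤ h (G x) := by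
  have H := hT.tori
  set Z : Set N := CritInv n F h \ ⋃ j, cyc n F (d j) (m j) (E j) with hZdef
  have hZf : Z.Finite := rest_finite hh d m E f H hcov
  set C : Set N := Z ∪ ⋃ j, cyc n F (d j) (m j) (E j) with hCdef
  have hcycF : ∀ j x, F x ∈ cyc n F (d j) (m j) (E j) ↔ x ∈ cyc n F (d j) (m j) (E j) := by
    intro j x
    constructor
    · intro hx
      rw [← cyc_img (H j)] at hx
      obtain ⟨y, hy, hyx⟩ := hx
      rwa [← F.injective hyx]
    · intro hx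
      rw [← cyc_img (H j)]
      exact mem_image_of_mem _ hx
  have hCI : ∀ x, F x ∈ CritInv n F h ↔ x ∈ CritInv n F h := fun x =>
    ⟨critInv_symm, critInv_map⟩
  have hZF : ∀ x, F x ∈ Z ↔ x ∈ Z := by
    intro x
    rw [hZdef, Set.mem_sdiff, Set.mem_sdiff, hCI, mem_iUnion, mem_iUnion]
    simp only [hcycF]
  have hcycC : ∀ j, cyc n F (d j) (m j) (E j) ⊆ C := fun j =>
    (subset_iUnion (fun j => cyc n F (d j) (m j) (E j)) j).trans subset_union_right
  have hCcrit : C ⊆ CritInv n F h := by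
    rintro x (hx | hx)
    · exact hx.1
    · obtain ⟨j, hj⟩ := mem_iUnion.1 hx
      exact cyc_critInv (H j) hj
  have HS : Sys h C F := by
    refine ⟨hm, fun x hx => (hCcrit hx 0).1, fun x => ?_, fun x hx => ?_⟩
    · rw [hCdef, mem_union, mem_union, hZF, mem_iUnion, mem_iUnion]
      simp only [hcycF]
    · by_cases h1 : x ∈ ⋃ j, cyc n F (d j) (m j) (E j)
      · exact Or.inr h1
      · exact Or.inl ⟨hx, h1⟩
  obtain ⟨F', hF'U, HS', ⟨g, hg, H'⟩, hcyc', hag⟩ := multi hr HS d m E f H hcycC hT.dis _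
    (fun j => tameH_approx hr (hT.tame j)) U hU hFU
  choose θ hθ hθi hθE using fun j => exists_theta (H j).le (H j).tube
  set Q : Set N := Z ∪ ⋃ j, θ j '' ChainRec (g j) with hQdef
  have hQf : Q.Finite := hZf.union (Set.finite_iUnion fun j => (hg j).1.image _)
  obtain ⟨Φ, G, hGU, hG, hΦ, hgrow⟩ := exists_push_growD hh hr F' U hU hF'U hQf.toFinset
  have hgrow' : ∀ q ∈ Q, GrowD n h Φ q := fun q hq => hgrow q (hQf.mem_toFinset.2 hq)
  have hGF' : ∀ x ∈ C, G x = F' x := fun x hx => by rw [hG, hΦ.fix x (HS'.crit x hx)]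
  have HG : ∀ j, CritTorus n h G (d j) (m j) (E j) (g j) ∧
      cyc n G (d j) (m j) (E j) = cyc n F (d j) (m j) (E j) := by
    intro j
    have h1 := crit_congr (G := G) (H' j) fun x hx => hGF' x (hcycC j (by
      rw [← hcyc' j]; exact hx))
    exact ⟨h1.1, h1.2.trans (hcyc' j)⟩
  have hGinj : Function.Injective (G : N → N) := G.injective
  have hfw : ∀ x, G x ∈ C ↔ x ∈ C := by
    intro x
    constructor
    · intro hx
      have h1 : Φ x ∈ C := by
        rw [hG, HS'.inv] at hx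
        exact hx
      have h2 : G (Φ x) = G x := by
        rw [hGF' _ h1, hG]
      rwa [hGinj h2] at h1
    · intro hx
      rw [hGF' x hx, HS'.inv]
      exact hx
  have hZG : ∀ x ∈ Z, G x ∈ Z := by
    intro x hx
    have h1 : G x = F x := by
      rw [hGF' x (Or.inl hx), hag x (Or.inl hx)]
      intro j z hz
      exact hx.2 (mem_iUnion.2 ⟨j, by rw [hz]; exact core_mem_cyc (H j).pos z⟩)
    rw [h1, hZF]
    exact hx
  have hΩC : Omega G ⊆ C :=
    (omega_sub hh.continuous HS'.mono hG hΦ).trans HS'.cov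
  have hmet := Pool.Agent.Y504.CO.exists_metric n N
  letI : MetricSpace N := TopologicalSpace.metrizableSpaceMetric N
  have hdyn : ∀ j t, G^[m j] (θ j t) = θ j (g j t) := fun j t => theta_dyn (HG j).1 (hθE j) t
  have hcycθ : ∀ j, cyc n F (d j) (m j) (E j) =
      ⋃ i : Fin (m j), (fun t => G^[(i : ℕ)] (θ j t)) '' univ := by
    intro j
    rw [← (HG j).2]
    exact cyc_eq (hθE j)
  have hmemcyc : ∀ j, ∀ i < m j, ∀ t, G^[i] (θ j t) ∈ cyc n F (d j) (m j) (E j) := by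
    intro j i hi t
    rw [hcycθ j]
    exact mem_iUnion.2 ⟨⟨i, hi⟩, t, mem_univ _, rfl⟩
  have hCcases : ∀ x ∈ C, x ∈ Z ∨ ∃ j, ∃ i < m j, ∃ t, x = G^[i] (θ j t) := by
    rintro x (hx | hx)
    · exact Or.inl hx
    · right
      obtain ⟨j, hj⟩ := mem_iUnion.1 hx
      rw [hcycθ j] at hj
      obtain ⟨i, t, -, rfl⟩ := mem_iUnion.1 hj
      exact ⟨j, i, i.2, t, rfl⟩
  have hiso : ∀ (j : Fin p) (i : ℕ), i < m j → ∃ ρ : ℝ, 0 < ρ ∧
      ∀ a ∈ (fun t => G.toHomeomorph^[i] (θ j t)) '' univ, ∀ c ∈ C,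
      dist a c < ρ → c ∈ (fun t => G.toHomeomorph^[i] (θ j t)) '' univ := by
    intro j i hi
    refine piece_iso (G := G.toHomeomorph) (d := d) (m := m) θ hθ ?_ ?_ hZf ?_ hCcases j hi
    · intro j₁ j₂ hj i₁ hi₁ i₂ hi₂ t t' heq
      refine Set.disjoint_left.1 (hT.dis j₁ j₂ hj) (hmemcyc j₁ i₁ hi₁ t) ?_
      have h1 : G^[i₁] (θ j₁ t) = G^[i₂] (θ j₂ t') := heq
      rw [h1]
      exact hmemcyc j₂ i₂ hi₂ t'
    · intro j₁ i₁ h0 hi₁ t t'
      obtain ⟨x, rfl⟩ := tor_surj' t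
      obtain ⟨x', rfl⟩ := tor_surj' t'
      rw [hθE, hθE]
      exact (HG j₁).1.dis i₁ h0 hi₁ x x'
    · intro j₁ i₁ hi₁ t hcon
      exact hcon.2 (mem_iUnion.2 ⟨j₁, hmemcyc j₁ i₁ hi₁ t⟩)
  -- the recurrent set
  set R : Set N := {x | x ∈ C ∧ Reach G C x x} with hR
  have hRloc : ∀ j, ∀ i < m j, ∀ t, Reach G C (G^[i] (θ j t)) (G^[i] (θ j t)) →
      t ∈ ChainRec (g j) := by
    intro j i hi t hre
    obtain ⟨ρ, hρ, hρ'⟩ := hiso j i hi
    exact reach_cyc G.toHomeomorph (hθ j) (hθi j) (g j) (hdyn j) hρ hρ' hre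
  have hRf : R.Finite := by
    have hsub : R ⊆ Z ∪ ⋃ j, ⋃ i : Fin (m j), (fun t => G^[(i : ℕ)] (θ j t)) '' ChainRec (g j) := by
      rintro x ⟨hxC, hre⟩
      rcases hCcases x hxC with h1 | ⟨j, i, hi, t, rfl⟩
      · exact Or.inl h1
      · exact Or.inr (mem_iUnion.2 ⟨j, mem_iUnion.2 ⟨⟨i, hi⟩, t, hRloc j i hi t hre, rfl⟩⟩)
    exact (hZf.union (Set.finite_iUnion fun j => Set.finite_iUnion fun i =>
      (hg j).1.image _)).subset hsub
  have hRper : ∀ x ∈ C, Reach G C x x → ∃ k : ℕ, 1 ≤ k ∧ G^[k] x = x := by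
    intro x hx hre
    exact per_of_finite hGinj hRf (fun y hy => ⟨(hfw y).2 hy.1,
      reach_map G.continuous (fun z hz => (hfw z).2 hz) hy.2⟩) (show x ∈ R from ⟨hx, hre⟩)
  have hΩR : Omega G ⊆ R := by
    intro x hx
    have hxC := hΩC hx
    refine ⟨hxC, reach_of_omega G.toHomeomorph hh.continuous (g_mono HS'.mono hG hΦ) hfw
      (fun z a hz => HS'.cov (critInv_of_const HS'.mono hG hΦ hz)) hxC fun δ hδ => ?_⟩
    obtain ⟨k, hk, y, hy, hky⟩ := hx (ball x δ) isOpen_ball (mem_ball_self hδ)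
    exact ⟨k, y, by omega, hy, hky⟩
  have hΩf : (Omega G).Finite := hRf.subset hΩR
  have hnc := no_cycle2 hh.continuous HS'.mono hG hΦ HS'.cov hfw hRper hΩf
  refine ⟨G, hGU, hnc, fun x hx => ?_, hΩC.trans hCcrit, g_mono HS'.mono hG hΦ⟩
  have hxR := hΩR hx
  have hxper : x ∈ Per G := hRper x hxR.1 hxR.2
  refine Plug.hyp_charpoly hr G hxper ?_
  rcases hCcases x hxR.1 with h1 | ⟨j, i, hi, t, rfl⟩
  · have hnd : Nondeg n h x := by
      rcases hcov x h1.1 with h2 | ⟨j, hj⟩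
      · exact h2
      · exact absurd (mem_iUnion.2 ⟨j, hj⟩) h1.2
    exact hyp_nondeg hr hh HS'.mono hG hΦ (h1.1 0).1 hnd (hgrow' x (Or.inl h1))
  · have ht : t ∈ ChainRec (g j) := hRloc j i hi t hxR.2
    obtain ⟨x₀, rfl⟩ := tor_surj' t
    intro k hk hkp ψ' hψ' hp'
    have hgr : GrowD n h Φ (E j (emb n (d j) x₀)) := by
      rw [← hθE]
      exact hgrow' _ (Or.inr (mem_iUnion.2 ⟨j, _, ht, rfl⟩))
    have hk0 : G^[k] (E j (emb n (d j) x₀)) = E j (emb n (d j) x₀) := by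
      rw [← hθE]
      apply hGinj.iterate i
      rw [← Function.iterate_add_apply, add_comm, Function.iterate_add_apply]
      exact hkp
    obtain ⟨ψ, hψ, hp, hnb⟩ := core_noBdd hr hh HS'.mono hG hΦ (HG j).1 (hg j).2 (hT.nondeg j)
      hgr hk hk0
    rw [hθE] at hp' ⊢
    exact noBdd_transport hr G hk0 hψ hψ' hp hp' hnb

end final

end Pool.Agent.Q192.FT
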