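import Pool.Agent.Q192.FT.Step
import Pool.Agent.Y318.MN.Attr

/-!
# Limit sets on tori with finite chain recurrent set

Author: helper192.
-/

set_option autoImplicit false
set_option linter.unusedSectionVars false

open scoped Topology
open Filter Set Metric MeasureTheory

namespace Pool.Agent.Q192.FT

open Pool.Agent.H728R2.OS

open Pool.Agent.H728R2.FA (omegaLim FiniteAttractors)

section top

variable {X : Type*} [TopologicalSpace X]

theorem omega_fwd' {T : X → X} (hT : Continuous T) {q y : X} (hy : y ∈ omegaLim T q) :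
    T y ∈ omegaLim T q := by
  intro U hU K
  obtain ⟨k, hk, h⟩ := hy (T ⁻¹' U) (hT.continuousAt.preimage_mem_nhds hU) K
  refine ⟨k + 1, by omega, ?_⟩
  rw [Function.iterate_succ_apply']
  exact h

theorem omega_shift {T : X → X} {p y : X} {a : ℕ} (hy : y ∈ omegaLim T (T^[a] p)) :
    y ∈ omegaLim T p := by
  intro U hU K
  obtain ⟨k, hk, h⟩ := hy U hU K
  refine ⟨k + a, by omega, ?_⟩
  rw [Function.iterate_add_apply]
  exact h

theorem omega_pow {T : X → X} {m : ℕ} (hm : 1 ≤ m) {q y : X} (hy : y ∈ omegaLim (T^[m]) q) :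
    y ∈ omegaLim T q := by
  intro U hU K
  obtain ⟨k, hk, h⟩ := hy U hU K
  rw [← Function.iterate_mul] at h
  exact ⟨m * k, by nlinarith, h⟩

theorem omega_split {T : X → X} {m : ℕ} (hm : 1 ≤ m) {p y : X} (hy : y ∈ omegaLim T p) :
    ∃ a < m, y ∈ omegaLim (T^[m]) (T^[a] p) := by
  by_contra hcon
  push Not at hcon
  have h1 : ∀ a : Fin m, ∃ U ∈ 𝓝 y, ∃ K : ℕ, ∀ k, K ≤ k → (T^[m])^[k] (T^[(a : ℕ)] p) ∉ U := by
    intro a
    have h := hcon a a.2
    by_contra hc
    push Not at hc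
    exact h fun U hU K => hc U hU K
  choose U hU K hK using h1
  have hV : (⋂ a, U a) ∈ 𝓝 y := (Filter.iInter_mem).2 hU
  obtain ⟨k, hk, h⟩ := hy _ hV (m * (Finset.univ.sup K))
  have ha : k % m < m := Nat.mod_lt _ (by omega)
  have h2 : K ⟨k % m, ha⟩ ≤ k / m := by
    have h3 : Finset.univ.sup K ≤ k / m := by
      rw [Nat.le_div_iff_mul_le (by omega), mul_comm]
      exact hk
    exact (Finset.le_sup (Finset.mem_univ _)).trans h3
  refine hK ⟨k % m, ha⟩ (k / m) h2 ?_
  have e : (T^[m])^[k / m] (T^[k % m] p) = T^[k] p := by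
    rw [← Function.iterate_mul, ← Function.iterate_add_apply]
    congr 2
    exact Nat.div_add_mod k m
  show (T^[m])^[k / m] (T^[k % m] p) ∈ U ⟨k % m, ha⟩
  rw [e]
  exact mem_iInter.1 h _

theorem exists_homeo (g : X ≃ₜ X) (m : ℕ) : ∃ T : X ≃ₜ X, (T : X → X) = g^[m] := by
  induction m with
  | zero => exact ⟨Homeomorph.refl X, rfl⟩
  | succ m ih =>
    obtain ⟨T, hT⟩ := ih
    refine ⟨g.trans T, ?_⟩
    funext x
    show T (g x) = _
    rw [hT, ← Function.iterate_succ_apply]

end top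

section met

variable {X : Type*} [MetricSpace X] [CompactSpace X]

theorem exists_lim {T : X → X} {q : X} {K : Set X} (hK : IsClosed K)
    (h : ∃ᶠ k in atTop, T^[k] q ∈ K) : ∃ y ∈ K, y ∈ omegaLim T q := by
  obtain ⟨φ, hφ, hφK⟩ := extraction_of_frequently_atTop h
  obtain ⟨y, hy, ψ, hψ, hlim⟩ := hK.isCompact.tendsto_subseq (x := fun k => T^[φ k] q) hφK
  refine ⟨y, hy, fun U hU M => ?_⟩
  obtain ⟨k, hk, hM⟩ := ((hlim.eventually hU).and (eventually_ge_atTop M)).exists
  exact ⟨φ (ψ k), (hM.trans (hψ.id_le k)).trans (hφ.id_le _), hk⟩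

theorem inv_unif {Y : Type*} [MetricSpace Y] [CompactSpace Y] {θ : Y → X} (hθ : Continuous θ)
    (hinj : Function.Injective θ) {ε : ℝ} (hε : 0 < ε) :
    ∃ δ : ℝ, 0 < δ ∧ ∀ a b, dist (θ a) (θ b) < δ → dist a b < ε := by
  have hc : IsCompact {p : Y × Y | ε ≤ dist p.1 p.2} :=
    (isClosed_le continuous_const (continuous_fst.dist continuous_snd)).isCompact
  rcases Set.eq_empty_or_nonempty {p : Y × Y | ε ≤ dist p.1 p.2} with h | h
  · refine ⟨1, one_pos, fun a b _ => ?_⟩
    by_contra hcon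
    have : (a, b) ∈ {p : Y × Y | ε ≤ dist p.1 p.2} := not_lt.1 hcon
    rw [h] at this
    exact this
  · obtain ⟨p, hp, hmin⟩ := hc.exists_isMinOn h
      ((hθ.comp continuous_fst).dist (hθ.comp continuous_snd)).continuousOn
    have hp' : ε ≤ dist p.1 p.2 := hp
    refine ⟨dist (θ p.1) (θ p.2), dist_pos.2 fun hh => ?_, fun a b hab => ?_⟩
    · rw [hinj hh, dist_self] at hp'
      linarith
    · by_contra hcon
      have h1 : (a, b) ∈ {p : Y × Y | ε ≤ dist p.1 p.2} := not_lt.1 hcon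
      have h2 := hmin h1
      exact absurd hab (not_lt.2 h2)

/-- the limit set of an orbit which converges to an embedded torus is chain recurrent there -/
theorem chain_of_limit {Y : Type*} [MetricSpace Y] [CompactSpace Y] {T : X → X}
    (hT : Continuous T) {θ : Y → X} (hθ : Continuous θ) (hinj : Function.Injective θ)
    (g : Y ≃ₜ Y) (hconj : ∀ t, T (θ t) = θ (g t)) {q : X} (hω : omegaLim T q ⊆ range θ) {t : Y}
    (ht : θ t ∈ omegaLim T q) : t ∈ ChainRec g := by
  have hcpt : IsCompact (range θ) := isCompact_range hθ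
  have hne : (range θ).Nonempty := ⟨θ t, t, rfl⟩
  have hnear : ∀ k : ℕ, ∃ s : Y, infDist (T^[k] q) (range θ) = dist (T^[k] q) (θ s) := by
    intro k
    obtain ⟨_, ⟨s, rfl⟩, h⟩ := hcpt.exists_infDist_eq_dist hne (T^[k] q)
    exact ⟨s, h⟩
  choose s hs using hnear
  have hlim : ∀ η : ℝ, 0 < η → ∀ᶠ k in atTop, dist (θ (s k)) (T^[k] q) < η := by
    intro η hη
    by_contra hcon
    rw [not_eventually] at hcon
    have hcl : IsClosed {x | η ≤ infDist x (range θ)} :=
      isClosed_le continuous_const (continuous_infDist_pt _)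
    obtain ⟨y, hy, hyω⟩ := exists_lim (T := T) (q := q) hcl (hcon.mono fun k hk => by
      show η ≤ infDist (T^[k] q) (range θ)
      rw [hs, dist_comm]
      exact not_lt.1 hk)
    have h1 : infDist y (range θ) = 0 := infDist_zero_of_mem (hω hyω)
    have h2 : η ≤ infDist y (range θ) := hy
    linarith
  intro ε hε
  -- uniform continuity
  obtain ⟨η₀, hη₀, hg⟩ := Metric.uniformContinuous_iff.1
    (CompactSpace.uniformContinuous_of_continuous g.continuous) (ε / 3) (by positivity)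
  set η : ℝ := min η₀ (ε / 3) with hη
  have hηpos : 0 < η := lt_min hη₀ (by positivity)
  obtain ⟨δ₁, hδ₁, hd₁⟩ := inv_unif hθ hinj (show 0 < ε / 3 by positivity)
  obtain ⟨δ₂, hδ₂, hd₂⟩ := Metric.uniformContinuous_iff.1
    (CompactSpace.uniformContinuous_of_continuous hT) (δ₁ / 2) (by positivity)
  obtain ⟨δ₃, hδ₃, hd₃⟩ := inv_unif hθ hinj hηpos
  obtain ⟨K, hK⟩ := eventually_atTop.1 (hlim (min (min δ₂ (δ₁ / 2)) (δ₃ / 2)) (by positivity))
  have hstep : ∀ k, K ≤ k → dist (g (s k)) (s (k + 1)) < ε / 3 := by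
    intro k hk
    apply hd₁
    have h1 : dist (θ (s k)) (T^[k] q) < δ₂ :=
      (hK k hk).trans_le ((min_le_left _ _).trans (min_le_left _ _))
    have h2 := hd₂ h1
    rw [hconj, ← Function.iterate_succ_apply' T k q] at h2
    have h3 : dist (θ (s (k + 1))) (T^[k + 1] q) < δ₁ / 2 :=
      (hK (k + 1) (by omega)).trans_le ((min_le_left _ _).trans (min_le_right _ _))
    calc dist (θ (g (s k))) (θ (s (k + 1)))
        ≤ dist (θ (g (s k))) (T^[k + 1] q) + dist (θ (s (k + 1))) (T^[k + 1] q) :=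
          dist_triangle_right _ _ _
      _ < δ₁ / 2 + δ₁ / 2 := add_lt_add h2 h3
      _ = δ₁ := by ring
  have hret : ∀ M : ℕ, ∃ k, M ≤ k ∧ K ≤ k ∧ dist (s k) t < η := by
    intro M
    obtain ⟨k, hk, h⟩ := ht (ball (θ t) (δ₃ / 2)) (ball_mem_nhds _ (by positivity)) (max M K)
    refine ⟨k, (le_max_left _ _).trans hk, (le_max_right _ _).trans hk, hd₃ _ _ ?_⟩
    have h1 : dist (θ (s k)) (T^[k] q) < δ₃ / 2 :=
      (hK k ((le_max_right _ _).trans hk)).trans_le (min_le_right _ _)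
    have h2 : dist (T^[k] q) (θ t) < δ₃ / 2 := h
    calc dist (θ (s k)) (θ t) ≤ dist (θ (s k)) (T^[k] q) + dist (T^[k] q) (θ t) :=
          dist_triangle _ _ _
      _ < δ₃ / 2 + δ₃ / 2 := add_lt_add h1 h2
      _ = δ₃ := by ring
  obtain ⟨k, -, hkK, hk⟩ := hret 0
  obtain ⟨l, hl, -, hlt⟩ := hret (k + 1)
  obtain ⟨e, rfl⟩ := Nat.exists_eq_add_of_le hl
  set c : ℕ → Y := fun i => if i = 0 ∨ i = 1 + e then t else s (k + i) with hc
  have hcs : ∀ i, i ≤ 1 + e → dist (c i) (s (k + i)) < η := by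
    intro i hi
    by_cases h : i = 0 ∨ i = 1 + e
    · have h1 : c i = t := by rw [hc]; exact if_pos h
      rw [h1, dist_comm]
      rcases h with rfl | rfl
      · exact hk
      · have : k + (1 + e) = k + 1 + e := by omega
        rw [this]
        exact hlt
    · have h1 : c i = s (k + i) := by rw [hc]; exact if_neg h
      rw [h1, dist_self]
      exact hηpos
  refine ⟨1 + e, c, by omega, ?_, ?_, fun i hi => ?_⟩
  · rw [hc]; exact if_pos (Or.inl rfl)
  · rw [hc]; exact if_pos (Or.inr rfl)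
  · have h1 : dist (g (c i)) (g (s (k + i))) < ε / 3 :=
      hg ((hcs i hi.le).trans_le (min_le_left _ _))
    have h2 := hstep (k + i) (by omega)
    have h3 : dist (c (i + 1)) (s (k + (i + 1))) < ε / 3 :=
      (hcs (i + 1) (by omega)).trans_le (min_le_right _ _)
    calc dist (g (c i)) (c (i + 1))
        ≤ dist (g (c i)) (g (s (k + i))) + dist (g (s (k + i))) (c (i + 1)) :=
          dist_triangle _ _ _
      _ ≤ dist (g (c i)) (g (s (k + i))) + (dist (g (s (k + i))) (s (k + i + 1)) +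
            dist (c (i + 1)) (s (k + i + 1))) := by
          gcongr
          exact dist_triangle_right _ _ _
      _ < ε / 3 + (ε / 3 + ε / 3) := add_lt_add h1 (add_lt_add h2 h3)
      _ = ε := by ring

/-- such limit sets consist of periodic points, if the chain recurrent set is finite -/
theorem per_of_limit {Y : Type*} [MetricSpace Y] [CompactSpace Y] {T : X → X}
    (hT : Continuous T) {θ : Y → X} (hθ : Continuous θ) (hinj : Function.Injective θ)
    (g : Y ≃ₜ Y) (hfin : (ChainRec g).Finite) (hconj : ∀ t, T (θ t) = θ (g t)) {q : X}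
    (hω : omegaLim T q ⊆ range θ) {y : X} (hy : y ∈ omegaLim T q) :
    ∃ k : ℕ, 1 ≤ k ∧ T^[k] y = y := by
  obtain ⟨t, rfl⟩ := hω hy
  have hmem : ∀ k : ℕ, θ (g^[k] t) ∈ omegaLim T q := by
    intro k
    induction k with
    | zero => exact hy
    | succ k ih =>
      rw [Function.iterate_succ_apply', ← hconj]
      exact omega_fwd' hT ih
  have hch : ∀ k : ℕ, g^[k] t ∈ ChainRec g := fun k =>
    chain_of_limit hT hθ hinj g hconj hω (hmem k)
  have := hfin.to_subtype
  obtain ⟨a, b, hab, heq⟩ := Finite.exists_ne_map_eq_of_infinite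
    (fun k : ℕ => (⟨g^[k] t, hch k⟩ : ChainRec g))
  have heq' : g^[a] t = g^[b] t := congrArg Subtype.val heq
  have hper : ∃ k : ℕ, 1 ≤ k ∧ g^[k] t = t := by
    rcases lt_or_gt_of_ne hab with h | h
    · obtain ⟨k, rfl⟩ := Nat.exists_eq_add_of_lt h
      refine ⟨k + 1, by omega, (g.injective.iterate a) ?_⟩
      rw [← Function.iterate_add_apply, heq']
      rfl
    · obtain ⟨k, rfl⟩ := Nat.exists_eq_add_of_lt h
      refine ⟨k + 1, by omega, (g.injective.iterate b) ?_⟩
      rw [← Function.iterate_add_apply, ← heq']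
      rfl
  obtain ⟨k, hk, h⟩ := hper
  refine ⟨k, hk, ?_⟩
  have e : ∀ i, T^[i] (θ t) = θ (g^[i] t) := by
    intro i
    induction i with
    | zero => rfl
    | succ i ih => rw [Function.iterate_succ_apply', ih, hconj, Function.iterate_succ_apply']
  rw [e, h]

omit [CompactSpace X] in
theorem per_chain (g : X ≃ₜ X) {t : X} {k : ℕ} (hk : 1 ≤ k) (h : g^[k] t = t) :
    t ∈ ChainRec g := by
  intro ε hε
  refine ⟨k, fun i => g^[i] t, hk, rfl, h, fun i _ => ?_⟩
  show dist (g (g^[i] t)) (g^[i + 1] t) < ε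
  rw [← Function.iterate_succ_apply' g, dist_self]
  exact hε

/-- the forward orbit -/
def orb (g : X → X) (y : X) : Set X := range fun k : ℕ => g^[k] y

omit [CompactSpace X] in
theorem orb_img {g : X → X} {y : X} {k : ℕ} (hk : 1 ≤ k) (h : g^[k] y = y) :
    g '' orb g y = orb g y := by
  apply subset_antisymm
  · rintro _ ⟨_, ⟨i, rfl⟩, rfl⟩
    exact ⟨i + 1, Function.iterate_succ_apply' _ _ _⟩
  · rintro _ ⟨i, rfl⟩
    refine ⟨g^[i + (k - 1)] y, ⟨_, rfl⟩, ?_⟩
    rw [← Function.iterate_succ_apply' g]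
    have e : (i + (k - 1)).succ = i + k := by omega
    rw [e, Function.iterate_add_apply, h]

omit [CompactSpace X] in
theorem orb_eq {g : X → X} {y z : X} {k : ℕ} (hk : 1 ≤ k) (h : g^[k] y = y) (hz : z ∈ orb g y) :
    orb g z = orb g y := by
  obtain ⟨i, rfl⟩ := hz
  apply subset_antisymm
  · rintro _ ⟨j, rfl⟩
    exact ⟨j + i, Function.iterate_add_apply _ _ _ _⟩
  · rintro _ ⟨j, rfl⟩
    have hp : ∀ l : ℕ, g^[k * l] y = y := by
      intro l
      induction l with
      | zero => rfl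
      | succ l ih => rw [Nat.mul_succ, Function.iterate_add_apply, h, ih]
    refine ⟨j + (k * i - i), ?_⟩
    show g^[j + (k * i - i)] (g^[i] y) = g^[j] y
    have h1 : i ≤ k * i := Nat.le_mul_of_pos_left i (by omega)
    have e : j + (k * i - i) + i = j + k * i := by omega
    rw [← Function.iterate_add_apply, e, Function.iterate_add_apply, hp]

theorem orb_disj {g : X → X} {y z : X} (hy : ∃ k : ℕ, 1 ≤ k ∧ g^[k] y = y)
    (hz : ∃ k : ℕ, 1 ≤ k ∧ g^[k] z = z) (hne : orb g y ≠ orb g z) :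
    Disjoint (orb g y) (orb g z) := by
  rw [Set.disjoint_left]
  intro w hwy hwz
  obtain ⟨k, hk, h⟩ := hy
  obtain ⟨l, hl, h'⟩ := hz
  exact hne ((orb_eq hk h hwy).symm.trans (orb_eq hl h' hwz))

/-- **Finitely many attractors.** -/
theorem fin_attr (g : X ≃ₜ X) {l : ℕ} (M : Fin l → Set X) (hinv : ∀ i, g '' M i = M i)
    (htr : ∀ i, ∃ x ∈ M i, M i ⊆ closure (range fun k : ℕ => g^[k] x)) (Q : Set X)
    (hQ : Q.Finite) (hper : ∀ y ∈ Q, ∃ k : ℕ, 1 ≤ k ∧ g^[k] y = y)
    (hcov : ∀ p, (∃ i, omegaLim g p ⊆ M i) ∨ omegaLim g p ⊆ Q) :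
    (∀ p, (∃ i, omegaLim g p ⊆ M i) ∨ ∃ y ∈ Q, omegaLim g p ⊆ orb g y) ∧
      ∀ (_ : MeasurableSpace X) (μ : Measure X), FiniteAttractors μ g := by
  classical
  have hOf : (orb g '' Q).Finite := hQ.image _
  have := hOf.to_subtype
  obtain ⟨c, ⟨e⟩⟩ := Finite.exists_equiv_fin (orb g '' Q)
  set M' : Fin c → Set X := fun i => (e.symm i).1 with hM'
  have hM'Q : ∀ i, ∃ y ∈ Q, M' i = orb g y := by
    intro i
    obtain ⟨y, hy, h⟩ := (e.symm i).2
    exact ⟨y, hy, h.symm⟩
  have hfinorb : ∀ y ∈ Q, (orb g y).Finite := by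
    intro y hy
    obtain ⟨k, hk, h⟩ := hper y hy
    have hp : ∀ l : ℕ, g^[k * l] y = y := by
      intro l
      induction l with
      | zero => rfl
      | succ l ih => rw [Nat.mul_succ, Function.iterate_add_apply, h, ih]
    have hsub : orb g y ⊆ (fun i : ℕ => g^[i] y) '' (Finset.range k : Set ℕ) := by
      rintro _ ⟨i, rfl⟩
      refine ⟨i % k, Finset.mem_coe.2 (Finset.mem_range.2 (Nat.mod_lt _ (by omega))), ?_⟩
      show g^[i % k] y = g^[i] y
      conv_rhs => rw [← Nat.mod_add_div i k, Function.iterate_add_apply, hp]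
    exact ((Finset.finite_toSet _).image _).subset hsub
  have hcl' : ∀ i, IsClosed (M' i) := by
    intro i
    obtain ⟨y, hy, h⟩ := hM'Q i
    rw [h]
    exact (hfinorb y hy).isClosed
  have hinv' : ∀ i, g '' M' i = M' i := by
    intro i
    obtain ⟨y, hy, h⟩ := hM'Q i
    obtain ⟨k, hk, hk'⟩ := hper y hy
    rw [h]
    exact orb_img hk hk'
  have hdis' : ∀ i j, i ≠ j → Disjoint (M' i) (M' j) := by
    intro i j hij
    obtain ⟨y, hy, h⟩ := hM'Q i
    obtain ⟨z, hz, h'⟩ := hM'Q j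
    rw [h, h']
    refine orb_disj (hper y hy) (hper z hz) fun hh => hij ?_
    apply e.symm.injective
    apply Subtype.ext
    show M' i = M' j
    rw [h, h', hh]
  have h1 : ∀ p, (∃ i, omegaLim g p ⊆ M i) ∨ ∃ i, omegaLim g p ⊆ M' i := by
    intro p
    rcases hcov p with h | h
    · exact Or.inl h
    · right
      refine Pool.Agent.Y318.MH.omegaLim_one g M' hcl' hinv' hdis' p fun y hy => ?_
      refine mem_iUnion.2 ⟨e ⟨orb g y, y, h hy, rfl⟩, ?_⟩
      show y ∈ (e.symm (e ⟨orb g y, y, h hy, rfl⟩)).1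
      rw [e.symm_apply_apply]
      exact ⟨0, rfl⟩
  refine ⟨fun p => (h1 p).imp id ?_, fun _ μ => ?_⟩
  · rintro ⟨i, hi⟩
    obtain ⟨y, hy, h⟩ := hM'Q i
    exact ⟨y, hy, by rw [← h]; exact hi⟩
  · refine Pool.Agent.Y318.MH.finite_of_cover μ g (Fin.append M M') (fun i => ?_) (fun i => ?_)
      fun p => ?_
    · induction i using Fin.addCases with
      | left i => rw [Fin.append_left]; exact hinv i
      | right i => rw [Fin.append_right]; exact hinv' i
    · induction i using Fin.addCases with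
      | left i => rw [Fin.append_left]; exact htr i
      | right i =>
        rw [Fin.append_right]
        obtain ⟨y, hy, h⟩ := hM'Q i
        rw [h]
        exact ⟨y, ⟨0, rfl⟩, subset_closure⟩
    · rcases h1 p with ⟨i, hi⟩ | ⟨i, hi⟩
      · exact ⟨Fin.castAdd c i, by rw [Fin.append_left]; exact hi⟩
      · exact ⟨Fin.natAdd l i, by rw [Fin.append_right]; exact hi⟩

end met

end Pool.Agent.Q192.FT
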