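import Pool.Agent.Q192.FT.Att

/-!
# Chains in invariant sets

Author: helper192.
-/

set_option autoImplicit false
set_option linter.unusedSectionVars false

open scoped Topology
open Filter Set Metric

namespace Pool.Agent.Q192.FT

open Pool.Agent.H728R2.OS

section chn

variable {X : Type*} [MetricSpace X]

/-- `y` can be reached from `x` by `ε`-chains of `T` in `C`, for every `ε > 0`. -/
def Reach (T : X → X) (C : Set X) (x y : X) : Prop :=
  ∀ ε : ℝ, 0 < ε → ∃ (n : ℕ) (c : ℕ → X), 0 < n ∧ c 0 = x ∧ c n = y ∧ (∀ i ≤ n, c i ∈ C) ∧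
    ∀ i < n, dist (T (c i)) (c (i + 1)) < ε

theorem Reach.trans {T : X → X} {C : Set X} {x y z : X} (h : Reach T C x y)
    (h' : Reach T C y z) : Reach T C x z := by
  intro ε hε
  obtain ⟨n, c, hn, h0, h1, h2, h3⟩ := h ε hε
  obtain ⟨n', c', hn', h0', h1', h2', h3'⟩ := h' ε hε
  refine ⟨n + n', fun i => if i ≤ n then c i else c' (i - n), by omega, ?_, ?_, fun i hi => ?_,
    fun i hi => ?_⟩
  · show (if 0 ≤ n then c 0 else c' (0 - n)) = x
    rw [if_pos (Nat.zero_le _), h0]
  · show (if n + n' ≤ n then c (n + n') else c' (n + n' - n)) = z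
    rw [if_neg (by omega), Nat.add_sub_cancel_left, h1']
  · show (if i ≤ n then c i else c' (i - n)) ∈ C
    by_cases hin : i ≤ n
    · rw [if_pos hin]
      exact h2 i hin
    · rw [if_neg hin]
      exact h2' _ (by omega)
  · show dist (T (if i ≤ n then c i else c' (i - n)))
      (if i + 1 ≤ n then c (i + 1) else c' (i + 1 - n)) < ε
    rcases lt_trichotomy i n with h | h | h
    · rw [if_pos h.le, if_pos (by omega)]
      exact h3 i h
    · subst h
      rw [if_pos le_rfl, if_neg (by omega), h1, ← h0', Nat.add_sub_cancel_left]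
      exact h3' 0 hn'
    · rw [if_neg (by omega), if_neg (by omega)]
      have e : i + 1 - n = (i - n) + 1 := by omega
      rw [e]
      exact h3' (i - n) (by omega)

/-- grouping the steps of a chain -/
theorem group [CompactSpace X] {T : X → X} (hT : Continuous T) (M : ℕ) :
    ∀ ε : ℝ, 0 < ε → ∃ δ : ℝ, 0 < δ ∧ ∀ c : ℕ → X, (∀ i < M, dist (T (c i)) (c (i + 1)) < δ) →
      dist (T^[M] (c 0)) (c M) < ε := by
  induction M with
  | zero =>
    intro ε hε
    refine ⟨1, one_pos, fun c _ => ?_⟩
    show dist (c 0) (c 0) < ε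
    rw [dist_self]
    exact hε
  | succ M ih =>
    intro ε hε
    obtain ⟨η, hη, hη'⟩ := Metric.uniformContinuous_iff.1
      (CompactSpace.uniformContinuous_of_continuous hT) (ε / 2) (by positivity)
    obtain ⟨δ, hδ, hδ'⟩ := ih η hη
    refine ⟨min δ (ε / 2), by positivity, fun c hc => ?_⟩
    have h1 := hδ' c fun i hi => (hc i (by omega)).trans_le (min_le_left _ _)
    have h2 := hη' h1
    have h3 := (hc M (by omega)).trans_le (min_le_right _ _)
    rw [Function.iterate_succ_apply']
    calc dist (T (T^[M] (c 0))) (c (M + 1))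
        ≤ dist (T (T^[M] (c 0))) (T (c M)) + dist (T (c M)) (c (M + 1)) := dist_triangle _ _ _
      _ < ε / 2 + ε / 2 := add_lt_add h2 h3
      _ = ε := by ring

theorem reach_pow [CompactSpace X] {T : X → X} (hT : Continuous T) (M : ℕ) {C : Set X} {x : X}
    (h : Reach T C x x) : Reach (T^[M]) C x x := by
  intro ε hε
  obtain ⟨δ, hδ, hgr⟩ := group hT M ε hε
  obtain ⟨n, c, hn, h0, h1, h2, h3⟩ := h δ hδ
  set c' : ℕ → X := fun i => c (i % n) with hc'
  have hstep : ∀ i, dist (T (c' i)) (c' (i + 1)) < δ := by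
    intro i
    have hlt : i % n < n := Nat.mod_lt _ hn
    have h4 := h3 (i % n) hlt
    by_cases hcase : i % n + 1 < n
    · have e : (i + 1) % n = i % n + 1 := by
        rw [Nat.add_mod, Nat.mod_eq_of_lt (show 1 < n by omega)]
        exact Nat.mod_eq_of_lt hcase
      show dist (T (c (i % n))) (c ((i + 1) % n)) < δ
      rw [e]
      exact h4
    · have e' : i % n + 1 = n := by omega
      have e : (i + 1) % n = 0 := by
        rw [← Nat.mod_add_mod, e', Nat.mod_self]
      show dist (T (c (i % n))) (c ((i + 1) % n)) < δ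
      rw [e, h0, ← h1]
      rw [e'] at h4
      exact h4
  have hc0 : c' 0 = x := by
    show c (0 % n) = x
    rw [Nat.zero_mod, h0]
  refine ⟨n, fun k => c' (M * k), hn, ?_, ?_, fun i _ => h2 _ (Nat.mod_lt _ hn).le, fun i _ => ?_⟩
  · show c' (M * 0) = x
    rw [mul_zero, hc0]
  · show c ((M * n) % n) = x
    rw [Nat.mul_mod_left, h0]
  · have h4 := hgr (fun j => c' (M * i + j)) fun j _ => by
      rw [← add_assoc]
      exact hstep _
    show dist (T^[M] (c' (M * i))) (c' (M * (i + 1))) < ε
    rw [Nat.mul_succ]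
    exact h4

/-- chains stay in an isolated invariant piece -/
theorem reach_piece {T : X → X} {C A : Set X} {x y : X} (h : Reach T C x y) (hx : x ∈ A)
    (hA : ∀ a ∈ A, T a ∈ A) {ρ : ℝ} (hρ : 0 < ρ) (hiso : ∀ a ∈ A, ∀ c ∈ C, dist a c < ρ → c ∈ A) :
    Reach T A x y := by
  intro ε hε
  obtain ⟨n, c, hn, h0, h1, h2, h3⟩ := h (min ε ρ) (lt_min hε hρ)
  refine ⟨n, c, hn, h0, h1, fun i hi => ?_, fun i hi => (h3 i hi).trans_le (min_le_left _ _)⟩
  induction i with
  | zero => rw [h0]; exact hx
  | succ i ih =>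
    exact hiso _ (hA _ (ih (by omega))) _ (h2 _ hi) ((h3 i (by omega)).trans_le (min_le_right _ _))

/-- chains in an embedded space -/
theorem chain_of_reach [CompactSpace X] {Y : Type*} [MetricSpace Y] [CompactSpace Y] {T : X → X}
    {φ : Y → X} (hφ : Continuous φ) (hinj : Function.Injective φ) (γ : Y ≃ₜ Y)
    (hconj : ∀ t, T (φ t) = φ (γ t)) {t : Y} (h : Reach T (range φ) (φ t) (φ t)) :
    t ∈ ChainRec γ := by
  intro ε hε
  obtain ⟨δ, hδ, hd⟩ := inv_unif hφ hinj hε
  obtain ⟨n, c, hn, h0, h1, h2, h3⟩ := h δ hδ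
  have h2' : ∀ i, ∃ s : Y, i ≤ n → φ s = c i := by
    intro i
    by_cases hi : i ≤ n
    · obtain ⟨s, hs⟩ := h2 i hi
      exact ⟨s, fun _ => hs⟩
    · exact ⟨t, fun h => absurd h hi⟩
  choose s hs using h2'
  refine ⟨n, s, hn, hinj ?_, hinj ?_, fun i hi => hd _ _ ?_⟩
  · rw [hs 0 (Nat.zero_le _), h0]
  · rw [hs n le_rfl, h1]
  · rw [← hconj, hs i hi.le, hs (i + 1) hi]
    exact h3 i hi

/-- the chain recurrent set of a power -/
theorem chainRec_pow {g T : X ≃ₜ X} {l : ℕ} (hl : 1 ≤ l) (hT : ∀ x, T x = g^[l] x) {t : X}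
    (h : t ∈ ChainRec T) : t ∈ ChainRec g := by
  intro ε hε
  obtain ⟨n, c, hn, h0, h1, h2⟩ := h ε hε
  refine ⟨l * n, fun i => g^[i % l] (c (i / l)), Nat.mul_pos hl hn, ?_, ?_, fun i hi => ?_⟩
  · show g^[0 % l] (c (0 / l)) = t
    rw [Nat.zero_mod, Nat.zero_div, h0]
    rfl
  · show g^[(l * n) % l] (c ((l * n) / l)) = t
    rw [Nat.mul_mod_right, Nat.mul_div_cancel_left n (by omega), h1]
    rfl
  · show dist (g (g^[i % l] (c (i / l)))) (g^[(i + 1) % l] (c ((i + 1) / l))) < ε
    have hlt : i % l < l := Nat.mod_lt _ (by omega)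
    have hdiv := Nat.div_add_mod i l
    rw [← Function.iterate_succ_apply' g]
    by_cases hcase : i % l + 1 < l
    · have e1 : (i + 1) / l = i / l := by
        apply Nat.div_eq_of_lt_le
        · have : i / l * l = l * (i / l) := mul_comm _ _
          omega
        · have : (i / l + 1) * l = l * (i / l) + l := by ring
          omega
      have e2 : (i + 1) % l = i % l + 1 := by
        have := Nat.div_add_mod (i + 1) l
        rw [e1] at this
        omega
      rw [e1, e2, dist_self]
      exact hε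
    · have e1 : (i + 1) / l = i / l + 1 := by
        apply Nat.div_eq_of_lt_le
        · have : (i / l + 1) * l = l * (i / l) + l := by ring
          omega
        · have : (i / l + 1 + 1) * l = l * (i / l) + l + l := by ring
          omega
      have e2 : (i + 1) % l = 0 := by
        have := Nat.div_add_mod (i + 1) l
        rw [e1] at this
        have e3 : l * (i / l + 1) = l * (i / l) + l := by ring
        omega
      have e3 : (i % l).succ = l := by omega
      rw [e1, e2, e3, ← hT]
      exact h2 _ (by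
        rw [Nat.div_lt_iff_lt_mul (by omega), mul_comm]
        exact hi)

theorem reach_map [CompactSpace X] {T : X → X} (hT : Continuous T) {C : Set X}
    (hC : ∀ x ∈ C, T x ∈ C) {x y : X} (h : Reach T C x y) : Reach T C (T x) (T y) := by
  intro ε hε
  obtain ⟨δ, hδ, hd⟩ := Metric.uniformContinuous_iff.1
    (CompactSpace.uniformContinuous_of_continuous hT) ε hε
  obtain ⟨n, c, hn, h0, h1, h2, h3⟩ := h δ hδ
  exact ⟨n, fun i => T (c i), hn, congrArg T h0, congrArg T h1, fun i hi => hC _ (h2 i hi),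
    fun i hi => hd (h3 i hi)⟩

/-- a finite invariant set consists of periodic points -/
theorem per_of_finite {T : X → X} (hT : Function.Injective T) {S : Set X} (hS : S.Finite)
    (hinv : ∀ x ∈ S, T x ∈ S) {x : X} (hx : x ∈ S) : ∃ k : ℕ, 1 ≤ k ∧ T^[k] x = x := by
  have hit : ∀ k : ℕ, T^[k] x ∈ S := by
    intro k
    induction k with
    | zero => exact hx
    | succ k ih => rw [Function.iterate_succ_apply']; exact hinv _ ih
  have := hS.to_subtype
  obtain ⟨a, b, hab, heq⟩ := Finite.exists_ne_map_eq_of_infinite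
    (fun k : ℕ => (⟨T^[k] x, hit k⟩ : S))
  have heq' : T^[a] x = T^[b] x := congrArg Subtype.val heq
  rcases lt_or_gt_of_ne hab with h | h
  · obtain ⟨k, rfl⟩ := Nat.exists_eq_add_of_lt h
    refine ⟨k + 1, by omega, (hT.iterate a) ?_⟩
    rw [← Function.iterate_add_apply, heq']
    rfl
  · obtain ⟨k, rfl⟩ := Nat.exists_eq_add_of_lt h
    refine ⟨k + 1, by omega, (hT.iterate b) ?_⟩
    rw [← Function.iterate_add_apply, ← heq']
    rfl

end chn

end Pool.Agent.Q192.FT
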