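import Pool.Agent.Q192.FT.Psi
import Pool.Agent.W923.SC.NBHD

/-!
# Sequences of diffeomorphisms converging in the `C^r` topology

Author: helper192. The compactness argument follows `Pool.Agent.W923.SC.single` and `W683.SC.loc`.
-/

set_option autoImplicit false
set_option linter.unusedSectionVars false

open scoped Manifold ContDiff Topology NNReal
open Filter Set Metric

universe u

namespace Pool.Agent.Q192.FT

open Pool.Agent.H718R2.G Pool.Agent.H728R2.OS Pool.Agent.W564.SC Pool.Agent.W683.SC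

variable {n : ℕ} {N : Type u} [TopologicalSpace N] [T2Space N] [CompactSpace N]
  [ChartedSpace (V n) N] [IsManifold (𝓡 n) ∞ N]

theorem cda {r : ℕ∞} (f : DiffM n N r) {φ ψ : OpenPartialHomeomorph N (V n)}
    (hφ : φ ∈ IsManifold.maximalAtlas (𝓡 n) ∞ N) (hψ : ψ ∈ IsManifold.maximalAtlas (𝓡 n) ∞ N)
    {x₀ : N} (hx : x₀ ∈ φ.source) (hw : f x₀ ∈ ψ.source) :
    ContDiffAt ℝ r (ψ ∘ f ∘ φ.symm) (φ x₀) := by
  have hsymm : ContMDiffAt (𝓡 n) (𝓡 n) r φ.symm (φ x₀) :=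
    (contMDiffAt_symm_of_mem_maximalAtlas hφ (φ.map_source hx)).of_le (by exact_mod_cast le_top)
  have hf : ContMDiffAt (𝓡 n) (𝓡 n) r f (φ.symm (φ x₀)) := f.contMDiff_toFun _
  have hψ' : ContMDiffAt (𝓡 n) (𝓡 n) r ψ (f (φ.symm (φ x₀))) := by
    rw [φ.left_inv hx]
    exact (contMDiffAt_of_mem_maximalAtlas hψ hw).of_le (by exact_mod_cast le_top)
  rw [← contMDiffAt_iff_contDiffAt]
  exact hψ'.comp (φ x₀) (hf.comp (φ x₀) hsymm)

/-- jets of `G m` converge to the jets of `F` -/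
def JetTo {r : ℕ∞} (G : ℕ → DiffM n N r) (F : DiffM n N r) : Prop :=
  ∀ k : ℕ, (k : ℕ∞) ≤ r → ∀ φ ψ : OpenPartialHomeomorph N (V n),
    φ ∈ IsManifold.maximalAtlas (𝓡 n) ∞ N → ψ ∈ IsManifold.maximalAtlas (𝓡 n) ∞ N →
    ∀ s : ℕ → ℕ, Tendsto s atTop atTop → ∀ (x : ℕ → N) (x₀ : N), Tendsto x atTop (𝓝 x₀) →
    x₀ ∈ φ.source → F x₀ ∈ ψ.source → (∀ᶠ m in atTop, G (s m) (x m) ∈ ψ.source) ∧
    ∀ j ≤ k, Tendsto (fun m => iteratedFDeriv ℝ j (ψ ∘ G (s m) ∘ φ.symm) (φ (x m))) atTop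
      (𝓝 (iteratedFDeriv ℝ j (ψ ∘ F ∘ φ.symm) (φ x₀)))

theorem seq_single {r : ℕ∞} {G : ℕ → DiffM n N r} {F : DiffM n N r} (h : JetTo G F)
    (D : StrongData n N) (k : ℕ) (f : DiffM n N r) (hk : (k : ℕ∞) ≤ r)
    (hf : ∀ i, ∀ x ∈ D.K i, f x ∈ (D.ψ i).source) (h0 : F ∈ strongNbhd D k f) :
    ∀ᶠ m in atTop, G m ∈ strongNbhd D k f := by
  by_contra hcon
  rw [not_eventually] at hcon
  obtain ⟨s₀, hs₀, hno⟩ := extraction_of_frequently_atTop hcon
  have hno' : ∀ m, ∃ i, ∃ x, x ∈ D.K i ∧ ¬ (G (s₀ m) x ∈ (D.ψ i).source ∧ ∀ j : ℕ, j ≤ k →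
      ‖iteratedFDeriv ℝ j (D.ψ i ∘ G (s₀ m) ∘ (D.φ i).symm) (D.φ i x)
        - iteratedFDeriv ℝ j (D.ψ i ∘ f ∘ (D.φ i).symm) (D.φ i x)‖ < D.ε i) := by
    intro m
    by_contra hc
    push Not at hc
    apply hno m
    intro i x hx
    exact hc i x hx
  choose i x hx hbad using hno'
  -- the index can be taken constant
  have hfin : {i | ((D.φ i).source).Nonempty}.Finite := D.lf.finite_nonempty_of_compact
  have hne : ∀ m, ((D.φ (i m)).source).Nonempty := fun m => ⟨x m, D.sub _ (hx m)⟩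
  have := hfin.to_subtype
  obtain ⟨i₀, hi₀⟩ := Finite.exists_infinite_fiber
    (fun m => (⟨i m, hne m⟩ : {i | ((D.φ i).source).Nonempty}))
  have hinf : {m | i m = i₀.1}.Infinite := by
    rw [Set.infinite_coe_iff] at hi₀
    refine hi₀.mono ?_
    intro m hm
    exact congrArg Subtype.val hm
  obtain ⟨g₁, hg₁, hi₁⟩ := extraction_of_frequently_atTop (Nat.frequently_atTop_iff_infinite.mpr hinf)
  have : SecondCountableTopology N := ChartedSpace.secondCountable_of_sigmaCompact (V n) N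
  obtain ⟨x₀, g₂, hg₂, hx₀⟩ := CompactSpace.tendsto_subseq (x ∘ g₁)
  set g : ℕ → ℕ := g₁ ∘ g₂ with hg
  have hgm : StrictMono g := hg₁.comp hg₂
  have hgt : Tendsto g atTop atTop := hgm.tendsto_atTop
  have hig : ∀ m, i (g m) = i₀.1 := fun m => hi₁ _
  have hxg : Tendsto (fun m => x (g m)) atTop (𝓝 x₀) := hx₀
  have hxK : ∀ m, x (g m) ∈ D.K i₀.1 := fun m => by
    have := hx (g m)
    rwa [hig m] at this
  have hx₀K : x₀ ∈ D.K i₀.1 :=
    (D.compact i₀.1).isClosed.mem_of_tendsto hxg (Eventually.of_forall hxK)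
  have hx₀s : x₀ ∈ (D.φ i₀.1).source := D.sub _ hx₀K
  obtain ⟨hsrc, hder⟩ := h k hk (D.φ i₀.1) (D.ψ i₀.1) (D.φ_mem _) (D.ψ_mem _)
    (fun m => s₀ (g m)) (hs₀.tendsto_atTop.comp hgt) (fun m => x (g m)) x₀ hxg hx₀s
    (h0 i₀.1 x₀ hx₀K).1
  have hyt : Tendsto (fun m => D.φ i₀.1 (x (g m))) atTop (𝓝 (D.φ i₀.1 x₀)) :=
    ((D.φ i₀.1).continuousAt hx₀s).tendsto.comp hxg
  have hJ := jet_const hyt ((cda f (D.φ_mem _) (D.ψ_mem _) hx₀s (hf i₀.1 x₀ hx₀K)).of_le
    (by exact_mod_cast hk : (k : WithTop ℕ∞) ≤ r))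
  have hev : ∀ j : ℕ, j ≤ k → ∀ᶠ m in atTop,
      ‖iteratedFDeriv ℝ j (D.ψ i₀.1 ∘ G (s₀ (g m)) ∘ (D.φ i₀.1).symm)
          (D.φ i₀.1 (x (g m)))
        - iteratedFDeriv ℝ j (D.ψ i₀.1 ∘ f ∘ (D.φ i₀.1).symm) (D.φ i₀.1 (x (g m)))‖ < D.ε i₀.1 := by
    intro j hj
    have h1 := ((hder j hj).sub (hJ.conv j hj)).norm
    exact h1.eventually (gt_mem_nhds ((h0 i₀.1 x₀ hx₀K).2 j hj))
  have hall : ∀ᶠ m in atTop, ∀ j ∈ Finset.range (k + 1),
      ‖iteratedFDeriv ℝ j (D.ψ i₀.1 ∘ G (s₀ (g m)) ∘ (D.φ i₀.1).symm)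
          (D.φ i₀.1 (x (g m)))
        - iteratedFDeriv ℝ j (D.ψ i₀.1 ∘ f ∘ (D.φ i₀.1).symm) (D.φ i₀.1 (x (g m)))‖ < D.ε i₀.1 := by
    rw [Finset.eventually_all]
    intro j hj
    exact hev j (Nat.lt_succ_iff.mp (Finset.mem_range.mp hj))
  obtain ⟨m, hm1, hm2⟩ := (hsrc.and hall).exists
  have hb := hbad (g m)
  rw [hig m] at hb
  exact hb ⟨hm1, fun j hj => hm2 j (Finset.mem_range.mpr (Nat.lt_succ_iff.mpr hj))⟩

theorem seq_mem {r : ℕ∞} {G : ℕ → DiffM n N r} {F : DiffM n N r} (h : JetTo G F)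
    (U : Set (DiffM n N r)) (hU : IsOpen[strongTop n N r] U) (h0 : F ∈ U) :
    ∀ᶠ m in atTop, G m ∈ U := by
  letI : TopologicalSpace (DiffM n N r) := strongTop n N r
  have hbas := TopologicalSpace.isTopologicalBasis_of_subbasis (t := strongTop n N r) rfl
  obtain ⟨B, ⟨S, ⟨hS1, hS2⟩, rfl⟩, hB1, hB2⟩ := hbas.exists_subset_of_mem_open h0 hU
  have key : ∀ᶠ m in atTop, ∀ T ∈ S, G m ∈ T := by
    rw [eventually_all_finite hS1]
    intro T hT
    obtain ⟨D, k, f, hk, hf, rfl⟩ := hS2 hT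
    exact seq_single h D k f hk hf (hB1 _ hT)
  filter_upwards [key] with m hm
  exact hB2 (fun T hT => hm T hT)

section tube

variable {d : ℕ} {hd : d ≤ n} {E : V n → N} (hE : Tube n d E) {r : ℕ∞}
  {u : ℕ → (Fin d → ℝ) → (Fin d → ℝ)} {X : ℕ → (V n ≃ₜ V n)}
  (hus : ∀ m, ContDiff ℝ r (u m)) (hX : ∀ m, IsX hd r (u m) (X m))
  (hup : ∀ m x w, IsI w → u m (x + w) = u m x)
  (hu0 : ∀ j : ℕ, (j : ℕ∞) ≤ r → ∀ ε : ℝ, 0 < ε → ∀ᶠ m in atTop,
    ∀ x, ‖iteratedFDeriv ℝ j (u m) x‖ ≤ ε)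

include hu0 in
theorem u_tendsto {j : ℕ} (hj : (j : ℕ∞) ≤ r) {s : ℕ → ℕ} (hs : Tendsto s atTop atTop)
    (x : ℕ → Fin d → ℝ) : Tendsto (fun m => ‖iteratedFDeriv ℝ j (u (s m)) (x m)‖) atTop (𝓝 0) := by
  rw [Metric.tendsto_atTop]
  intro ε hε
  obtain ⟨M, hM⟩ := eventually_atTop.1 (hs.eventually (hu0 j hj (ε / 2) (by positivity)))
  refine ⟨M, fun m hm => ?_⟩
  rw [dist_zero_right, norm_norm]
  exact (hM m hm (x m)).trans_lt (by linarith)

include hX hu0 hus in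
/-- the jets of `X m` converge to the jets of the identity -/
theorem X_jet {k : ℕ} (hk : (k : ℕ∞) ≤ r) {s : ℕ → ℕ} (hs : Tendsto s atTop atTop)
    {y : ℕ → V n} {y₀ : V n} (hy : Tendsto y atTop (𝓝 y₀)) :
    JetConv k (fun m => (X (s m) : V n → V n)) y id y₀ := by
  have hkr : (k : WithTop ℕ∞) ≤ r := by exact_mod_cast hk
  set T : V n × (Fin d → ℝ) → V n := fun p => p.1 + bmp n (qq n d p.1) • em n d p.2 with hT
  have hTs : ContDiff ℝ k T := by
    have h1 : ContDiff ℝ k fun p : V n × (Fin d → ℝ) => bmp n (qq n d p.1) :=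
      ((bmp n).contDiff (n := k)).comp ((qq n d).contDiff.comp contDiff_fst)
    exact contDiff_fst.add (h1.smul ((em n d).contDiff.comp contDiff_snd))
  have J1 : JetConv k (fun m => (fun v : V n => (v, (0 : Fin d → ℝ))) +
      fun v : V n => ((0 : V n), u (s m) (pr n hd v))) y (fun v : V n => (v, (0 : Fin d → ℝ))) y₀ := by
    refine jet_add (jet_const hy (contDiff_id.prodMk contDiff_const).contDiffAt) (fun m => ?_)
      fun j hj => ?_
    · exact contDiff_const.prodMk (((hus (s m)).of_le hkr).comp (pr n hd).contDiff)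
    · have hjr : (j : ℕ∞) ≤ r := le_trans (by exact_mod_cast hj) hk
      have hjr' : (j : WithTop ℕ∞) ≤ r := by exact_mod_cast hjr
      rw [tendsto_zero_iff_norm_tendsto_zero]
      have hb : ∀ m, ‖iteratedFDeriv ℝ j (fun v : V n => ((0 : V n), u (s m) (pr n hd v))) (y m)‖ ≤
          ‖ContinuousLinearMap.inr ℝ (V n) (Fin d → ℝ)‖ *
            (‖iteratedFDeriv ℝ j (u (s m)) (pr n hd (y m))‖ * ‖pr n hd‖ ^ j) := by
        intro m
        have h1 : ContDiff ℝ j ((u (s m)) ∘ (pr n hd)) :=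
          ((hus (s m)).of_le hjr').comp (pr n hd).contDiff
        have h2 := ContinuousLinearMap.norm_iteratedFDeriv_comp_left
          (ContinuousLinearMap.inr ℝ (V n) (Fin d → ℝ)) (h1.contDiffAt (x := y m)) le_rfl
        refine h2.trans (mul_le_mul_of_nonneg_left ?_ (norm_nonneg _))
        rw [ContinuousLinearMap.iteratedFDeriv_comp_right (pr n hd) ((hus (s m)).of_le hjr') (y m)
          le_rfl]
        refine (ContinuousMultilinearMap.norm_compContinuousLinearMap_le _ _).trans ?_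
        rw [Finset.prod_const, Finset.card_fin]
      refine squeeze_zero (fun m => norm_nonneg _) hb ?_
      have h3 := ((u_tendsto hu0 hjr hs (fun m => pr n hd (y m))).mul_const
        (‖pr n hd‖ ^ j)).const_mul ‖ContinuousLinearMap.inr ℝ (V n) (Fin d → ℝ)‖
      rw [zero_mul, mul_zero] at h3
      exact h3
  have t1 : Tendsto (fun m => ((fun v : V n => (v, (0 : Fin d → ℝ))) +
      fun v : V n => ((0 : V n), u (s m) (pr n hd v))) (y m)) atTop (𝓝 (y₀, (0 : Fin d → ℝ))) := by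
    have h1 : Tendsto (fun m => u (s m) (pr n hd (y m))) atTop (𝓝 0) := by
      rw [tendsto_zero_iff_norm_tendsto_zero]
      have h2 := u_tendsto (j := 0) hu0 (by simp) hs (fun m => pr n hd (y m))
      simp only [norm_iteratedFDeriv_zero] at h2
      exact h2
    have h3 := hy.prodMk_nhds h1
    refine h3.congr fun m => ?_
    rw [Pi.add_apply, Prod.mk_add_mk, add_zero, zero_add]
  have J := Pool.Agent.W917.SC.comp _ _ _ k _ _ _ _ _ _ J1 (jet_const t1 hTs.contDiffAt)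
  have e1 : (fun m => T ∘ ((fun v : V n => (v, (0 : Fin d → ℝ))) +
      fun v : V n => ((0 : V n), u (s m) (pr n hd v)))) = fun m => (X (s m) : V n → V n) := by
    funext m v
    show T ((v, (0 : Fin d → ℝ)) + ((0 : V n), u (s m) (pr n hd v))) = X (s m) v
    rw [Prod.mk_add_mk, add_zero, zero_add, (hX (s m)).eq]
    rfl
  have e2 : T ∘ (fun v : V n => (v, (0 : Fin d → ℝ))) = id := by
    funext v
    show v + bmp n (qq n d v) • em n d 0 = v
    rw [map_zero, smul_zero, add_zero]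
  have e3 : (fun m => (fun _ : ℕ => T) m ∘ ((fun v : V n => (v, (0 : Fin d → ℝ))) +
      fun v : V n => ((0 : V n), u (s m) (pr n hd v)))) = fun m => (X (s m) : V n → V n) := e1
  rw [e2, e3] at J
  exact J

include hX hu0 in
theorem X_tendsto {s : ℕ → ℕ} (hs : Tendsto s atTop atTop) (y : ℕ → V n) :
    Tendsto (fun m => X (s m) (y m) - y m) atTop (𝓝 0) := by
  rw [tendsto_zero_iff_norm_tendsto_zero]
  have h2 := u_tendsto (j := 0) hu0 (by simp) hs (fun m => pr n hd (y m))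
  simp only [norm_iteratedFDeriv_zero] at h2
  have h3 := h2.const_mul ‖em n d‖
  rw [mul_zero] at h3
  refine squeeze_zero (fun m => norm_nonneg _) (fun m => ?_) h3
  rw [(hX (s m)).eq, add_sub_cancel_left]
  unfold Yu
  rw [norm_smul, Real.norm_eq_abs, abs_of_nonneg (bmp n).nonneg]
  calc bmp n (qq n d (y m)) * ‖em n d (u (s m) (pr n hd (y m)))‖
      ≤ 1 * ‖em n d (u (s m) (pr n hd (y m)))‖ :=
        mul_le_mul_of_nonneg_right (bmp n).le_one (norm_nonneg _)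
    _ ≤ ‖em n d‖ * ‖u (s m) (pr n hd (y m))‖ := by
        rw [one_mul]
        exact (em n d).le_opNorm _

include hE hus hX hup hu0 in
theorem psi_jet (F : DiffM n N r) (Ψ : ℕ → DiffM n N r) (hΨ : ∀ m y, Ψ m y = psi E (X m) y) :
    JetTo (fun m => (Ψ m).trans F) F := by
  intro k hk φ ψ hφ hψ s hs x x₀ hx hx₀ hw
  have hXa : ∀ m v (k : Fin d → ℝ), IsI k → X m (v + em n d k) = X m v + em n d k :=
    fun m v k hk => (hX m).add (hup m) v hk
  have hXo : ∀ m v, 1 ≤ ‖qq n d v‖ → X m v = v := fun m v hv => (hX m).out hv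
  have hkr : (k : WithTop ℕ∞) ≤ r := by exact_mod_cast hk
  have hxφ : ∀ᶠ m in atTop, x m ∈ φ.source := hx.eventually (φ.open_source.mem_nhds hx₀)
  have hyt : Tendsto (fun m => φ (x m)) atTop (𝓝 (φ x₀)) := (φ.continuousAt hx₀).tendsto.comp hx
  by_cases hK : x₀ ∈ slab n d E
  · obtain ⟨v₀, -, hv₀⟩ := hK
    obtain ⟨χ, hχ, hvt, hχE⟩ := hE.chart v₀
    have hsrc : x₀ ∈ χ.source := by
      rw [← hv₀, ← hχE v₀ hvt]
      exact χ.map_target hvt
    have hχx : χ x₀ = v₀ := by rw [← hv₀, ← hχE v₀ hvt, χ.right_inv hvt]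
    have hxχ : ∀ᶠ m in atTop, x m ∈ χ.source := hx.eventually (χ.open_source.mem_nhds hsrc)
    have hχt : Tendsto (fun m => χ (x m)) atTop (𝓝 v₀) := by
      rw [← hχx]
      exact (χ.continuousAt hsrc).tendsto.comp hx
    -- the first map
    have J1 : JetConv k (fun _ => χ ∘ φ.symm) (fun m => φ (x m)) (χ ∘ φ.symm) (φ x₀) := by
      refine jet_const hyt ?_
      have h1 := cda (Diffeomorph.refl (𝓡 n) N r) hφ hχ hx₀ hsrc
      exact h1.of_le hkr
    have ept : ∀ᶠ m in atTop, (χ ∘ φ.symm) (φ (x m)) = χ (x m) := by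
      filter_upwards [hxφ] with m hm
      simp only [Function.comp, φ.left_inv hm]
    have e0 : (χ ∘ φ.symm) (φ x₀) = v₀ := by
      simp only [Function.comp, φ.left_inv hx₀, hχx]
    have t1 : Tendsto (fun m => (χ ∘ φ.symm) (φ (x m))) atTop (𝓝 ((χ ∘ φ.symm) (φ x₀))) := by
      rw [e0]
      refine hχt.congr' ?_
      filter_upwards [ept] with m hm
      exact hm.symm
    have J2 := X_jet hus hX hu0 hk hs t1
    have J12 := Pool.Agent.W917.SC.comp _ _ _ k _ _ _ _ _ _ J1 J2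
    have t2 : Tendsto (fun m => ((X (s m) : V n → V n) ∘ (χ ∘ φ.symm)) (φ (x m))) atTop
        (𝓝 ((id ∘ (χ ∘ φ.symm)) (φ x₀))) := by
      have h1 := (X_tendsto hX hu0 hs (fun m => (χ ∘ φ.symm) (φ (x m)))).add t1
      rw [zero_add] at h1
      refine h1.congr fun m => ?_
      rw [sub_add_cancel]
      rfl
    have e0' : (id ∘ (χ ∘ φ.symm)) (φ x₀) = v₀ := e0
    have hG3 : ContDiffAt ℝ k (ψ ∘ F ∘ E) ((id ∘ (χ ∘ φ.symm)) (φ x₀)) := by
      rw [e0', ← contMDiffAt_iff_contDiffAt]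
      have h1 : ContMDiffAt (𝓡 n) (𝓡 n) r E v₀ := (hE.smooth v₀).of_le (by exact_mod_cast le_top)
      have h2 : ContMDiffAt (𝓡 n) (𝓡 n) r F (E v₀) := F.contMDiff_toFun _
      have h3 : ContMDiffAt (𝓡 n) (𝓡 n) r ψ (F (E v₀)) := by
        rw [hv₀]
        exact (contMDiffAt_of_mem_maximalAtlas hψ hw).of_le (by exact_mod_cast le_top)
      exact (h3.comp v₀ (h2.comp v₀ h1)).of_le hkr
    have J := Pool.Agent.W917.SC.comp _ _ _ k _ _ _ _ _ _ J12 (jet_const t2 hG3)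
    have key : ∀ m, ∀ y ∈ χ.source, Ψ m y = E (X m (χ y)) := by
      intro m y hy
      rw [hΨ]
      have e : y = E (χ y) := by rw [← hχE _ (χ.map_source hy), χ.left_inv hy]
      conv_lhs => rw [e]
      rw [hE.psi_E (hXa m)]
    constructor
    · rw [e0'] at t2
      have c1 : ContinuousAt (fun v => F (E v)) v₀ :=
        (F.continuous.comp hE.smooth.continuous).continuousAt
      have t3 := c1.tendsto.comp t2
      have t4 : (fun v => F (E v)) v₀ ∈ ψ.source := by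
        show F (E v₀) ∈ ψ.source
        rw [hv₀]
        exact hw
      have h4 := t3.eventually (ψ.open_source.mem_nhds t4)
      filter_upwards [h4, hxχ, ept] with m h5 h6 h7
      show F (Ψ (s m) (x m)) ∈ ψ.source
      rw [key _ _ h6, ← h7]
      exact h5
    · intro j hj
      have hc := J.conv j hj
      have e3 : iteratedFDeriv ℝ j ((ψ ∘ F ∘ E) ∘ (id ∘ (χ ∘ φ.symm))) (φ x₀) =
          iteratedFDeriv ℝ j (ψ ∘ F ∘ φ.symm) (φ x₀) := by
        refine (Filter.EventuallyEq.iteratedFDeriv ℝ ?_ j).eq_of_nhds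
        have c2 : ∀ᶠ y in 𝓝 (φ x₀), φ.symm y ∈ χ.source := by
          refine (φ.continuousAt_symm (φ.map_source hx₀)).eventually
            (χ.open_source.mem_nhds ?_)
          rw [φ.left_inv hx₀]
          exact hsrc
        filter_upwards [c2] with y hy
        simp only [Function.comp, id]
        rw [← hχE _ (χ.map_source hy), χ.left_inv hy]
      rw [e3] at hc
      refine hc.congr' ?_
      filter_upwards [hxχ, hxφ] with m hm hm'
      refine (Filter.EventuallyEq.iteratedFDeriv ℝ ?_ j).eq_of_nhds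
      have c2 : ∀ᶠ y in 𝓝 (φ (x m)), φ.symm y ∈ χ.source := by
        refine (φ.continuousAt_symm (φ.map_source hm')).eventually
          (χ.open_source.mem_nhds ?_)
        rw [φ.left_inv hm']
        exact hm
      filter_upwards [c2] with y hy
      show ψ (F (E (X (s m) (χ (φ.symm y))))) = ψ (F (Ψ (s m) (φ.symm y)))
      rw [key _ _ hy]
  · -- outside
    have hO : (slab n d E)ᶜ ∈ 𝓝 x₀ := (hE.slab_compact hd).isClosed.isOpen_compl.mem_nhds hK
    have hid : ∀ m, ∀ y ∉ slab n d E, Ψ m y = y := fun m y hy => by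
      rw [hΨ]
      exact hE.psi_out (hXa m) (hXo m) hy
    have hxO : ∀ᶠ m in atTop, x m ∈ (slab n d E)ᶜ := hx.eventually hO
    have hFψ : ∀ᶠ m in atTop, F (x m) ∈ ψ.source :=
      ((F.continuous.tendsto x₀).comp hx).eventually (ψ.open_source.mem_nhds hw)
    constructor
    · filter_upwards [hxO, hFψ] with m h1 h2
      show F (Ψ (s m) (x m)) ∈ ψ.source
      rw [hid _ _ h1]
      exact h2
    · intro j hj
      have hc := (jet_const hyt ((cda F hφ hψ hx₀ hw).of_le hkr)).conv j hj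
      refine hc.congr' ?_
      filter_upwards [hxO, hxφ] with m hm hm'
      refine (Filter.EventuallyEq.iteratedFDeriv ℝ ?_ j).eq_of_nhds
      have c2 : ∀ᶠ y in 𝓝 (φ (x m)), φ.symm y ∈ (slab n d E)ᶜ := by
        refine (φ.continuousAt_symm (φ.map_source hm')).eventually
          ((hE.slab_compact hd).isClosed.isOpen_compl.mem_nhds ?_)
        rw [φ.left_inv hm']
        exact hm
      filter_upwards [c2] with y hy
      show ψ (F (φ.symm y)) = ψ (F (Ψ (s m) (φ.symm y)))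
      rw [hid _ _ hy]

end tube

end Pool.Agent.Q192.FT
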