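import Pool.Agent.Y318.MN.Dyn
import Pool.Agent.H728R2.FA.Defs
import Pool.Agent.H637R2.TD.Defs
import Pool.Agent.Y318.LF.Defs

/-!
# Critical tori: definitions

`V n = ℝⁿ`, `DiffM n N r = Diff^r(N)` with the strong topology `strongTop` (`Pool/Agent/H718R2/G0.lean`),
`IsCrit n h y`: `y` is a critical point of `h` (`Pool/Agent/Y318/MN/Push.lean`), `Torus d`, `toTorus`,
`CkClose`, `IsDiffeo`, `ChainRec` (`Pool/Agent/H728R2/OS/Defs.lean`).

Author: helper192.
-/

set_option autoImplicit false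

open scoped Manifold ContDiff Topology

namespace Pool.Agent.Q192.FT

open Set Pool.Agent.H718R2.G Pool.Agent.H728R2.OS Pool.Agent.Y318.MN Pool.Agent.H637R2.TD
  Pool.Agent.Y318.LF

/-- The inclusion `ℝ^d → ℝ^n`, `x ↦ (x, 0)`. -/
def emb (n d : ℕ) (x : Fin d → ℝ) : V n :=
  WithLp.toLp 2 fun i : Fin n => if h : (i : ℕ) < d then x ⟨i, h⟩ else 0

/-- A cycle of `m` critical tori of dimension `d` of the function `h` on the manifold `N` of
dimension `n`, for the map `F`. The map `E : ℝ^n → N` induces an open embedding of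
`𝕋^d × ℝ^(n-d)` in `N` (`chart`, `inj`); in this tube `h` does not depend on the first `d`
coordinates (`indep`) and its critical points are exactly those of the core `𝕋^d × {0}` (`crit`).
The core consists of critical points with critical images under `F, …, F^(m-1)` (`orb`), it is
disjoint from these images (`dis`), and `F^m` maps it to itself by the homeomorphism `f` of `𝕋^d`
(`dyn`). -/
structure CritTorus (n : ℕ) {N : Type*} [TopologicalSpace N] [ChartedSpace (V n) N]
    (h : N → ℝ) (F : N → N) (d m : ℕ) (E : V n → N) (f : Torus d ≃ₜ Torus d) : Prop where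
  le : d ≤ n
  pos : 1 ≤ m
  chart : ∀ v, ∃ χ ∈ IsManifold.maximalAtlas (𝓡 n) ∞ N, v ∈ χ.target ∧
    ∀ w ∈ χ.target, χ.symm w = E w
  inj : ∀ v w, E v = E w ↔ (∀ i : Fin n, (i : ℕ) < d → ∃ a : ℤ, w i = v i + a) ∧
    ∀ i : Fin n, d ≤ (i : ℕ) → w i = v i
  indep : ∀ v w, (∀ i : Fin n, d ≤ (i : ℕ) → w i = v i) → h (E w) = h (E v)
  crit : ∀ v, IsCrit n h (E v) ↔ ∀ i : Fin n, d ≤ (i : ℕ) → v i = 0
  orb : ∀ i < m, ∀ x, IsCrit n h (F^[i] (E (emb n d x)))
  dis : ∀ i, 0 < i → i < m → ∀ x y, F^[i] (E (emb n d x)) ≠ E (emb n d y)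
  dyn : ∀ x y, toTorus y = f (toTorus x) → F^[m] (E (emb n d x)) = E (emb n d y)

/-- The union of the tori of the cycle. -/
def cyc (n : ℕ) {N : Type*} (F : N → N) (d m : ℕ) (E : V n → N) : Set N :=
  {y | ∃ i < m, ∃ x, y = F^[i] (E (emb n d x))}

/-- `f` is a limit of `C^r` diffeomorphisms `g` of `𝕋^d` with the property `P`. -/
def Approx {d : ℕ} (r : ℕ∞) (f : Torus d ≃ₜ Torus d) (P : (Torus d ≃ₜ Torus d) → Prop) : Prop :=
  IsDiffeo toTorus r f ∧ ∀ k : ℕ, (k : ℕ∞) ≤ r → ∀ ε : ℝ, 0 < ε →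
    ∃ g : Torus d ≃ₜ Torus d, IsDiffeo toTorus r g ∧ CkClose toTorus k ε f g ∧ P g

/-- `f` is a `C^r` diffeomorphism of `𝕋^d` which preserves the standard flag of foliations and its
orientations (for `d = 1`: an orientation preserving `C^r` diffeomorphism of the circle), or which
is isotopic to the identity and preserves a complete flag of linear foliations, or which is any
other limit of `C^r` diffeomorphisms with finite chain recurrent set. -/
def Tame {d : ℕ} (r : ℕ∞) (f : Torus d ≃ₜ Torus d) : Prop :=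
  IsFlagDiffeo r f ∨ (∃ W, PreservesFlag r f W) ∨ Approx r f fun g => (ChainRec g).Finite

/-- Finitely many pairwise disjoint closed `F`-invariant transitive sets of critical points of
`h`. -/
structure TransSets (n : ℕ) {N : Type*} [TopologicalSpace N] [ChartedSpace (V n) N]
    (h : N → ℝ) (F : N → N) {l : ℕ} (M : Fin l → Set N) : Prop where
  closed : ∀ i, IsClosed (M i)
  inv : ∀ i, F '' M i = M i
  dis : ∀ i j, i ≠ j → Disjoint (M i) (M j)
  crit : ∀ i, ∀ x ∈ M i, IsCrit n h x
  trans : ∀ i, ∃ x ∈ M i, M i ⊆ closure (range fun k : ℕ => F^[k] x)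

/-- Finitely many pairwise disjoint cycles of critical tori of `h`, on which the return maps `f j`
of `F` are tame. -/
structure CritTori (n : ℕ) {N : Type*} [TopologicalSpace N] [ChartedSpace (V n) N] (r : ℕ∞)
    (h : N → ℝ) (F : N → N) {p : ℕ} (d m : Fin p → ℕ) (E : Fin p → V n → N)
    (f : ∀ j, Torus (d j) ≃ₜ Torus (d j)) : Prop where
  tori : ∀ j, CritTorus n h F (d j) (m j) (E j) (f j)
  dis : ∀ i j, i ≠ j → Disjoint (cyc n F (d i) (m i) (E i)) (cyc n F (d j) (m j) (E j))
  tame : ∀ j, Tame r (f j)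

/-- The situation of the theorem, for the map `F : N → N`: the smooth function `h` does not decrease
under `F`; the sets `M i` are transitive sets of critical points and `d, m, E, f` describe tame
cycles of critical tori, disjoint from the `M i`. -/
structure Situation (n : ℕ) {N : Type*} [TopologicalSpace N] [ChartedSpace (V n) N] (r : ℕ∞)
    (h : N → ℝ) (F : N → N) {l : ℕ} (M : Fin l → Set N) {p : ℕ} (d m : Fin p → ℕ)
    (E : Fin p → V n → N) (f : ∀ j, Torus (d j) ≃ₜ Torus (d j)) : Prop where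
  smooth : ContMDiff (𝓡 n) 𝓘(ℝ, ℝ) ∞ h
  mono : ∀ x, h x ≤ h (F x)
  sets : TransSets n h F M
  tori : CritTori n r h F d m E f
  dis : ∀ i j, Disjoint (M i) (cyc n F (d j) (m j) (E j))

/-- The points all whose iterates `F^k(x)`, `k ∈ ℤ`, are critical points of `h` are in one of the
sets `M i` or in one of the tori. -/
def Covered (n : ℕ) {N : Type*} [TopologicalSpace N] [ChartedSpace (V n) N] {r : ℕ∞}
    (h : N → ℝ) (F : DiffM n N r) {l : ℕ} (M : Fin l → Set N) {p : ℕ} (d m : Fin p → ℕ)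
    (E : Fin p → V n → N) : Prop :=
  CritInv n F h ⊆ (⋃ i, M i) ∪ ⋃ j, cyc n F (d j) (m j) (E j)

/-- `h` does not decrease under `G`; every `ω`-limit set of `G` is in one of the sets `M i`, or in a
periodic orbit of `G` in one of the tori of `F`; for every measure on `N`, finitely many attractors
of `G` attract almost every point. -/
structure Finitude (n : ℕ) {N : Type*} [TopologicalSpace N] [ChartedSpace (V n) N]
    (h : N → ℝ) (F G : N → N) {l : ℕ} (M : Fin l → Set N) {p : ℕ} (d m : Fin p → ℕ)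
    (E : Fin p → V n → N) : Prop where
  mono : ∀ x, h x ≤ h (G x)
  limit : ∀ q, (∃ i, Pool.Agent.H728R2.FA.omegaLim G q ⊆ M i) ∨
    ∃ j, ∃ y ∈ cyc n F (d j) (m j) (E j), ∃ k : ℕ, 1 ≤ k ∧ G^[k] y = y ∧
      Pool.Agent.H728R2.FA.omegaLim G q ⊆ range fun k : ℕ => G^[k] y
  attractors : ∀ (_ : MeasurableSpace N) (μ : MeasureTheory.Measure N),
    Pool.Agent.H728R2.FA.FiniteAttractors μ G

end Pool.Agent.Q192.FT
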