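import Pool.Agent.Y318.MN.Axm
import Pool.Agent.Q192.FT.SDefs

/-!
# Growth in the normal directions

Author: helper192. `second_orderQ` and `noBdd_formQ` are variants of theorems of helper318
(`Pool/Agent/Y318/MN/Quad.lean`).
-/

set_option autoImplicit false
set_option linter.unusedSectionVars false

open scoped Manifold ContDiff Topology NNReal
open Filter Set Metric

universe u

namespace Pool.Agent.Q192.FT

open Pool.Agent.H718R2.G Pool.Agent.TH80.OMS Pool.Agent.Y504.CO Pool.Agent.Y318.MN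

section linear

variable {n : ℕ}

/-- The second derivative of a function which grows quadratically along a map. -/
theorem second_orderQ {H : V n → ℝ} {v₀ : V n} (hH : ContDiffAt ℝ 2 H v₀)
    (h0 : fderiv ℝ H v₀ = 0) {g : V n → V n} {A : V n →L[ℝ] V n} (hg : HasFDerivAt g A v₀)
    (hfix : g v₀ = v₀) {c : ℝ} (Q : V n →L[ℝ] V n)
    (hgrow : ∀ᶠ v in 𝓝 v₀, H v + c * ‖Q (v - v₀)‖ ^ 2 ≤ H (g v)) (w : V n) :
    fderiv ℝ (fderiv ℝ H) v₀ w w + 2 * c * ‖Q w‖ ^ 2 ≤ fderiv ℝ (fderiv ℝ H) v₀ (A w) (A w) := by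
  set T := fderiv ℝ (fderiv ℝ H) v₀ with hT
  -- the quotients
  set u : ℝ → V n := fun s => g (v₀ + s • w) - v₀ with hu
  have hline : HasDerivAt (fun s : ℝ => v₀ + s • w) w 0 := by
    simpa using ((hasDerivAt_id (0 : ℝ)).smul_const w).const_add v₀
  have hgl : HasDerivAt (fun s : ℝ => g (v₀ + s • w)) (A w) 0 := by
    have hg' : HasFDerivAt g A (v₀ + (0 : ℝ) • w) := by simpa using hg
    exact hg'.comp_hasDerivAt (0 : ℝ) hline
  have hquot : Tendsto (fun s : ℝ => s⁻¹ • u s) (𝓝[≠] 0) (𝓝 (A w)) := by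
    have := hasDerivAt_iff_tendsto_slope_zero.1 hgl
    refine this.congr fun s => ?_
    simp only [zero_add, zero_smul, add_zero, hfix, hu]
  have hcl : Tendsto (fun s : ℝ => v₀ + s • w) (𝓝[≠] 0) (𝓝 v₀) := by
    have h1 : Continuous fun s : ℝ => v₀ + s • w := by fun_prop
    have h2 := h1.tendsto 0
    simp only [zero_smul, add_zero] at h2
    exact h2.mono_left nhdsWithin_le_nhds
  have hsl : Tendsto (fun s : ℝ => s • w) (𝓝[≠] 0) (𝓝 0) := by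
    have h1 : Continuous fun s : ℝ => s • w := by fun_prop
    have h2 := h1.tendsto 0
    simp only [zero_smul] at h2
    exact h2.mono_left nhdsWithin_le_nhds
  have hul : Tendsto u (𝓝[≠] 0) (𝓝 0) := by
    have h2 := (hgl.continuousAt.tendsto).mono_left (nhdsWithin_le_nhds (s := {0}ᶜ))
    simp only [zero_smul, add_zero, hfix] at h2
    have h3 := h2.sub_const v₀
    rw [sub_self] at h3
    exact h3
  refine le_of_forall_pos_le_add fun η hη => ?_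
  -- the bound with errors
  obtain ⟨ε, hε, hεη⟩ : ∃ ε : ℝ, 0 < ε ∧ 2 * ε * ‖w‖ ^ 2 + 2 * ε * (‖A w‖ ^ 2 + 1) ≤ η / 2 := by
    refine ⟨η / (4 * (‖w‖ ^ 2 + (‖A w‖ ^ 2 + 1))), by positivity, ?_⟩
    have hpos : 0 < ‖w‖ ^ 2 + (‖A w‖ ^ 2 + 1) := by positivity
    have : 2 * (η / (4 * (‖w‖ ^ 2 + (‖A w‖ ^ 2 + 1)))) * ‖w‖ ^ 2 +
        2 * (η / (4 * (‖w‖ ^ 2 + (‖A w‖ ^ 2 + 1)))) * (‖A w‖ ^ 2 + 1) = η / 2 := by
      field_simp
      ring
    exact this.le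
  have htay := taylor2 hH h0 ε hε
  have e1 := hsl.eventually htay
  have e2 := hul.eventually htay
  have e3 := hcl.eventually hgrow
  have e4 : ∀ᶠ s in 𝓝[≠] (0 : ℝ), ‖s⁻¹ • u s‖ ^ 2 < ‖A w‖ ^ 2 + 1 := by
    have := (hquot.norm.pow 2)
    exact this.eventually (gt_mem_nhds (by linarith))
  have e5 : ∀ᶠ s in 𝓝[≠] (0 : ℝ), T (s⁻¹ • u s) (s⁻¹ • u s) < T (A w) (A w) + η / 2 := by
    have hTc : Continuous fun x : V n => T x x := by fun_prop
    have := (hTc.tendsto (A w)).comp hquot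
    exact this.eventually (gt_mem_nhds (by linarith))
  have e6 : ∀ᶠ s in 𝓝[≠] (0 : ℝ), s ≠ 0 := eventually_mem_nhdsWithin
  obtain ⟨s, h1, h2, h3, h4, h5, h6⟩ :=
    (e1.and (e2.and (e3.and (e4.and (e5.and e6))))).exists
  have hs2 : 0 < s ^ 2 := by positivity
  have k1 : T (s • w) (s • w) = s ^ 2 * T w w := by
    simp only [map_smul, ContinuousLinearMap.smul_apply, smul_eq_mul]
    ring
  have k2 : T (u s) (u s) = s ^ 2 * T (s⁻¹ • u s) (s⁻¹ • u s) := by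
    simp only [map_smul, ContinuousLinearMap.smul_apply, smul_eq_mul]
    field_simp
  have k3 : ‖u s‖ ^ 2 = s ^ 2 * ‖s⁻¹ • u s‖ ^ 2 := by
    rw [norm_smul, mul_pow, norm_inv, Real.norm_eq_abs, inv_pow, sq_abs]
    field_simp
  have k4 : ‖s • w‖ ^ 2 = s ^ 2 * ‖w‖ ^ 2 := by
    rw [norm_smul, mul_pow, Real.norm_eq_abs, sq_abs]
  have k5 : v₀ + u s = g (v₀ + s • w) := by
    show v₀ + (g (v₀ + s • w) - v₀) = _
    abel
  have k6 : v₀ + s • w - v₀ = s • w := by abel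
  rw [k1, k4] at h1
  rw [k2, k3, k5] at h2
  have k8 : ‖Q (s • w)‖ ^ 2 = s ^ 2 * ‖Q w‖ ^ 2 := by
    rw [map_smul, norm_smul, mul_pow, Real.norm_eq_abs, sq_abs]
  rw [k6, k8] at h3
  have h1' := (abs_le.1 h1).1
  have h2' := (abs_le.1 h2).2
  have key : s ^ 2 * (1 / 2 * T w w + c * ‖Q w‖ ^ 2) ≤
      s ^ 2 * (1 / 2 * T (s⁻¹ • u s) (s⁻¹ • u s) + ε * ‖w‖ ^ 2 + ε * ‖s⁻¹ • u s‖ ^ 2) := by
    linarith
  have key2 := le_of_mul_le_mul_left key hs2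
  have k7 : ε * ‖s⁻¹ • u s‖ ^ 2 ≤ ε * (‖A w‖ ^ 2 + 1) := mul_le_mul_of_nonneg_left h4.le hε.le
  linarith

/-- A form which grows along `A` excludes bounded orbits. -/
theorem noBdd_formQ {A Q : V n →L[ℝ] V n} {T : V n →L[ℝ] V n →L[ℝ] ℝ} {c D : ℝ} (hc : 0 < c)
    (hD : 0 ≤ D) (hTQ : ∀ w, |T w w| ≤ D * ‖Q w‖ ^ 2)
    (h : ∀ w, T w w + c * ‖Q w‖ ^ 2 ≤ T (A w) (A w)) {v : ℤ → V n} (hbd : ∃ C : ℝ, ∀ i, ‖v i‖ ≤ C)
    (hv : ∀ i, v (i + 1) = A (v i)) : ∀ i, Q (v i) = 0 := by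
  obtain ⟨C', hC'⟩ := hbd
  set C := ‖Q‖ * C' with hCdef
  have hC : ∀ i, ‖Q (v i)‖ ≤ C := fun i =>
    (Q.le_opNorm _).trans (mul_le_mul_of_nonneg_left (hC' i) Q.opNorm_nonneg)
  set q : ℤ → ℝ := fun i => T (v i) (v i) with hq
  have hstep : ∀ i, q i + c * ‖Q (v i)‖ ^ 2 ≤ q (i + 1) := by
    intro i
    have := h (v i)
    show T (v i) (v i) + c * ‖Q (v i)‖ ^ 2 ≤ T (v (i + 1)) (v (i + 1))
    rw [hv i]
    exact this
  have hqb : ∀ i, |q i| ≤ D * ‖Q (v i)‖ ^ 2 := fun i => hTQ (v i)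
  have hT0 : 0 ≤ D := hD
  have hqB : ∀ i, |q i| ≤ D * C ^ 2 := by
    intro i
    refine (hqb i).trans (mul_le_mul_of_nonneg_left ?_ hT0)
    exact pow_le_pow_left₀ (norm_nonneg _) (hC i) 2
  -- sums
  have hsum : ∀ (i : ℤ) (K : ℕ),
      ∑ k ∈ Finset.range K, c * ‖Q (v (i + k))‖ ^ 2 ≤ q (i + K) - q i := by
    intro i K
    induction K with
    | zero => simp
    | succ K ih =>
      rw [Finset.sum_range_succ]
      have := hstep (i + K)
      have e : i + ((K + 1 : ℕ) : ℤ) = i + K + 1 := by push_cast; ring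
      rw [e]
      linarith
  have hmono : ∀ (i : ℤ) (K : ℕ), q i ≤ q (i + K) := by
    intro i K
    have h1 := hsum i K
    have h2 : 0 ≤ ∑ k ∈ Finset.range K, c * ‖Q (v (i + k))‖ ^ 2 :=
      Finset.sum_nonneg fun k _ => by positivity
    linarith
  -- the future
  have hfut : ∀ i : ℤ, q i ≤ 0 := by
    intro i
    have hs : Summable fun k : ℕ => c * ‖Q (v (i + k))‖ ^ 2 :=
      summable_of_sum_range_le (c := 2 * (D * C ^ 2)) (fun k => by positivity) fun K => by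
        have h1 := hsum i K
        have h2 := (abs_le.1 (hqB i)).1
        have h3 := (abs_le.1 (hqB (i + K))).2
        linarith
    have ht := hs.tendsto_atTop_zero
    have hq0 : Tendsto (fun k : ℕ => D / c * (c * ‖Q (v (i + k))‖ ^ 2)) atTop (𝓝 0) := by
      have := ht.const_mul (D / c)
      rwa [mul_zero] at this
    refine ge_of_tendsto hq0 (Eventually.of_forall fun k => ?_)
    have h1 := (hmono i k).trans ((le_abs_self _).trans (hqb (i + k)))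
    have e : D / c * (c * ‖Q (v (i + k))‖ ^ 2) = D * ‖Q (v (i + k))‖ ^ 2 := by field_simp
    rw [e]
    exact h1
  -- the past
  have hpast : ∀ i : ℤ, 0 ≤ q i := by
    intro i
    have hs : Summable fun k : ℕ => c * ‖Q (v (i - k))‖ ^ 2 :=
      summable_of_sum_range_le (c := 2 * (D * C ^ 2)) (fun k => by positivity) fun K => by
        have h1 := hsum (i + 1 - K) K
        have h2 := (abs_le.1 (hqB (i + 1 - K))).1
        have h3 := (abs_le.1 (hqB (i + 1 - K + K))).2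
        rw [← Finset.sum_range_reflect] at h1
        have e : ∑ k ∈ Finset.range K, c * ‖Q (v (i - k))‖ ^ 2 =
            ∑ k ∈ Finset.range K, c * ‖Q (v (i + 1 - K + ((K - 1 - k : ℕ) : ℤ)))‖ ^ 2 := by
          refine Finset.sum_congr rfl fun k hk => ?_
          have hk' := Finset.mem_range.1 hk
          have e1 : i + 1 - (K : ℤ) + ((K - 1 - k : ℕ) : ℤ) = i - k := by omega
          rw [e1]
        rw [e]
        linarith
    have ht := hs.tendsto_atTop_zero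
    have hq0 : Tendsto (fun k : ℕ => -(D / c * (c * ‖Q (v (i - k))‖ ^ 2))) atTop (𝓝 0) := by
      have := (ht.const_mul (D / c)).neg
      rwa [mul_zero, neg_zero] at this
    refine le_of_tendsto hq0 (Eventually.of_forall fun k => ?_)
    have h0 := hmono (i - k) k
    rw [sub_add_cancel] at h0
    have h1 := (abs_le.1 (hqb (i - k))).1
    have e : D / c * (c * ‖Q (v (i - k))‖ ^ 2) = D * ‖Q (v (i - k))‖ ^ 2 := by field_simp
    rw [e]
    linarith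
  intro i
  have h1 := hstep i
  have h2 := hfut (i + 1)
  have h3 := hpast i
  have h4 : c * ‖Q (v i)‖ ^ 2 ≤ 0 := by linarith
  have h5 : ‖Q (v i)‖ ^ 2 ≤ 0 := by
    by_contra hcon
    push Not at hcon
    have := mul_pos hc hcon
    linarith
  have h6 : ‖Q (v i)‖ ^ 2 = 0 := le_antisymm h5 (sq_nonneg _)
  exact norm_eq_zero.1 (pow_eq_zero_iff two_ne_zero |>.1 h6)


theorem norm_fderiv_le_gr (H : V n → ℝ) (v : V n) : ‖fderiv ℝ H v‖ ≤ ‖gr H v‖ := by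
  refine ContinuousLinearMap.opNorm_le_bound _ (norm_nonneg _) fun w => ?_
  have h1 : fderiv ℝ H v w = inner ℝ (gr H v) w := by
    rw [fderiv_coord, PiLp.inner_apply]
    refine Finset.sum_congr rfl fun i _ => ?_
    simp
  rw [h1]
  exact norm_inner_le_norm _ _

theorem deriv_grow {K : V n → ℝ} {v₀ : V n} (hK : ContDiffAt ℝ 2 K v₀) (h0 : fderiv ℝ K v₀ = 0)
    (Q : V n →L[ℝ] V n) (hQ : ∀ v, Q (Q v) = Q v)
    (hKQ : ∀ᶠ u in 𝓝 (0 : V n), fderiv ℝ K (v₀ + u) = fderiv ℝ K (v₀ + Q u))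
    (hnd : ∀ v, fderiv ℝ (fderiv ℝ K) v₀ v = 0 → Q v = 0) :
    ∃ c : ℝ, 0 < c ∧ ∀ᶠ u in 𝓝 (0 : V n), c * ‖Q u‖ ≤ ‖fderiv ℝ K (v₀ + u)‖ := by
  set L := fderiv ℝ (fderiv ℝ K) v₀ with hL
  have hd : HasFDerivAt (fderiv ℝ K) L v₀ :=
    ((hK.fderiv_right (m := 1) (by norm_num)).differentiableAt (by simp)).hasFDerivAt
  set M : V n →L[ℝ] (V n →L[ℝ] ℝ) × V n := L.prod (ContinuousLinearMap.id ℝ (V n) - Q) with hM
  have hker : LinearMap.ker (M : V n →ₗ[ℝ] (V n →L[ℝ] ℝ) × V n) = ⊥ := by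
    rw [LinearMap.ker_eq_bot']
    intro v hv
    have hv' : (L v, v - Q v) = 0 := hv
    have h1 : L v = 0 := congrArg Prod.fst hv'
    have h2 : v - Q v = 0 := congrArg Prod.snd hv'
    rw [hnd v h1, sub_zero] at h2
    exact h2
  obtain ⟨C, hC0, hC⟩ := LinearMap.exists_antilipschitzWith
    (M : V n →ₗ[ℝ] (V n →L[ℝ] ℝ) × V n) hker
  have hC1 : (0 : ℝ) < C := hC0
  have hC2 : ∀ u, ‖Q u‖ ≤ C * ‖L (Q u)‖ := by
    intro u
    have h1 := hC.le_mul_dist (Q u) 0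
    rw [dist_zero_right, map_zero, dist_zero_right] at h1
    have h2 : (M : V n →ₗ[ℝ] (V n →L[ℝ] ℝ) × V n) (Q u) = (L (Q u), 0) := by
      show (L (Q u), Q u - Q (Q u)) = _
      rw [hQ, sub_self]
    rw [h2, Prod.norm_mk, norm_zero, max_eq_left (norm_nonneg _)] at h1
    exact h1
  refine ⟨1 / (2 * C), by positivity, ?_⟩
  have h6 := (hasFDerivAt_iff_isLittleO_nhds_zero.1 hd).def (c := 1 / (2 * C)) (by positivity)
  have hQ0 : Tendsto Q (𝓝 0) (𝓝 0) := by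
    have := Q.continuous.tendsto 0
    rwa [map_zero] at this
  filter_upwards [hQ0.eventually h6, hKQ] with u h7 h8
  rw [h8]
  rw [h0, sub_zero] at h7
  have h9 : ‖L (Q u)‖ ≤ ‖fderiv ℝ K (v₀ + Q u)‖ + ‖fderiv ℝ K (v₀ + Q u) - L (Q u)‖ := by
    have : L (Q u) = fderiv ℝ K (v₀ + Q u) - (fderiv ℝ K (v₀ + Q u) - L (Q u)) := by abel
    calc ‖L (Q u)‖ = ‖fderiv ℝ K (v₀ + Q u) - (fderiv ℝ K (v₀ + Q u) - L (Q u))‖ := by rw [← this]
      _ ≤ _ := norm_sub_le _ _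
  have h10 : ‖Q u‖ / C ≤ ‖L (Q u)‖ := by
    rw [div_le_iff₀ hC1, mul_comm]
    exact hC2 u
  have h11 : 1 / (2 * (C : ℝ)) * ‖Q u‖ = ‖Q u‖ / C / 2 := by
    field_simp
  rw [h11] at h7 ⊢
  linarith

end linear

/-- `Φ` increases `h` near `p` at least by a multiple of the square of the derivative of `h`. -/
def GrowD (n : ℕ) {N : Type u} [TopologicalSpace N] [ChartedSpace (V n) N] (h : N → ℝ)
    (Φ : N → N) (p : N) : Prop :=
  ∃ χ ∈ IsManifold.maximalAtlas (𝓡 n) ∞ N, p ∈ χ.source ∧ ∃ c : ℝ, 0 < c ∧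
    ∀ᶠ y in 𝓝 p, h y + c * ‖fderiv ℝ (fun w => h (χ.symm w)) (χ y)‖ ^ 2 ≤ h (Φ y)

variable {n : ℕ} {N : Type u} [TopologicalSpace N] [T2Space N] [CompactSpace N]
  [ChartedSpace (V n) N] [IsManifold (𝓡 n) ∞ N]

theorem local_growD {h : N → ℝ} (hh : ContMDiff (𝓡 n) 𝓘(ℝ, ℝ) ∞ h) (z : N)
    (W : Set N) (hW : IsOpen W) (hzW : z ∈ W) {r : ℕ∞}
    (hr : 1 ≤ r) (F : DiffM n N r) (U : Set (DiffM n N r)) (hU : IsOpen[strongTop n N r] U)
    (hFU : F ∈ U) :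
    ∃ (Φ : N → N) (G : DiffM n N r), G ∈ U ∧ (∀ y, G y = F (Φ y)) ∧ IsPush n h ∅ Φ ∧
      (∃ K, IsClosed K ∧ K ⊆ W ∧ ∀ y, y ∉ K → Φ y = y) ∧ GrowD n h Φ z := by
  obtain ⟨O, χ, H, -, -, hχ, hzχ, hχ0, hH, he, L⟩ := local_push hh z W hW hzW
  obtain ⟨Φ, G, h1, h2, h3, h4, t, ht, h5⟩ := L r hr F U hU hFU
  refine ⟨Φ, G, h1, h2, h3.mono (empty_subset _), h4, χ, hχ, hzχ, t, ht, ?_⟩
  have hcont : Tendsto χ (𝓝 z) (𝓝 0) := by
    have := (χ.continuousAt hzχ).tendsto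
    rwa [hχ0] at this
  have e2 : ∀ᶠ y in 𝓝 z, ‖χ y‖ < 1 / 4 := by
    have := hcont.norm
    rw [norm_zero] at this
    exact this.eventually (gt_mem_nhds (by norm_num))
  have e1 : ∀ᶠ y in 𝓝 z, fderiv ℝ H (χ y) = fderiv ℝ (fun w => h (χ.symm w)) (χ y) :=
    hcont.eventually he.fderiv
  filter_upwards [e1, e2, χ.open_source.mem_nhds hzχ] with y k1 k2 k3
  have k4 := h5 y k3 k2
  rw [← k1]
  have k5 : ‖fderiv ℝ H (χ y)‖ ^ 2 ≤ ‖gr H (χ y)‖ ^ 2 :=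
    pow_le_pow_left₀ (norm_nonneg _) (norm_fderiv_le_gr H _) 2
  have k6 := mul_le_mul_of_nonneg_left k5 ht.le
  linarith

theorem exists_push_growD {h : N → ℝ} (hh : ContMDiff (𝓡 n) 𝓘(ℝ, ℝ) ∞ h) {r : ℕ∞}
    (hr : 1 ≤ r) (F : DiffM n N r) (U : Set (DiffM n N r)) (hU : IsOpen[strongTop n N r] U)
    (hFU : F ∈ U) (P : Finset N) :
    ∃ (Φ : N → N) (G : DiffM n N r), G ∈ U ∧ (∀ y, G y = F (Φ y)) ∧ IsPush n h univ Φ ∧
      ∀ p ∈ P, GrowD n h Φ p := by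
  classical
  refine Finset.induction_on P ?_ ?_
  · obtain ⟨Φ, G, h1, h2, h3⟩ := exists_push hh hr F U hU hFU
    exact ⟨Φ, G, h1, h2, h3, fun p hp => absurd hp (Finset.notMem_empty p)⟩
  · intro p S hpS ih
    obtain ⟨Φ, G, h1, h2, h3, h4⟩ := ih
    obtain ⟨Φ', G', h1', h2', h3', ⟨K, hK, hKW, hKΦ⟩, χ, hχ, hpχ, c, hc, hgrow⟩ :=
      local_growD hh p ((S : Set N)ᶜ) S.finite_toSet.isClosed.isOpen_compl
        (by simpa using hpS) hr G U hU h1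
    refine ⟨Φ ∘ Φ', G', h1', fun y => ?_, ?_, ?_⟩
    · rw [h2', h2]; rfl
    · have := h3.comp h3'
      rwa [univ_union] at this
    · intro q hq
      rcases Finset.mem_insert.1 hq with rfl | hq
      · refine ⟨χ, hχ, hpχ, c, hc, ?_⟩
        filter_upwards [hgrow] with y hy
        exact hy.trans (h3.le _)
      · obtain ⟨χ₁, hχ₁, hq₁, c₁, hc₁, hg₁⟩ := h4 q hq
        refine ⟨χ₁, hχ₁, hq₁, c₁, hc₁, ?_⟩
        have hqK : q ∈ Kᶜ := fun hcon => hKW hcon hq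
        filter_upwards [hg₁, hK.isOpen_compl.mem_nhds hqK] with y hy hyK
        show _ ≤ h (Φ (Φ' y))
        rw [hKΦ y hyK]
        exact hy

theorem GrowD.chart {h : N → ℝ} (hh : ContMDiff (𝓡 n) 𝓘(ℝ, ℝ) ∞ h) {Φ : N → N} {p : N}
    (H : GrowD n h Φ p) {ψ : OpenPartialHomeomorph N (V n)}
    (hψ : ψ ∈ IsManifold.maximalAtlas (𝓡 n) ∞ N) (hp : p ∈ ψ.source) :
    ∃ c : ℝ, 0 < c ∧
      ∀ᶠ y in 𝓝 p, h y + c * ‖fderiv ℝ (fun w => h (ψ.symm w)) (ψ y)‖ ^ 2 ≤ h (Φ y) := by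
  obtain ⟨χ, hχ, hpχ, c, hc, hgrow⟩ := H
  have hτ : ContDiffAt ℝ ∞ (fun w => χ (ψ.symm w)) (ψ p) := trans_cd hψ hχ hp hpχ
  set B : ℝ := ‖fderiv ℝ (fun w => χ (ψ.symm w)) (ψ p)‖ + 1 with hB
  have hBpos : 0 < B := by positivity
  have hcD : ContinuousAt (fderiv ℝ fun w => χ (ψ.symm w)) (ψ p) :=
    (hτ.fderiv_right (m := 0) (by simp)).continuousAt
  have e1 : ∀ᶠ v in 𝓝 (ψ p), ‖fderiv ℝ (fun w => χ (ψ.symm w)) v‖ < B :=
    hcD.norm.eventually (gt_mem_nhds (by rw [hB]; linarith))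
  refine ⟨c / B ^ 2, by positivity, ?_⟩
  filter_upwards [hgrow, χ.open_source.mem_nhds hpχ, ψ.open_source.mem_nhds hp,
    (ψ.continuousAt hp).eventually e1] with y h1 h2 h3 h4
  have hty : ContDiffAt ℝ ∞ (fun w => χ (ψ.symm w)) (ψ y) := trans_cd hψ hχ h3 h2
  have hτy : HasFDerivAt (fun w => χ (ψ.symm w)) (fderiv ℝ (fun w => χ (ψ.symm w)) (ψ y)) (ψ y) :=
    (hty.differentiableAt (by simp)).hasFDerivAt
  have hval : χ (ψ.symm (ψ y)) = χ y := by rw [ψ.left_inv h3]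
  have hbd : HasFDerivAt (fun w => h (χ.symm w)) (fderiv ℝ (fun w => h (χ.symm w)) (χ y))
      (χ (ψ.symm (ψ y))) := by
    rw [hval]
    exact ((chart_cd hh hχ (χ.map_source h2)).differentiableAt (by simp)).hasFDerivAt
  have hcomp := hbd.comp (ψ y) hτy
  have heq : (fun w => h (ψ.symm w)) =ᶠ[𝓝 (ψ y)]
      (fun w => h (χ.symm w)) ∘ fun w => χ (ψ.symm w) := by
    have h5 : ∀ᶠ w in 𝓝 (ψ y), ψ.symm w ∈ χ.source := by
      have h6 := (ψ.continuousAt_symm (ψ.map_source h3)).tendsto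
      rw [ψ.left_inv h3] at h6
      exact h6.eventually (χ.open_source.mem_nhds h2)
    filter_upwards [h5] with w hw
    show h (ψ.symm w) = h (χ.symm (χ (ψ.symm w)))
    rw [χ.left_inv hw]
  have h6 : fderiv ℝ (fun w => h (ψ.symm w)) (ψ y) =
      (fderiv ℝ (fun w => h (χ.symm w)) (χ y)).comp (fderiv ℝ (fun w => χ (ψ.symm w)) (ψ y)) := by
    rw [heq.fderiv_eq]
    exact hcomp.fderiv
  have h7 : ‖fderiv ℝ (fun w => h (ψ.symm w)) (ψ y)‖ ≤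
      ‖fderiv ℝ (fun w => h (χ.symm w)) (χ y)‖ * B := by
    rw [h6]
    exact (ContinuousLinearMap.opNorm_comp_le _ _).trans
      (mul_le_mul_of_nonneg_left h4.le (norm_nonneg _))
  have h8 : c / B ^ 2 * ‖fderiv ℝ (fun w => h (ψ.symm w)) (ψ y)‖ ^ 2 ≤
      c * ‖fderiv ℝ (fun w => h (χ.symm w)) (χ y)‖ ^ 2 := by
    calc c / B ^ 2 * ‖fderiv ℝ (fun w => h (ψ.symm w)) (ψ y)‖ ^ 2
        ≤ c / B ^ 2 * (‖fderiv ℝ (fun w => h (χ.symm w)) (χ y)‖ * B) ^ 2 := by gcongr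
      _ = c * ‖fderiv ℝ (fun w => h (χ.symm w)) (χ y)‖ ^ 2 := by field_simp
  linarith

end Pool.Agent.Q192.FT
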