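import Pool.Agent.Q192.FT.Att
import Pool.Agent.Y504.CO.Stm

/-!
# Hyperbolic periodic points of torus diffeomorphisms have no bounded tangent orbits

Author: helper192.
-/

set_option autoImplicit false
set_option linter.unusedSectionVars false

open scoped Topology
open Filter Set Metric

namespace Pool.Agent.Q192.FT

open Pool.Agent.H728R2.OS Pool.Agent.Y504.CO

variable {d : ℕ}

theorem lift_iter {A : (Fin d → ℝ) → (Fin d → ℝ)} {a : Torus d → Torus d}
    (hl : IsLift toTorus A a) (k : ℕ) : IsLift toTorus (A^[k]) (a^[k]) := by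
  intro z
  induction k with
  | zero => rfl
  | succ k ih => rw [Function.iterate_succ_apply', Function.iterate_succ_apply', hl, ih]

theorem fderiv_lift {A : (Fin d → ℝ) → (Fin d → ℝ)} {a : Torus d → Torus d} (hA : Continuous A)
    (hl : IsLift toTorus A a) {w : Fin d → ℝ} (hw : IsI w) (y : Fin d → ℝ) :
    fderiv ℝ A (y + w) = fderiv ℝ A y := by
  obtain ⟨c, -, hc⟩ := lift_add hA hl hw
  rw [← fderiv_comp_add_right]
  have e : (fun x => A (x + w)) = fun x => A x + c := funext hc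
  rw [e, fderiv_add_const]

theorem inv_lift {A B : (Fin d → ℝ) → (Fin d → ℝ)} {a : Torus d ≃ₜ Torus d} (hA : Continuous A)
    (hB : Continuous B) (hl : IsLift toTorus A a) (hl' : IsLift toTorus B a.symm) (k : ℕ) :
    ∃ c : Fin d → ℝ, ∀ y, B^[k] (A^[k] y) = y + c := by
  have h1 : ∀ y, toTorus (B^[k] (A^[k] y)) = toTorus y := by
    intro y
    rw [lift_iter hl' k, lift_iter hl k]
    exact (Function.LeftInverse.iterate a.symm_apply_apply k) (toTorus y)
  obtain ⟨c, hc⟩ := lift_unique (isCov_toTorus d) continuous_id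
    ((hB.iterate k).comp (hA.iterate k)) (fun z => (h1 z).symm)
  exact ⟨c, hc⟩

theorem noBdd_lift {g : Torus d ≃ₜ Torus d} (hH : IsHyperbolic toTorus g (ChainRec g))
    {x₀ : Fin d → ℝ} {l : ℕ} (hl : 1 ≤ l) (hx : g^[l] (toTorus x₀) = toTorus x₀) :
    ∃ A : (Fin d → ℝ) → (Fin d → ℝ), ContDiff ℝ 1 A ∧ IsLift toTorus A g ∧
      NoBdd (fun _ => fderiv ℝ (A^[l]) x₀) := by
  obtain ⟨F, G, hF, hG, hFl, hGl, P, c, μ, hc, hμ, hμ1, -, -, hcomm, hest⟩ := hH
  refine ⟨F, hF, hFl, ?_⟩
  set t := toTorus x₀ with ht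
  have hFi : ∀ k : ℕ, ContDiff ℝ 1 (F^[k]) := by
    intro k
    induction k with
    | zero => exact contDiff_id
    | succ k ih => rw [Function.iterate_succ']; exact hF.comp ih
  have hGi : ∀ k : ℕ, ContDiff ℝ 1 (G^[k]) := by
    intro k
    induction k with
    | zero => exact contDiff_id
    | succ k ih => rw [Function.iterate_succ']; exact hG.comp ih
  have hd : ∀ (k : ℕ) y, HasFDerivAt (F^[k]) (fderiv ℝ (F^[k]) y) y := fun k y =>
    ((hFi k).differentiable (by norm_num) y).hasFDerivAt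
  have hdG : ∀ (k : ℕ) y, HasFDerivAt (G^[k]) (fderiv ℝ (G^[k]) y) y := fun k y =>
    ((hGi k).differentiable (by norm_num) y).hasFDerivAt
  have hS : ∀ j : ℕ, g^[j] t ∈ ChainRec g := by
    intro j
    refine per_chain g hl ?_
    rw [← Function.iterate_add_apply, add_comm, Function.iterate_add_apply, hx]
  have hperq : ∀ q : ℕ, g^[l * q] t = t := by
    intro q
    induction q with
    | zero => rfl
    | succ q ih => rw [Nat.mul_succ, Function.iterate_add_apply, hx, ih]
  -- the projections commute with the derivatives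
  have hcj : ∀ j : ℕ, fderiv ℝ (F^[j]) x₀ ∘L P t = P (g^[j] t) ∘L fderiv ℝ (F^[j]) x₀ := by
    intro j
    induction j with
    | zero =>
      have e : fderiv ℝ (F^[0]) x₀ = ContinuousLinearMap.id ℝ _ := fderiv_id
      rw [e]
      rfl
    | succ j ih =>
      have e : fderiv ℝ (F^[j + 1]) x₀ = fderiv ℝ F (F^[j] x₀) ∘L fderiv ℝ (F^[j]) x₀ := by
        rw [Function.iterate_succ']
        exact ((hd 1 _).comp x₀ (hd j x₀)).fderiv
      have h1 := hcomm (F^[j] x₀) (by rw [lift_iter hFl j]; exact hS j)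
      rw [lift_iter hFl j] at h1
      rw [e, ContinuousLinearMap.comp_assoc, ih, ← ContinuousLinearMap.comp_assoc, h1,
        Function.iterate_succ_apply']
      rfl
  -- integer translates
  have hint : ∀ q : ℕ, ∃ w : Fin d → ℝ, IsI w ∧ F^[l * q] x₀ = x₀ + w := by
    intro q
    have h1 : toTorus x₀ = toTorus (F^[l * q] x₀) := by
      rw [lift_iter hFl, ← ht, hperq]
    exact ⟨F^[l * q] x₀ - x₀, (tor_eq_iff _ _).1 h1, by abel⟩
  have hstep : ∀ q : ℕ, fderiv ℝ (F^[l * (q + 1)]) x₀ =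
      fderiv ℝ (F^[l]) x₀ ∘L fderiv ℝ (F^[l * q]) x₀ := by
    intro q
    have e1 : F^[l * (q + 1)] = F^[l] ∘ F^[l * q] := by
      rw [← Function.iterate_add, Nat.mul_succ, add_comm]
    obtain ⟨w, hw, hw'⟩ := hint q
    have h2 := ((hd l _).comp x₀ (hd (l * q) x₀)).fderiv
    rw [e1, h2, hw', fderiv_lift (hFi l).continuous (lift_iter hFl l) hw]
  have hinv : ∀ q : ℕ, fderiv ℝ (G^[l * q]) x₀ ∘L fderiv ℝ (F^[l * q]) x₀ =
      ContinuousLinearMap.id ℝ _ := by
    intro q
    obtain ⟨w, hw, hw'⟩ := hint q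
    obtain ⟨c, hc⟩ := inv_lift hF.continuous hG.continuous hFl hGl (l * q)
    have h1 := ((hdG (l * q) _).comp x₀ (hd (l * q) x₀)).fderiv
    rw [hw', fderiv_lift (hGi _).continuous (lift_iter hGl _) hw] at h1
    rw [← h1]
    have e : (G^[l * q]) ∘ F^[l * q] = fun y => y + c := funext hc
    rw [e, fderiv_add_const, fderiv_fun_id]
  intro v hbd hv
  obtain ⟨C, hC⟩ := hbd
  have hC0 : 0 ≤ C := (norm_nonneg _).trans (hC 0)
  have hvq : ∀ (q : ℕ) (i : ℤ), v (i + q) = fderiv ℝ (F^[l * q]) x₀ (v i) := by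
    intro q
    induction q with
    | zero =>
      intro i
      have e : fderiv ℝ (F^[l * 0]) x₀ = ContinuousLinearMap.id ℝ _ := fderiv_id
      rw [e]
      simp
    | succ q ih =>
      intro i
      have e : i + ((q + 1 : ℕ) : ℤ) = i + q + 1 := by push_cast; ring
      rw [e, hv, ih, hstep]
      rfl
  have hcq : ∀ (q : ℕ) (u : Fin d → ℝ), fderiv ℝ (F^[l * q]) x₀ (P t u) =
      P t (fderiv ℝ (F^[l * q]) x₀ u) := by
    intro q u
    have := hcj (l * q)
    rw [hperq] at this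
    exact congrArg (fun M : (Fin d → ℝ) →L[ℝ] (Fin d → ℝ) => M u) this
  have hpow : ∀ D : ℝ, Tendsto (fun q : ℕ => c * μ ^ (l * q) * D) atTop (𝓝 0) := by
    intro D
    have h1 : Tendsto (fun q : ℕ => μ ^ (l * q)) atTop (𝓝 0) := by
      have h2 := tendsto_pow_atTop_nhds_zero_of_lt_one (pow_nonneg hμ.le l)
        (pow_lt_one₀ hμ.le hμ1 (by omega))
      refine h2.congr fun q => ?_
      rw [← pow_mul]
    have h3 := (h1.const_mul c).mul_const D
    rwa [mul_zero, zero_mul] at h3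
  intro i
  have hP : P t (v i) = 0 := by
    rw [← norm_le_zero_iff]
    refine ge_of_tendsto (hpow (‖P t‖ * C)) (Eventually.of_forall fun q => ?_)
    have e : v i = fderiv ℝ (F^[l * q]) x₀ (v (i - q)) := by
      rw [← hvq, sub_add_cancel]
    have h1 := (hest (l * q) x₀ (hS 0) (v (i - q))).1
    rw [← ht, hcq, ← e] at h1
    refine h1.trans (mul_le_mul_of_nonneg_left ?_ (by positivity))
    exact ((P t).le_opNorm _).trans (mul_le_mul_of_nonneg_left (hC _) (P t).opNorm_nonneg)
  have hQ : v i - P t (v i) = 0 := by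
    rw [← norm_le_zero_iff]
    refine ge_of_tendsto (hpow (C + ‖P t‖ * C)) (Eventually.of_forall fun q => ?_)
    have h1 := (hest (l * q) x₀ (hS 0) (v (i + q))).2
    rw [← ht] at h1
    have e : v (i + q) - P t (v (i + q)) = fderiv ℝ (F^[l * q]) x₀ (v i - P t (v i)) := by
      rw [map_sub, hcq, hvq]
    have e2 : fderiv ℝ (G^[l * q]) x₀ (v (i + q) - P t (v (i + q))) = v i - P t (v i) := by
      rw [e]
      exact congrArg (fun M : (Fin d → ℝ) →L[ℝ] (Fin d → ℝ) => M (v i - P t (v i))) (hinv q)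
    rw [e2] at h1
    refine h1.trans (mul_le_mul_of_nonneg_left ?_ (by positivity))
    refine (norm_sub_le _ _).trans (add_le_add (hC _) ?_)
    exact ((P t).le_opNorm _).trans (mul_le_mul_of_nonneg_left (hC _) (P t).opNorm_nonneg)
  rwa [hP, sub_zero] at hQ

end Pool.Agent.Q192.FT
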