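import Pool.Agent.Q192.FT.Gro
import Pool.Agent.Q192.FT.HypT

/-!
# Hyperbolicity of the periodic points in the critical tori

Author: helper192.
-/

set_option autoImplicit false
set_option linter.unusedSectionVars false

open scoped Manifold ContDiff Topology NNReal
open Filter Set Metric

universe u

namespace Pool.Agent.Q192.FT

open Pool.Agent.H718R2.G Pool.Agent.TH80.OMS Pool.Agent.Y504.CO Pool.Agent.Y318.MN

open Pool.Agent.H728R2.OS (Torus toTorus IsLift)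

variable {n : ℕ} {N : Type u} [TopologicalSpace N] [T2Space N] [CompactSpace N]
  [ChartedSpace (V n) N] [IsManifold (𝓡 n) ∞ N]

theorem cda2 {T : N → N} (hT : ContMDiff (𝓡 n) (𝓡 n) 1 T) {ψ ψ' : OpenPartialHomeomorph N (V n)}
    (hψ : ψ ∈ IsManifold.maximalAtlas (𝓡 n) ∞ N) (hψ' : ψ' ∈ IsManifold.maximalAtlas (𝓡 n) ∞ N)
    {p : N} (hp : p ∈ ψ.source) (hp' : T p ∈ ψ'.source) :
    ContDiffAt ℝ 1 (fun v => ψ' (T (ψ.symm v))) (ψ p) := by
  have hv : ψ p ∈ ψ.target := ψ.map_source hp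
  rw [← contMDiffAt_iff_contDiffAt]
  have k1 : ContMDiffAt (𝓡 n) (𝓡 n) 1 ψ.symm (ψ p) :=
    ((contMDiffOn_symm_of_mem_maximalAtlas hψ _ hv).contMDiffAt
      (ψ.open_target.mem_nhds hv)).of_le (by simp)
  have k2 : ContMDiffAt (𝓡 n) (𝓡 n) 1 T (ψ.symm (ψ p)) := hT.contMDiffAt
  have k3 : ContMDiffAt (𝓡 n) (𝓡 n) 1 ψ' (T (ψ.symm (ψ p))) := by
    rw [ψ.left_inv hp]
    exact ((contMDiffOn_of_mem_maximalAtlas hψ' _ hp').contMDiffAt
      (ψ'.open_source.mem_nhds hp')).of_le (by simp)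
  exact (k3.comp (ψ.symm (ψ p)) k2).comp (ψ p) k1

theorem iter1 {r : ℕ∞} (hr : 1 ≤ r) (G : DiffM n N r) (m : ℕ) :
    ContMDiff (𝓡 n) (𝓡 n) 1 (G^[m]) :=
  (iter_smooth G m).of_le (by exact_mod_cast hr)

theorem iter2 {r : ℕ∞} (hr : 1 ≤ r) (G : DiffM n N r) (m : ℕ) :
    ContMDiff (𝓡 n) (𝓡 n) 1 (G.symm^[m]) := by
  have h : ContMDiff (𝓡 n) (𝓡 n) r (G.symm^[m]) := by
    induction m with
    | zero => exact contMDiff_id
    | succ m ih =>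
      rw [Function.iterate_succ']
      exact G.symm.contMDiff.comp ih
  exact h.of_le (by exact_mod_cast hr)

theorem symm_iterD {r : ℕ∞} (G : DiffM n N r) (k : ℕ) (y : N) : G.symm^[k] (G^[k] y) = y := by
  induction k generalizing y with
  | zero => rfl
  | succ k ih =>
    rw [Function.iterate_succ_apply' (⇑G) k y, Function.iterate_succ_apply, G.symm_apply_apply, ih]

theorem iter_symmD {r : ℕ∞} (G : DiffM n N r) (k : ℕ) (y : N) : G^[k] (G.symm^[k] y) = y := by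
  induction k generalizing y with
  | zero => rfl
  | succ k ih =>
    rw [Function.iterate_succ_apply' (⇑G.symm) k y, Function.iterate_succ_apply,
      G.apply_symm_apply, ih]

/-- Hyperbolicity does not depend on the chart and on the point of the orbit. -/
theorem noBdd_transport {r : ℕ∞} (hr : 1 ≤ r) (G : DiffM n N r) {p : N} {i m : ℕ}
    (hm : G^[m] p = p) {ψ ψ' : OpenPartialHomeomorph N (V n)}
    (hψ : ψ ∈ IsManifold.maximalAtlas (𝓡 n) ∞ N) (hψ' : ψ' ∈ IsManifold.maximalAtlas (𝓡 n) ∞ N)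
    (hp : p ∈ ψ.source) (hq : G^[i] p ∈ ψ'.source)
    (h : NoBdd (fun _ => fderiv ℝ (fun v => ψ (G^[m] (ψ.symm v))) (ψ p))) :
    NoBdd (fun _ => fderiv ℝ (fun v => ψ' (G^[m] (ψ'.symm v))) (ψ' (G^[i] p))) := by
  set q := G^[i] p with hqdef
  have hmq : G^[m] q = q := by
    rw [hqdef, ← Function.iterate_add_apply, add_comm, Function.iterate_add_apply, hm]
  have hsq : G.symm^[i] q = p := symm_iterD G i p
  -- the four maps
  have a1 : ContDiffAt ℝ 1 (fun v => ψ' (G^[i] (ψ.symm v))) (ψ p) :=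
    cda2 (iter1 hr G i) hψ hψ' hp hq
  have b1 : ContDiffAt ℝ 1 (fun v => ψ (G.symm^[i] (ψ'.symm v))) (ψ' q) :=
    cda2 (iter2 hr G i) hψ' hψ hq (by rw [hsq]; exact hp)
  have A1 : ContDiffAt ℝ 1 (fun v => ψ (G^[m] (ψ.symm v))) (ψ p) :=
    cda2 (iter1 hr G m) hψ hψ hp (by rw [hm]; exact hp)
  have B1 : ContDiffAt ℝ 1 (fun v => ψ' (G^[m] (ψ'.symm v))) (ψ' q) :=
    cda2 (iter1 hr G m) hψ' hψ' hq (by rw [hmq]; exact hq)
  have ha := (a1.differentiableAt one_ne_zero).hasFDerivAt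
  have hb := (b1.differentiableAt one_ne_zero).hasFDerivAt
  have hA := (A1.differentiableAt one_ne_zero).hasFDerivAt
  have hB := (B1.differentiableAt one_ne_zero).hasFDerivAt
  set Da := fderiv ℝ (fun v => ψ' (G^[i] (ψ.symm v))) (ψ p) with hDa
  set Db := fderiv ℝ (fun v => ψ (G.symm^[i] (ψ'.symm v))) (ψ' q) with hDb
  set DA := fderiv ℝ (fun v => ψ (G^[m] (ψ.symm v))) (ψ p) with hDA
  set DB := fderiv ℝ (fun v => ψ' (G^[m] (ψ'.symm v))) (ψ' q) with hDB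
  have vb : ψ (G.symm^[i] (ψ'.symm (ψ' q))) = ψ p := by rw [ψ'.left_inv hq, hsq]
  have vB : ψ' (G^[m] (ψ'.symm (ψ' q))) = ψ' q := by rw [ψ'.left_inv hq, hmq]
  -- near `ψ' q`
  have hsy : Tendsto ψ'.symm (𝓝 (ψ' q)) (𝓝 q) := by
    have := (ψ'.continuousAt_symm (ψ'.map_source hq)).tendsto
    rwa [ψ'.left_inv hq] at this
  have e1 : ∀ᶠ w in 𝓝 (ψ' q), G.symm^[i] (ψ'.symm w) ∈ ψ.source := by
    have h1 : Tendsto (G.symm^[i]) (𝓝 q) (𝓝 p) := by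
      have := ((iter2 hr G i).continuous.tendsto q)
      rwa [hsq] at this
    exact (h1.comp hsy).eventually (ψ.open_source.mem_nhds hp)
  have e2 : ∀ᶠ w in 𝓝 (ψ' q), G^[m] (ψ'.symm w) ∈ ψ'.source := by
    have h1 : Tendsto (G^[m]) (𝓝 q) (𝓝 q) := by
      have := ((iter1 hr G m).continuous.tendsto q)
      rwa [hmq] at this
    exact (h1.comp hsy).eventually (ψ'.open_source.mem_nhds hq)
  have e3 : ∀ᶠ w in 𝓝 (ψ' q), w ∈ ψ'.target := ψ'.open_target.mem_nhds (ψ'.map_source hq)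
  have hcomm : ∀ y : N, G^[m] (G.symm^[i] y) = G.symm^[i] (G^[m] y) := by
    intro y
    have inj : Function.Injective (G : N → N) := G.injective
    apply inj.iterate i
    rw [iter_symmD, ← Function.iterate_add_apply, add_comm, Function.iterate_add_apply,
      iter_symmD]
  have r1 : DA ∘L Db = Db ∘L DB := by
    have h1 : HasFDerivAt ((fun v => ψ (G^[m] (ψ.symm v))) ∘ fun v =>
        ψ (G.symm^[i] (ψ'.symm v))) (DA ∘L Db) (ψ' q) := by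
      refine HasFDerivAt.comp (ψ' q) ?_ hb
      show HasFDerivAt _ DA (ψ (G.symm^[i] (ψ'.symm (ψ' q))))
      rw [vb]
      exact hA
    have h2 : HasFDerivAt ((fun v => ψ (G.symm^[i] (ψ'.symm v))) ∘ fun v =>
        ψ' (G^[m] (ψ'.symm v))) (Db ∘L DB) (ψ' q) := by
      refine HasFDerivAt.comp (ψ' q) ?_ hB
      show HasFDerivAt _ Db (ψ' (G^[m] (ψ'.symm (ψ' q))))
      rw [vB]
      exact hb
    refine h1.unique (h2.congr_of_eventuallyEq ?_)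
    filter_upwards [e1, e2] with w k1 k2
    show ψ (G^[m] (ψ.symm (ψ (G.symm^[i] (ψ'.symm w))))) =
      ψ (G.symm^[i] (ψ'.symm (ψ' (G^[m] (ψ'.symm w)))))
    rw [ψ.left_inv k1, ψ'.left_inv k2, hcomm]
  have r2 : Da ∘L Db = ContinuousLinearMap.id ℝ (V n) := by
    have h1 : HasFDerivAt ((fun v => ψ' (G^[i] (ψ.symm v))) ∘ fun v =>
        ψ (G.symm^[i] (ψ'.symm v))) (Da ∘L Db) (ψ' q) := by
      refine HasFDerivAt.comp (ψ' q) ?_ hb
      show HasFDerivAt _ Da (ψ (G.symm^[i] (ψ'.symm (ψ' q))))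
      rw [vb]
      exact ha
    refine h1.unique ((hasFDerivAt_id (ψ' q)).congr_of_eventuallyEq ?_)
    filter_upwards [e1, e3] with w k1 k3
    show ψ' (G^[i] (ψ.symm (ψ (G.symm^[i] (ψ'.symm w))))) = w
    rw [ψ.left_inv k1, iter_symmD, ψ'.right_inv k3]
  intro v hbd hv
  obtain ⟨C, hC⟩ := hbd
  have h3 := h (fun j => Db (v j)) ⟨‖Db‖ * C, fun j => (Db.le_opNorm _).trans
    (mul_le_mul_of_nonneg_left (hC j) Db.opNorm_nonneg)⟩ fun j => by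
      show Db (v (j + 1)) = DA (Db (v j))
      rw [hv j]
      exact (congrArg (fun M : V n →L[ℝ] V n => M (v j)) r1).symm
  intro j
  have h4 : Da (Db (v j)) = v j := congrArg (fun M : V n →L[ℝ] V n => M (v j)) r2
  rw [← h4, h3 j, map_zero]

section

variable {r : ℕ∞} {F G : DiffM n N r} {h : N → ℝ} {Φ : N → N}

/-- a bounded tangent orbit has no normal component -/
theorem qzero (hr : 1 ≤ r) (hh : ContMDiff (𝓡 n) 𝓘(ℝ, ℝ) ∞ h) (hm : ∀ x, h x ≤ h (F x))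
    (hG : ∀ y, G y = F (Φ y)) (hΦ : IsPush n h univ Φ) {p : N} (hcrit : IsCrit n h p) {m : ℕ}
    (hm1 : 1 ≤ m) (hmp : G^[m] p = p) {ψ : OpenPartialHomeomorph N (V n)}
    (hψ : ψ ∈ IsManifold.maximalAtlas (𝓡 n) ∞ N) (hp : p ∈ ψ.source) (Q : V n →L[ℝ] V n) {c : ℝ}
    (hc : 0 < c) (hgr : ∀ᶠ y in 𝓝 p, h y + c * ‖Q (ψ y - ψ p)‖ ^ 2 ≤ h (Φ y)) {D : ℝ}
    (hD : 0 ≤ D)
    (hTQ : ∀ w, |fderiv ℝ (fderiv ℝ fun v => h (ψ.symm v)) (ψ p) w w| ≤ D * ‖Q w‖ ^ 2)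
    {v : ℤ → V n} (hbd : ∃ C : ℝ, ∀ i, ‖v i‖ ≤ C)
    (hv : ∀ i, v (i + 1) = fderiv ℝ (fun v => ψ (G^[m] (ψ.symm v))) (ψ p) (v i)) :
    ∀ i, Q (v i) = 0 := by
  set v₀ := ψ p with hv₀
  have hvt : v₀ ∈ ψ.target := ψ.map_source hp
  set g : V n → V n := fun v => ψ (G^[m] (ψ.symm v)) with hg
  have hg1 : ContDiffAt ℝ 1 g v₀ := cda2 (iter1 hr G m) hψ hψ hp (by rw [hmp]; exact hp)
  have hgd : HasFDerivAt g (fderiv ℝ g v₀) v₀ := (hg1.differentiableAt (by simp)).hasFDerivAt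
  have hfix : g v₀ = v₀ := by
    show ψ (G^[m] (ψ.symm v₀)) = v₀
    rw [hv₀, ψ.left_inv hp, hmp]
  have hmono : ∀ y, h (Φ y) ≤ h (G^[m] y) := by
    intro y
    obtain ⟨j, rfl⟩ : ∃ j, m = j + 1 := ⟨m - 1, by omega⟩
    rw [Function.iterate_succ_apply]
    refine le_trans ?_ (g_mono_iter hm hG hΦ (G y) j)
    rw [hG]
    exact hm _
  have hgrow' : ∀ᶠ v in 𝓝 v₀, h (ψ.symm v) + c * ‖Q (v - v₀)‖ ^ 2 ≤ h (ψ.symm (g v)) := by
    have k1 : Tendsto ψ.symm (𝓝 v₀) (𝓝 p) := by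
      have := (ψ.continuousAt_symm hvt).tendsto
      rwa [hv₀, ψ.left_inv hp] at this
    have k2 : ∀ᶠ y in 𝓝 p, G^[m] y ∈ ψ.source := by
      have : ContinuousAt (G^[m]) p := (iter_smooth G m).continuous.continuousAt
      exact this.preimage_mem_nhds (by rw [hmp]; exact ψ.open_source.mem_nhds hp)
    filter_upwards [k1.eventually hgr, k1.eventually k2, ψ.open_target.mem_nhds hvt]
      with v j1 j2 j3
    rw [ψ.right_inv j3] at j1
    show _ ≤ h (ψ.symm (ψ (G^[m] (ψ.symm v))))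
    rw [ψ.left_inv j2]
    exact j1.trans (hmono _)
  have hso := second_orderQ (H := fun w => h (ψ.symm w)) ((chart_cd hh hψ hvt).of_le (m := 2)
    (WithTop.coe_le_coe.2 (le_top : (2 : ℕ∞) ≤ ⊤)))
    ((crit_iff hh hψ hp).1 hcrit) hgd hfix Q hgrow'
  exact noBdd_formQ (c := 2 * c) (by positivity) hD hTQ hso hbd hv

theorem grow_chart (hh : ContMDiff (𝓡 n) 𝓘(ℝ, ℝ) ∞ h) {p : N} (hcrit : IsCrit n h p)
    (hgrow : GrowD n h Φ p) {ψ : OpenPartialHomeomorph N (V n)}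
    (hψ : ψ ∈ IsManifold.maximalAtlas (𝓡 n) ∞ N) (hp : p ∈ ψ.source) (Q : V n →L[ℝ] V n)
    (hQ : ∀ v, Q (Q v) = Q v)
    (hKQ : ∀ᶠ u in 𝓝 (0 : V n), fderiv ℝ (fun v => h (ψ.symm v)) (ψ p + u) =
      fderiv ℝ (fun v => h (ψ.symm v)) (ψ p + Q u))
    (hnd : ∀ v, fderiv ℝ (fderiv ℝ fun v => h (ψ.symm v)) (ψ p) v = 0 → Q v = 0) :
    ∃ c : ℝ, 0 < c ∧ ∀ᶠ y in 𝓝 p, h y + c * ‖Q (ψ y - ψ p)‖ ^ 2 ≤ h (Φ y) := by
  obtain ⟨c, hc, hgr⟩ := hgrow.chart hh hψ hp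
  obtain ⟨c₀, hc₀, hd⟩ := deriv_grow (K := fun v => h (ψ.symm v)) (v₀ := ψ p)
    ((chart_cd hh hψ (ψ.map_source hp)).of_le (m := 2)
    (WithTop.coe_le_coe.2 (le_top : (2 : ℕ∞) ≤ ⊤))) ((crit_iff hh hψ hp).1 hcrit) Q hQ hKQ hnd
  refine ⟨c * c₀ ^ 2, by positivity, ?_⟩
  have hcont : Tendsto (fun y => ψ y - ψ p) (𝓝 p) (𝓝 0) := by
    have := (ψ.continuousAt hp).tendsto.sub_const (ψ p)
    rwa [sub_self] at this
  filter_upwards [hgr, hcont.eventually hd] with y h1 h2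
  rw [add_sub_cancel] at h2
  have h3 : (c₀ * ‖Q (ψ y - ψ p)‖) ^ 2 ≤ ‖fderiv ℝ (fun v => h (ψ.symm v)) (ψ y)‖ ^ 2 :=
    pow_le_pow_left₀ (by positivity) h2 2
  have h4 := mul_le_mul_of_nonneg_left h3 hc.le
  have h5 : c * (c₀ * ‖Q (ψ y - ψ p)‖) ^ 2 = c * c₀ ^ 2 * ‖Q (ψ y - ψ p)‖ ^ 2 := by ring
  linarith

/-- nondegenerate critical points -/
theorem hyp_nondeg (hr : 1 ≤ r) (hh : ContMDiff (𝓡 n) 𝓘(ℝ, ℝ) ∞ h) (hm : ∀ x, h x ≤ h (F x))
    (hG : ∀ y, G y = F (Φ y)) (hΦ : IsPush n h univ Φ) {p : N} (hcrit : IsCrit n h p)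
    (hnd : Nondeg n h p) (hgrow : GrowD n h Φ p) : HypAt n G p := by
  intro m hm1 hmp ψ hψ hp v hbd hv
  obtain ⟨c, hc, hgr⟩ := grow_chart hh hcrit hgrow hψ hp (ContinuousLinearMap.id ℝ (V n))
    (fun v => rfl) (Eventually.of_forall fun u => rfl) (hnd ψ hψ hp)
  exact qzero hr hh hm hG hΦ hcrit hm1 hmp hψ hp (ContinuousLinearMap.id ℝ (V n)) hc hgr
    (D := ‖fderiv ℝ (fderiv ℝ fun v => h (ψ.symm v)) (ψ p)‖)
    (ContinuousLinearMap.opNorm_nonneg _) (fun w => by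
      rw [← Real.norm_eq_abs]
      refine (ContinuousLinearMap.le_opNorm₂ _ _ _).trans (le_of_eq ?_)
      show _ = _ * ‖w‖ ^ 2
      ring) hbd hv

end

end Pool.Agent.Q192.FT
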