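import Pool.Agent.Q192.FT.Att

/-!
# Finitude of attractors near diffeomorphisms with critical tori

Author: helper192.
-/

set_option autoImplicit false
set_option linter.unusedSectionVars false

open scoped Manifold ContDiff Topology NNReal
open Filter Set Metric MeasureTheory

universe u

namespace Pool.Agent.Q192.FT

open Pool.Agent.H718R2.G Pool.Agent.H728R2.OS Pool.Agent.Y318.MN

open Pool.Agent.H728R2.FA (omegaLim FiniteAttractors)

variable {n : ℕ} {N : Type u} [TopologicalSpace N] [T2Space N] [CompactSpace N]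
  [ChartedSpace (V n) N] [IsManifold (𝓡 n) ∞ N]

theorem tor_surj' {d : ℕ} (t : Torus d) : ∃ z, toTorus z = t := (isCov_toTorus d).quot.surjective t

/-- the embedding of the torus -/
theorem exists_theta {d : ℕ} (hd : d ≤ n) {E : V n → N} (hE : Tube n d E) :
    ∃ θ : Torus d → N, Continuous θ ∧ Function.Injective θ ∧
      ∀ x, θ (toTorus x) = E (emb n d x) := by
  choose ρ hρ using fun t : Torus d => tor_surj' t
  have h1 : ∀ x, E (emb n d (ρ (toTorus x))) = E (emb n d x) := by
    intro x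
    have h2 := (tor_eq_iff _ _).1 (hρ (toTorus x))
    rw [hE.inj]
    refine ⟨x - ρ (toTorus x), h2, ?_⟩
    rw [← em_apply, ← em_apply, ← map_add]
    congr 1
    abel
  refine ⟨fun t => E (emb n d (ρ t)), ?_, ?_, h1⟩
  · rw [(isCov_toTorus d).quot.isQuotientMap.continuous_iff]
    have e : (fun t => E (emb n d (ρ t))) ∘ toTorus = fun x => E (em n d x) := by
      funext x
      exact h1 x
    rw [e]
    exact hE.smooth.continuous.comp (em n d).continuous
  · intro s t hst
    obtain ⟨k, hk, h⟩ := (hE.inj _ _).1 hst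
    have h3 := congrArg (pr n hd) h
    rw [map_add, ← em_apply, ← em_apply, pr_em, pr_em, pr_em] at h3
    rw [← hρ s, ← hρ t, h3, tor_add_int _ hk]

theorem cyc_img {h : N → ℝ} {F : N → N} {d m : ℕ} {E : V n → N} {f : Torus d ≃ₜ Torus d}
    (H : CritTorus n h F d m E f) : F '' cyc n F d m E = cyc n F d m E := by
  apply subset_antisymm
  · rintro _ ⟨_, ⟨i, hi, x, rfl⟩, rfl⟩
    rcases Nat.lt_or_ge (i + 1) m with h1 | h1
    · exact ⟨i + 1, h1, x, (Function.iterate_succ_apply' _ _ _).symm⟩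
    · obtain ⟨y, hy⟩ := tor_surj' (f (toTorus x))
      refine ⟨0, H.pos, y, ?_⟩
      have e : i + 1 = m := by omega
      rw [← Function.iterate_succ_apply' F]
      show F^[i + 1] _ = _
      rw [e]
      exact H.dyn x y hy
  · rintro _ ⟨i, hi, x, rfl⟩
    rcases Nat.eq_zero_or_pos i with rfl | hi0
    · obtain ⟨x'', hx''⟩ := tor_surj' (f.symm (toTorus x))
      have h1 := H.dyn x'' x (by rw [hx'', f.apply_symm_apply])
      obtain ⟨m', rfl⟩ : ∃ m', m = m' + 1 := ⟨m - 1, by have := H.pos; omega⟩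
      refine ⟨F^[m'] (E (emb n d x'')), ⟨m', by omega, x'', rfl⟩, ?_⟩
      rw [← Function.iterate_succ_apply' F]
      exact h1
    · obtain ⟨i', rfl⟩ : ∃ i', i = i' + 1 := ⟨i - 1, by omega⟩
      exact ⟨F^[i'] (E (emb n d x)), ⟨i', by omega, x, rfl⟩,
        (Function.iterate_succ_apply' _ _ _).symm⟩

theorem cyc_eq {F : N → N} {d m : ℕ} {E : V n → N} {θ : Torus d → N}
    (hθE : ∀ x, θ (toTorus x) = E (emb n d x)) :
    cyc n F d m E = ⋃ i : Fin m, (fun t => F^[(i : ℕ)] (θ t)) '' univ := by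
  ext y
  simp only [mem_iUnion]
  constructor
  · rintro ⟨i, hi, x, rfl⟩
    exact ⟨⟨i, hi⟩, toTorus x, mem_univ _, by show F^[i] (θ (toTorus x)) = _; rw [hθE]⟩
  · rintro ⟨i, t, -, rfl⟩
    obtain ⟨x, rfl⟩ := tor_surj' t
    exact ⟨i, i.2, x, by show F^[(i : ℕ)] (θ (toTorus x)) = _; rw [hθE]⟩

theorem piece_closed {F : N → N} (hF : Continuous F) {d : ℕ} {θ : Torus d → N}
    (hθ : Continuous θ) (i : ℕ) : IsClosed ((fun t => F^[i] (θ t)) '' univ) :=
  (isCompact_univ.image ((hF.iterate i).comp hθ)).isClosed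

theorem cyc_closed {h : N → ℝ} {F : N → N} (hF : Continuous F) {d m : ℕ} {E : V n → N}
    {f : Torus d ≃ₜ Torus d} (H : CritTorus n h F d m E f) : IsClosed (cyc n F d m E) := by
  obtain ⟨θ, hθ, -, hθE⟩ := exists_theta H.le H.tube
  rw [cyc_eq hθE]
  exact isClosed_iUnion_of_finite fun i => piece_closed hF hθ _

/-- the conjugacy on the core -/
theorem theta_dyn {h : N → ℝ} {F : N → N} {d m : ℕ} {E : V n → N} {f : Torus d ≃ₜ Torus d}
    (H : CritTorus n h F d m E f) {θ : Torus d → N} (hθE : ∀ x, θ (toTorus x) = E (emb n d x))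
    (t : Torus d) : F^[m] (θ t) = θ (f t) := by
  obtain ⟨x, rfl⟩ := tor_surj' t
  obtain ⟨y, hy⟩ := tor_surj' (f (toTorus x))
  rw [hθE, ← hy, hθE]
  exact H.dyn x y hy

theorem sys_of {r : ℕ∞} {h : N → ℝ} {F : DiffM n N r} (hm : ∀ x, h x ≤ h (F x)) {l : ℕ}
    (M : Fin l → Set N) (hinv : ∀ i, F '' M i = M i) (hC : ∀ i, ∀ x ∈ M i, IsCrit n h x)
    {p : ℕ} (d m : Fin p → ℕ) (E : Fin p → V n → N) (f : ∀ j, Torus (d j) ≃ₜ Torus (d j))
    (H : ∀ j, CritTorus n h F (d j) (m j) (E j) (f j))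
    (hcov : CritInv n F h ⊆ (⋃ i, M i) ∪ ⋃ j, cyc n F (d j) (m j) (E j)) :
    Sys h ((⋃ i, M i) ∪ ⋃ j, cyc n F (d j) (m j) (E j)) F := by
  refine ⟨hm, fun x hx => ?_, fun x => ?_, hcov⟩
  · rcases hx with hx | hx
    · obtain ⟨i, hi⟩ := mem_iUnion.1 hx
      exact hC i x hi
    · obtain ⟨j, i, hi, z, rfl⟩ := mem_iUnion.1 hx
      exact (H j).orb i hi z
  · constructor
    · rintro (hx | hx)
      · obtain ⟨i, hi⟩ := mem_iUnion.1 hx
        rw [← hinv i] at hi
        obtain ⟨z, hz, hzx⟩ := hi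
        left
        rw [← F.injective hzx]
        exact mem_iUnion.2 ⟨i, hz⟩
      · obtain ⟨j, hj⟩ := mem_iUnion.1 hx
        rw [← cyc_img (H j)] at hj
        obtain ⟨z, hz, hzx⟩ := hj
        right
        rw [← F.injective hzx]
        exact mem_iUnion.2 ⟨j, hz⟩
    · rintro (hx | hx)
      · obtain ⟨i, hi⟩ := mem_iUnion.1 hx
        left
        refine mem_iUnion.2 ⟨i, ?_⟩
        rw [← hinv i]
        exact mem_image_of_mem _ hi
      · obtain ⟨j, hj⟩ := mem_iUnion.1 hx
        right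
        refine mem_iUnion.2 ⟨j, ?_⟩
        rw [← cyc_img (H j)]
        exact mem_image_of_mem _ hj

section attr

variable [MetricSpace N]

end attr

/-- limit sets in a cycle of tori with finite chain recurrent set consist of periodic points -/
theorem cyc_limit {X : Type u} [MetricSpace X] [CompactSpace X] (G : X ≃ₜ X) {d m : ℕ}
    (hm : 1 ≤ m) {θ : Torus d → X} (hθ : Continuous θ) (hinj : Function.Injective θ)
    (g : Torus d ≃ₜ Torus d) (hfin : (ChainRec g).Finite)
    (hconj : ∀ t, G^[m] (θ t) = θ (g t))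
    (hdis : ∀ i, 0 < i → i < m → ∀ s t, G^[i] (θ s) ≠ θ t) {p y : X}
    (hp : omegaLim G p ⊆ ⋃ i : Fin m, (fun t => G^[(i : ℕ)] (θ t)) '' univ)
    (hy : y ∈ omegaLim G p) : ∃ k : ℕ, 1 ≤ k ∧ G^[k] y = y := by
  obtain ⟨T, hT⟩ := exists_homeo G m
  obtain ⟨a, -, ha⟩ := omega_split hm hy
  rw [← hT] at ha
  set q := G^[a] p with hq
  have hθi : ∀ i : ℕ, Continuous fun t => G^[i] (θ t) := fun i =>
    (G.continuous.iterate i).comp hθ
  have hinji : ∀ i : ℕ, Function.Injective fun t => G^[i] (θ t) := fun i =>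
    (G.injective.iterate i).comp hinj
  have hconji : ∀ i t, T (G^[i] (θ t)) = G^[i] (θ (g t)) := by
    intro i t
    rw [hT, ← Function.iterate_add_apply, add_comm, Function.iterate_add_apply, hconj]
  have hcl : ∀ i : Fin m, IsClosed ((fun t => G^[(i : ℕ)] (θ t)) '' univ) := fun i =>
    (isCompact_univ.image (hθi i)).isClosed
  have hinv : ∀ i : Fin m, T '' ((fun t => G^[(i : ℕ)] (θ t)) '' univ) =
      (fun t => G^[(i : ℕ)] (θ t)) '' univ := by
    intro i
    apply subset_antisymm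
    · rintro _ ⟨_, ⟨t, -, rfl⟩, rfl⟩
      exact ⟨g t, mem_univ _, (hconji i t).symm⟩
    · rintro _ ⟨t, -, rfl⟩
      refine ⟨_, ⟨g.symm t, mem_univ _, rfl⟩, ?_⟩
      show T (G^[(i : ℕ)] (θ (g.symm t))) = G^[(i : ℕ)] (θ t)
      rw [hconji, g.apply_symm_apply]
  have hdisj : ∀ i j : Fin m, i ≠ j → Disjoint ((fun t => G^[(i : ℕ)] (θ t)) '' univ)
      ((fun t => G^[(j : ℕ)] (θ t)) '' univ) := by
    have key : ∀ i j : ℕ, i < j → j < m → ∀ s t, G^[i] (θ s) ≠ G^[j] (θ t) := by
      intro i j hij hj s t h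
      obtain ⟨e, rfl⟩ := Nat.exists_eq_add_of_lt hij
      have h1 : G^[i] (θ s) = G^[i] (G^[e + 1] (θ t)) := by
        rw [h, ← Function.iterate_add_apply]
        rfl
      exact hdis (e + 1) (by omega) (by omega) t s ((G.injective.iterate i) h1).symm
    intro i j hij
    rw [Set.disjoint_left]
    rintro _ ⟨s, -, rfl⟩ ⟨t, -, h⟩
    have h' : G^[(j : ℕ)] (θ t) = G^[(i : ℕ)] (θ s) := h
    rcases lt_or_gt_of_ne (fun hh => hij (Fin.ext hh) : (i : ℕ) ≠ (j : ℕ)) with h1 | h1
    · exact key i j h1 j.2 s t h'.symm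
    · exact key j i h1 i.2 t s h'
  have hsub : omegaLim T q ⊆ ⋃ i : Fin m, (fun t => G^[(i : ℕ)] (θ t)) '' univ := by
    intro z hz
    rw [hT] at hz
    exact hp (omega_shift (omega_pow hm hz))
  obtain ⟨i, hi⟩ := Pool.Agent.Y318.MH.omegaLim_one T
    (fun i : Fin m => (fun t => G^[(i : ℕ)] (θ t)) '' univ) hcl hinv hdisj q hsub
  have hi' : omegaLim T q ⊆ range fun t => G^[(i : ℕ)] (θ t) := by
    rw [← image_univ]
    exact hi
  obtain ⟨k, hk, h⟩ := per_of_limit T.continuous (hθi i) (hinji i) g hfin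
    (fun t => hconji i t) hi' ha
  refine ⟨m * k, Nat.mul_pos hm hk, ?_⟩
  rw [Function.iterate_mul, ← hT]
  exact h

/-- the periodic points in a cycle of tori with finite chain recurrent set -/
theorem cyc_per {X : Type u} [MetricSpace X] (G : X ≃ₜ X) {d m : ℕ}
    {θ : Torus d → X} (hinj : Function.Injective θ)
    (g : Torus d ≃ₜ Torus d) (hfin : (ChainRec g).Finite)
    (hconj : ∀ t, G^[m] (θ t) = θ (g t)) :
    {y | y ∈ (⋃ i : Fin m, (fun t => G^[(i : ℕ)] (θ t)) '' univ) ∧
      ∃ k : ℕ, 1 ≤ k ∧ G^[k] y = y}.Finite := by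
  have hsub : {y | y ∈ (⋃ i : Fin m, (fun t => G^[(i : ℕ)] (θ t)) '' univ) ∧
      ∃ k : ℕ, 1 ≤ k ∧ G^[k] y = y} ⊆ ⋃ i : Fin m, (fun t => G^[(i : ℕ)] (θ t)) '' ChainRec g := by
    rintro y ⟨hy, k, hk, h⟩
    obtain ⟨i, t, -, rfl⟩ := mem_iUnion.1 hy
    refine mem_iUnion.2 ⟨i, t, ?_, rfl⟩
    have h1 : G^[k] (θ t) = θ t := by
      apply G.injective.iterate (i : ℕ)
      rw [← Function.iterate_add_apply, add_comm, Function.iterate_add_apply]
      exact h
    have h2 : ∀ j, (G^[m])^[j] (θ t) = θ (g^[j] t) := by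
      intro j
      induction j with
      | zero => rfl
      | succ j ih => rw [Function.iterate_succ_apply', ih, hconj, Function.iterate_succ_apply']
    have h3 : (G^[m])^[k] (θ t) = θ t := by
      rw [← Function.iterate_mul, mul_comm, Function.iterate_mul]
      exact Function.iterate_fixed h1 m
    rw [h2] at h3
    exact per_chain g hk (hinj h3)
  exact (Set.finite_iUnion fun i => hfin.image _).subset hsub

/-- **Finitude of attractors.** -/
theorem main {r : ℕ∞} (hr : 1 ≤ r) (F : DiffM n N r) {h : N → ℝ}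
    (hh : ContMDiff (𝓡 n) 𝓘(ℝ, ℝ) ∞ h) (hm : ∀ x, h x ≤ h (F x)) {l : ℕ} (M : Fin l → Set N)
    (hcl : ∀ i, IsClosed (M i)) (hinv : ∀ i, F '' M i = M i)
    (hdis : ∀ i j, i ≠ j → Disjoint (M i) (M j)) (hC : ∀ i, ∀ x ∈ M i, IsCrit n h x)
    (htr : ∀ i, ∃ x ∈ M i, M i ⊆ closure (range fun k : ℕ => F^[k] x))
    {p : ℕ} (d m : Fin p → ℕ) (E : Fin p → V n → N) (f : ∀ j, Torus (d j) ≃ₜ Torus (d j))
    (H : ∀ j, CritTorus n h F (d j) (m j) (E j) (f j))
    (hdisc : ∀ i j, i ≠ j → Disjoint (cyc n F (d i) (m i) (E i)) (cyc n F (d j) (m j) (E j)))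
    (hdism : ∀ i j, Disjoint (M i) (cyc n F (d j) (m j) (E j)))
    (hcov : CritInv n F h ⊆ (⋃ i, M i) ∪ ⋃ j, cyc n F (d j) (m j) (E j))
    (hA : ∀ j, Approx r (f j) fun g => (ChainRec g).Finite) (U : Set (DiffM n N r))
    (hU : IsOpen[strongTop n N r] U) (hFU : F ∈ U) :
    ∃ G ∈ U, (∀ x, h x ≤ h (G x)) ∧
      (∀ q, (∃ i, omegaLim G q ⊆ M i) ∨ ∃ y ∈ ⋃ j, cyc n F (d j) (m j) (E j),
        ∃ k : ℕ, 1 ≤ k ∧ G^[k] y = y ∧ omegaLim G q ⊆ range fun k : ℕ => G^[k] y) ∧
      ∀ (_ : MeasurableSpace N) (μ : Measure N), FiniteAttractors μ G := by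
  obtain ⟨F', hF'U, HS, ⟨g, hg, H'⟩, hcyc', hag⟩ := multi hr (sys_of hm M hinv hC d m E f H hcov)
    d m E f H (fun j => (subset_iUnion (fun j => cyc n F (d j) (m j) (E j)) j).trans
      subset_union_right) hdisc _ hA U hU hFU
  obtain ⟨Φ, G, hGU, hG, hΦ⟩ := exists_push hh hr F' U hU hF'U
  set C : Set N := (⋃ i, M i) ∪ ⋃ j, cyc n F (d j) (m j) (E j) with hCdef
  have hGF' : ∀ x ∈ C, G x = F' x := fun x hx => by rw [hG, hΦ.fix x (HS.crit x hx)]
  have hcC : ∀ j, cyc n F (d j) (m j) (E j) ⊆ C := fun j =>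
    (subset_iUnion (fun j => cyc n F (d j) (m j) (E j)) j).trans subset_union_right
  have hMC : ∀ i, M i ⊆ C := fun i => (subset_iUnion M i).trans subset_union_left
  have hGM : ∀ i, ∀ x ∈ M i, G x = F x := by
    intro i x hx
    rw [hGF' x (hMC i hx), hag x (hMC i hx)]
    intro j z hz
    refine Set.disjoint_left.1 (hdism i j) hx ?_
    rw [hz]
    exact core_mem_cyc (H j).pos z
  have HG : ∀ j, CritTorus n h G (d j) (m j) (E j) (g j) ∧
      cyc n G (d j) (m j) (E j) = cyc n F (d j) (m j) (E j) := by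
    intro j
    have h1 := crit_congr (G := G) (H' j) fun x hx => hGF' x (hcC j (by rw [← hcyc' j]; exact hx))
    exact ⟨h1.1, h1.2.trans (hcyc' j)⟩
  have hFM : ∀ i, ∀ x ∈ M i, F x ∈ M i := fun i x hx => by
    rw [← hinv i]
    exact mem_image_of_mem _ hx
  have hinvG : ∀ i, G.toHomeomorph '' M i = M i := by
    intro i
    conv_rhs => rw [← hinv i]
    exact image_congr (hGM i)
  have hinvc : ∀ j, G.toHomeomorph '' cyc n F (d j) (m j) (E j) =
      cyc n F (d j) (m j) (E j) := by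
    intro j
    have h1 := cyc_img (HG j).1
    rw [(HG j).2] at h1
    exact h1
  have hclc : ∀ j, IsClosed (cyc n F (d j) (m j) (E j)) := by
    intro j
    rw [← (HG j).2]
    exact cyc_closed G.continuous (HG j).1
  have hω : ∀ q, omegaLim G q ⊆ C := fun q =>
    (omegaLim_sub_omega _ _).trans ((omega_sub hh.continuous HS.mono hG hΦ).trans HS.cov)
  have hmet := Pool.Agent.Y504.CO.exists_metric n N
  letI : MetricSpace N := TopologicalSpace.metrizableSpaceMetric N
  choose θ hθ hθi hθE using fun j => exists_theta (H j).le (H j).tube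
  have hcycθ : ∀ j, cyc n F (d j) (m j) (E j) =
      ⋃ i : Fin (m j), (fun t => G.toHomeomorph^[(i : ℕ)] (θ j t)) '' univ := by
    intro j
    rw [← (HG j).2]
    exact cyc_eq (hθE j)
  set Q : Set N := {y | y ∈ (⋃ j, cyc n F (d j) (m j) (E j)) ∧
    ∃ k : ℕ, 1 ≤ k ∧ G.toHomeomorph^[k] y = y} with hQ
  have hQf : Q.Finite := by
    have hsub : Q ⊆ ⋃ j, {y | y ∈ (⋃ i : Fin (m j),
        (fun t => G.toHomeomorph^[(i : ℕ)] (θ j t)) '' univ) ∧
        ∃ k : ℕ, 1 ≤ k ∧ G.toHomeomorph^[k] y = y} := by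
      rintro y ⟨hy, hk⟩
      obtain ⟨j, hj⟩ := mem_iUnion.1 hy
      rw [hcycθ j] at hj
      exact mem_iUnion.2 ⟨j, hj, hk⟩
    exact (Set.finite_iUnion fun j => cyc_per G.toHomeomorph (hθi j) (g j) (hg j)
      (theta_dyn (HG j).1 (hθE j))).subset hsub
  have hcover : ∀ q, (∃ i, omegaLim G.toHomeomorph q ⊆ M i) ∨ omegaLim G.toHomeomorph q ⊆ Q := by
    intro q
    have h1 := Pool.Agent.Y318.MH.omegaLim_one G.toHomeomorph
      (Fin.append M fun j => cyc n F (d j) (m j) (E j)) (fun i => by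
        induction i using Fin.addCases with
        | left i => rw [Fin.append_left]; exact hcl i
        | right i => rw [Fin.append_right]; exact hclc i) (fun i => by
        induction i using Fin.addCases with
        | left i => rw [Fin.append_left]; exact hinvG i
        | right i => rw [Fin.append_right]; exact hinvc i) (fun i j => by
        induction i using Fin.addCases with
        | left i =>
          induction j using Fin.addCases with
          | left j =>
            intro hij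
            rw [Fin.append_left, Fin.append_left]
            exact hdis i j fun hh => hij (by rw [hh])
          | right j =>
            intro _
            rw [Fin.append_left, Fin.append_right]
            exact hdism i j
        | right i =>
          induction j using Fin.addCases with
          | left j =>
            intro _
            rw [Fin.append_left, Fin.append_right]
            exact (hdism j i).symm
          | right j =>
            intro hij
            rw [Fin.append_right, Fin.append_right]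
            exact hdisc i j fun hh => hij (by rw [hh])) q (fun y hy => by
        rcases hω q hy with h2 | h2
        · obtain ⟨i, hi⟩ := mem_iUnion.1 h2
          exact mem_iUnion.2 ⟨Fin.castAdd p i, by rw [Fin.append_left]; exact hi⟩
        · obtain ⟨j, hj⟩ := mem_iUnion.1 h2
          exact mem_iUnion.2 ⟨Fin.natAdd l j, by rw [Fin.append_right]; exact hj⟩)
    obtain ⟨i, hi⟩ := h1
    induction i using Fin.addCases with
    | left i =>
      rw [Fin.append_left] at hi
      exact Or.inl ⟨i, hi⟩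
    | right j =>
      rw [Fin.append_right] at hi
      right
      intro y hy
      refine ⟨mem_iUnion.2 ⟨j, hi hy⟩, ?_⟩
      refine cyc_limit G.toHomeomorph (H j).pos (hθ j) (hθi j) (g j) (hg j)
        (theta_dyn (HG j).1 (hθE j)) (fun i h0 him s t => ?_) (by rw [← hcycθ j]; exact hi) hy
      obtain ⟨x, rfl⟩ := tor_surj' s
      obtain ⟨y, rfl⟩ := tor_surj' t
      rw [hθE, hθE]
      exact (HG j).1.dis i h0 him x y
  have htr' : ∀ i, ∃ x ∈ M i, M i ⊆ closure (range fun k : ℕ => G.toHomeomorph^[k] x) := by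
    intro i
    obtain ⟨x, hx, hd⟩ := htr i
    refine ⟨x, hx, ?_⟩
    have e : (fun k : ℕ => G.toHomeomorph^[k] x) = fun k : ℕ => F^[k] x := by
      funext k
      have key : G^[k] x = F^[k] x ∧ F^[k] x ∈ M i := by
        induction k with
        | zero => exact ⟨rfl, hx⟩
        | succ k ih =>
          rw [Function.iterate_succ_apply', Function.iterate_succ_apply', ih.1]
          exact ⟨hGM i _ ih.2, hFM i _ ih.2⟩
      exact key.1
    rw [e]
    exact hd
  obtain ⟨h1, h2⟩ := fin_attr G.toHomeomorph M hinvG htr' Q hQf (fun y hy => hy.2) hcover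
  refine ⟨G, hGU, g_mono HS.mono hG hΦ, fun q => ?_, fun _ μ => h2 _ μ⟩
  rcases h1 q with h3 | ⟨y, hy, h3⟩
  · exact Or.inl h3
  · obtain ⟨hyc, k, hk, hky⟩ := hy
    exact Or.inr ⟨y, hyc, k, hk, hky, h3⟩

end Pool.Agent.Q192.FT
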