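import Pool.Agent.Q192.FT.Chn

/-!
# Nonwandering points and connections are chain recurrent in the set where `h` is constant

Author: helper192.
-/

set_option autoImplicit false
set_option linter.unusedSectionVars false

open scoped Topology
open Filter Set Metric

namespace Pool.Agent.Q192.FT

open Pool.Agent.H728R2.OS

section wan

variable {X : Type*} [MetricSpace X]

theorem limit_le {T : X → X} (hT : Continuous T) {h : X → ℝ} (hc : Continuous h)
    (hm : ∀ x, h x ≤ h (T x)) {x w : X} {u v : ℕ → X} {n : ℕ → ℕ}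
    (huv : ∀ k, T^[n k] (u k) = v k) (hu : Tendsto u atTop (𝓝 w)) (hv : Tendsto v atTop (𝓝 x))
    (hx : ∀ b : ℕ, T^[b] w ≠ x) (a : ℕ) : h (T^[a] w) ≤ h x := by
  by_contra hcon
  push Not at hcon
  have hmi : ∀ (b : ℕ) (y : X), h y ≤ h (T^[b] y) := by
    intro b y
    induction b with
    | zero => exact le_rfl
    | succ b ih => rw [Function.iterate_succ_apply']; exact ih.trans (hm _)
  have hTu : ∀ b : ℕ, Tendsto (fun k => T^[b] (u k)) atTop (𝓝 (T^[b] w)) := fun b =>
    ((hT.iterate b).tendsto w).comp hu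
  have h1 : ∀ᶠ k in atTop, h (v k) < h (T^[a] (u k)) :=
    ((hc.tendsto x).comp hv).eventually_lt ((hc.tendsto _).comp (hTu a)) hcon
  have h2 : ∀ᶠ k in atTop, n k < a := by
    filter_upwards [h1] with k hk
    by_contra hka
    push Not at hka
    have h3 := hmi (n k - a) (T^[a] (u k))
    rw [← Function.iterate_add_apply, Nat.sub_add_cancel hka, huv] at h3
    linarith
  have h3 : ∀ b : ℕ, ∀ᶠ k in atTop, n k ≠ b := by
    intro b
    by_contra hb
    rw [not_eventually] at hb
    apply hx b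
    refine tendsto_nhds_unique_of_frequently_eq (hTu b) hv (hb.mono fun k hk => ?_)
    rw [not_not] at hk
    rw [← huv k, hk]
  have h4 : ∀ᶠ k in atTop, ∀ b ∈ Finset.range a, n k ≠ b := by
    rw [Filter.eventually_all_finset]
    exact fun b _ => h3 b
  obtain ⟨k, hk, hk'⟩ := (h2.and h4).exists
  exact hk' (n k) (Finset.mem_range.2 hk) rfl

theorem symm_iter {X : Type*} [TopologicalSpace X] (G : X ≃ₜ X) (k : ℕ) (y : X) :
    G.symm^[k] (G^[k] y) = y := by
  induction k generalizing y with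
  | zero => rfl
  | succ k ih =>
    rw [Function.iterate_succ_apply' G k y, Function.iterate_succ_apply, G.symm_apply_apply, ih]

theorem near [CompactSpace X] (G : X ≃ₜ X) {h : X → ℝ} (hc : Continuous h)
    (hm : ∀ x, h x ≤ h (G x)) {C : Set X} (hfw : ∀ x, G x ∈ C ↔ x ∈ C)
    (hC : ∀ z a, (∀ k : ℕ, h (G^[k] z) = a ∧ h (G.symm^[k] z) = a) → z ∈ C) {x : X} (hx : x ∈ C)
    {ε : ℝ} (hε : 0 < ε) :
    ∃ δ : ℝ, 0 < δ ∧ ∀ (y : X) (n : ℕ), dist y x < δ → dist (G^[n] y) x < δ →
      ∀ i ≤ n, infDist (G^[i] y) C < ε := by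
  by_contra hcon
  push Not at hcon
  choose y n hy hn i hi hiε using fun k : ℕ => hcon (1 / ((k : ℝ) + 1)) (by positivity)
  have hsm : ∀ z, h (G.symm z) ≤ h z := fun z => by
    have := hm (G.symm z)
    rwa [G.apply_symm_apply] at this
  have hsC : ∀ (b : ℕ) (z : X), G^[b] z ∈ C ↔ z ∈ C := by
    intro b z
    induction b with
    | zero => exact Iff.rfl
    | succ b ih => rw [Function.iterate_succ_apply', hfw, ih]
  have hlim0 := tendsto_one_div_add_atTop_nhds_zero_nat (𝕜 := ℝ)
  have hyl : Tendsto y atTop (𝓝 x) :=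
    tendsto_iff_dist_tendsto_zero.2 (squeeze_zero (fun _ => dist_nonneg) (fun k => (hy k).le) hlim0)
  have hnl : Tendsto (fun k => G^[n k] (y k)) atTop (𝓝 x) :=
    tendsto_iff_dist_tendsto_zero.2 (squeeze_zero (fun _ => dist_nonneg) (fun k => (hn k).le) hlim0)
  obtain ⟨w, -, φ, hφ, hw⟩ := isCompact_univ.tendsto_subseq
    (x := fun k => G^[i k] (y k)) fun k => mem_univ _
  have hwC : w ∉ C := by
    intro hwC
    have h1 : Tendsto (fun k => infDist (G^[i (φ k)] (y (φ k))) C) atTop (𝓝 (infDist w C)) :=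
      ((continuous_infDist_pt C).tendsto w).comp hw
    have h2 : ε ≤ infDist w C := ge_of_tendsto h1 (Eventually.of_forall fun k => hiε (φ k))
    rw [infDist_zero_of_mem hwC] at h2
    linarith
  have hup : ∀ a, h (G^[a] w) ≤ h x := by
    refine limit_le (T := G) G.continuous hc hm (u := fun k => G^[i (φ k)] (y (φ k)))
      (v := fun k => G^[n (φ k)] (y (φ k))) (n := fun k => n (φ k) - i (φ k)) (fun k => ?_) hw
      (hnl.comp hφ.tendsto_atTop) (fun b hb => hwC ?_)
    · rw [← Function.iterate_add_apply, Nat.sub_add_cancel (hi _)]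
    · rw [← hsC b, hb]
      exact hx
  have hlo : ∀ a, -h (G.symm^[a] w) ≤ -h x := by
    refine limit_le (T := G.symm) G.symm.continuous (h := fun z => -h z) hc.neg
      (fun z => neg_le_neg (hsm z)) (u := fun k => G^[i (φ k)] (y (φ k)))
      (v := fun k => y (φ k)) (n := fun k => i (φ k)) (fun k => symm_iter G _ _) hw
      (hyl.comp hφ.tendsto_atTop) (fun b hb => hwC ?_)
    have h1 : G^[b] x = w := by
      rw [← hb]
      exact symm_iter G.symm b w
    rw [← h1, hsC]
    exact hx
  have hge : ∀ a, h w ≤ h (G^[a] w) := by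
    intro a
    induction a with
    | zero => exact le_rfl
    | succ a ih => rw [Function.iterate_succ_apply']; exact ih.trans (hm _)
  have hle : ∀ a, h (G.symm^[a] w) ≤ h w := by
    intro a
    induction a with
    | zero => exact le_rfl
    | succ a ih => rw [Function.iterate_succ_apply']; exact (hsm _).trans ih
  have e0 : h w = h x := le_antisymm (hup 0) (neg_le_neg_iff.1 (hlo 0))
  refine hwC (hC w (h x) fun k => ⟨le_antisymm (hup k) ?_, le_antisymm ?_ ?_⟩)
  · rw [← e0]
    exact hge k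
  · rw [← e0]
    exact hle k
  · exact neg_le_neg_iff.1 (hlo k)

/-- nonwandering points are chain recurrent in `C` -/
theorem reach_of_omega [CompactSpace X] (G : X ≃ₜ X) {h : X → ℝ} (hc : Continuous h)
    (hm : ∀ x, h x ≤ h (G x)) {C : Set X} (hfw : ∀ x, G x ∈ C ↔ x ∈ C)
    (hC : ∀ z a, (∀ k : ℕ, h (G^[k] z) = a ∧ h (G.symm^[k] z) = a) → z ∈ C) {x : X} (hx : x ∈ C)
    (hω : ∀ δ : ℝ, 0 < δ → ∃ (n : ℕ) (y : X), 0 < n ∧ dist y x < δ ∧ dist (G^[n] y) x < δ) :
    Reach G C x x := by
  classical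
  intro ε hε
  obtain ⟨η, hη, hG⟩ := Metric.uniformContinuous_iff.1
    (CompactSpace.uniformContinuous_of_continuous G.continuous) (ε / 2) (by positivity)
  set η' := min η (ε / 2) with hη'
  have hη'pos : 0 < η' := lt_min hη (by positivity)
  obtain ⟨δ, hδ, hnear⟩ := near G hc hm hfw hC hx hη'pos
  obtain ⟨n, y, hn, hy, hny⟩ := hω (min δ η') (lt_min hδ hη'pos)
  have h1 := hnear y n (hy.trans_le (min_le_left _ _)) (hny.trans_le (min_le_left _ _))
  have h2 : ∀ i, ∃ s : X, i ≤ n → s ∈ C ∧ dist (G^[i] y) s < η' := by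
    intro i
    by_cases hi : i ≤ n
    · obtain ⟨s, hs, hs'⟩ := (infDist_lt_iff ⟨x, hx⟩).1 (h1 i hi)
      exact ⟨s, fun _ => ⟨hs, hs'⟩⟩
    · exact ⟨x, fun h => absurd h hi⟩
  choose s hs using h2
  set c : ℕ → X := fun i => if i = 0 ∨ i = n then x else s i with hcdef
  have hcC : ∀ i ≤ n, c i ∈ C ∧ dist (G^[i] y) (c i) < η' := by
    intro i hi
    by_cases h : i = 0 ∨ i = n
    · have e : c i = x := by rw [hcdef]; exact if_pos h
      rw [e]
      refine ⟨hx, ?_⟩
      rcases h with rfl | rfl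
      · exact hy.trans_le (min_le_right _ _)
      · exact hny.trans_le (min_le_right _ _)
    · have e : c i = s i := by rw [hcdef]; exact if_neg h
      rw [e]
      exact hs i hi
  refine ⟨n, c, hn, by rw [hcdef]; exact if_pos (Or.inl rfl),
    by rw [hcdef]; exact if_pos (Or.inr rfl), fun i hi => (hcC i hi).1, fun i hi => ?_⟩
  have h3 : dist (G (c i)) (G (G^[i] y)) < ε / 2 := hG (by
    rw [dist_comm]
    exact (hcC i hi.le).2.trans_le (min_le_left _ _))
  have h4 : dist (G^[i + 1] y) (c (i + 1)) < ε / 2 :=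
    (hcC (i + 1) hi).2.trans_le (min_le_right _ _)
  rw [← Function.iterate_succ_apply' G] at h3
  calc dist (G (c i)) (c (i + 1))
      ≤ dist (G (c i)) (G^[i + 1] y) + dist (G^[i + 1] y) (c (i + 1)) := dist_triangle _ _ _
    _ < ε / 2 + ε / 2 := add_lt_add h3 h4
    _ = ε := by ring

/-- connections -/
theorem reach_of_stab {G : X → X} {C : Set X} (hC : ∀ x ∈ C, G x ∈ C) {z p : X} (hz : z ∈ C)
    (hp : p ∈ C) {m : ℕ} (hm : 1 ≤ m) (hper : G^[m] p = p)
    (has : ∀ δ : ℝ, 0 < δ → ∃ K : ℕ, ∀ k ≥ K, dist (G^[k] p) (G^[k] z) < δ) (j : ℕ) :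
    Reach G C z (G^[j] p) := by
  intro ε hε
  obtain ⟨K₀, hK₀⟩ := has ε hε
  set K := K₀ + 1 with hK
  have hCi : ∀ (i : ℕ) (y : X), y ∈ C → G^[i] y ∈ C := by
    intro i y hy
    induction i with
    | zero => exact hy
    | succ i ih => rw [Function.iterate_succ_apply']; exact hC _ ih
  have hpl : ∀ l : ℕ, G^[m * l] p = p := by
    intro l
    induction l with
    | zero => rfl
    | succ l ih => rw [Nat.mul_succ, Function.iterate_add_apply, hper, ih]
  have hKm : K ≤ m * K := Nat.le_mul_of_pos_left K (by omega)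
  refine ⟨m * K + j, fun i => if i < K then G^[i] z else G^[i] p, by omega, ?_, ?_,
    fun i _ => ?_, fun i _ => ?_⟩
  · show (if 0 < K then G^[0] z else G^[0] p) = z
    rw [if_pos (by omega)]
    rfl
  · show (if m * K + j < K then G^[m * K + j] z else G^[m * K + j] p) = G^[j] p
    rw [if_neg (by omega), add_comm, Function.iterate_add_apply, hpl]
  · show (if i < K then G^[i] z else G^[i] p) ∈ C
    split
    · exact hCi _ _ hz
    · exact hCi _ _ hp
  · show dist (G (if i < K then G^[i] z else G^[i] p))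
      (if i + 1 < K then G^[i + 1] z else G^[i + 1] p) < ε
    by_cases h1 : i + 1 < K
    · rw [if_pos (by omega), if_pos h1, Function.iterate_succ_apply', dist_self]
      exact hε
    · by_cases h2 : i < K
      · rw [if_pos h2, if_neg h1, ← Function.iterate_succ_apply' G, dist_comm]
        exact hK₀ (i + 1) (by omega)
      · rw [if_neg h2, if_neg h1, Function.iterate_succ_apply', dist_self]
        exact hε

theorem reach_symm [CompactSpace X] (G : X ≃ₜ X) {C : Set X} {x y : X}
    (h : Reach G.symm C x y) : Reach G C y x := by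
  intro ε hε
  obtain ⟨δ, hδ, hd⟩ := Metric.uniformContinuous_iff.1
    (CompactSpace.uniformContinuous_of_continuous G.continuous) ε hε
  obtain ⟨n, c, hn, h0, h1, h2, h3⟩ := h δ hδ
  refine ⟨n, fun i => c (n - i), hn, ?_, ?_, fun i _ => h2 _ (Nat.sub_le _ _), fun i hi => ?_⟩
  · show c (n - 0) = y
    rw [Nat.sub_zero, h1]
  · show c (n - n) = x
    rw [Nat.sub_self, h0]
  · show dist (G (c (n - i))) (c (n - (i + 1))) < ε
    have h4 := hd (h3 (n - (i + 1)) (by omega))
    have e : n - (i + 1) + 1 = n - i := by omega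
    rw [G.apply_symm_apply, e, dist_comm] at h4
    exact h4

theorem reach_of_unstab [CompactSpace X] (G : X ≃ₜ X) {C : Set X} (hC : ∀ x, G x ∈ C ↔ x ∈ C)
    {z p : X} (hz : z ∈ C) (hp : p ∈ C) {m : ℕ} (hm : 1 ≤ m) (hper : G^[m] p = p)
    (has : ∀ δ : ℝ, 0 < δ → ∃ K : ℕ, ∀ k ≥ K, dist (G.symm^[k] p) (G.symm^[k] z) < δ) :
    Reach G C p z := by
  apply reach_symm
  refine reach_of_stab (G := G.symm) (fun x hx => ?_) hz hp hm ?_ has 0
  · rw [← hC, G.apply_symm_apply]
    exact hx
  · conv_lhs => rw [← hper]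
    exact symm_iter G m p

end wan

end Pool.Agent.Q192.FT
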