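import Pool.Agent.Q192.FT.Hyp
import Pool.Agent.Q192.FT.Main
import Pool.Agent.Q192.FT.Wan
import Pool.Agent.Q192.FT.ADefs

/-!
# Hyperbolicity of the periodic points in the critical tori, second part

Author: helper192.
-/

set_option autoImplicit false
set_option linter.unusedSectionVars false

open scoped Manifold ContDiff Topology NNReal
open Filter Set Metric

universe u

namespace Pool.Agent.Q192.FT

open Pool.Agent.H718R2.G Pool.Agent.TH80.OMS Pool.Agent.Y504.CO Pool.Agent.Y318.MN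

open Pool.Agent.H728R2.OS (Torus toTorus IsLift IsHyperbolic ChainRec)

section linear

variable {n d : ℕ} {K : V n → ℝ} (hK : ContDiff ℝ 2 K)
  (hinv : ∀ v (ξ : Fin d → ℝ), K (v + em n d ξ) = K v)

include hinv in
theorem fderiv_inv (v : V n) (ξ : Fin d → ℝ) : fderiv ℝ K (v + em n d ξ) = fderiv ℝ K v := by
  rw [← fderiv_comp_add_right]
  congr 1
  funext w
  exact hinv w ξ

include hinv in
theorem fderiv_qq (hd : d ≤ n) (v u : V n) :
    fderiv ℝ K (v + u) = fderiv ℝ K (v + qq n d u) := by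
  rw [← fderiv_inv hinv (v + qq n d u) (pr n hd u)]
  congr 1
  conv_lhs => rw [← em_pr_add hd u]
  abel

include hK hinv in
theorem hess_em (v₀ : V n) (ξ : Fin d → ℝ) :
    fderiv ℝ (fderiv ℝ K) v₀ (em n d ξ) = 0 := by
  have hd' : HasFDerivAt (fderiv ℝ K) (fderiv ℝ (fderiv ℝ K) v₀) v₀ :=
    ((hK.fderiv_right (m := 1) (by norm_num)).differentiable (by norm_num) v₀).hasFDerivAt
  have h1 : HasDerivAt (fun s : ℝ => v₀ + s • em n d ξ) (em n d ξ) 0 := by
    simpa using ((hasDerivAt_id (0 : ℝ)).smul_const (em n d ξ)).const_add v₀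
  have h2 : HasDerivAt (fun s : ℝ => fderiv ℝ K (v₀ + s • em n d ξ))
      (fderiv ℝ (fderiv ℝ K) v₀ (em n d ξ)) 0 := by
    have hd'' : HasFDerivAt (fderiv ℝ K) (fderiv ℝ (fderiv ℝ K) v₀) (v₀ + (0 : ℝ) • em n d ξ) := by
      simpa using hd'
    exact hd''.comp_hasDerivAt (0 : ℝ) h1
  have e : (fun s : ℝ => fderiv ℝ K (v₀ + s • em n d ξ)) = fun _ => fderiv ℝ K v₀ := by
    funext s
    rw [← map_smul, fderiv_inv hinv]
  rw [e] at h2
  exact h2.unique (hasDerivAt_const (0 : ℝ) (fderiv ℝ K v₀))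

include hK hinv in
theorem hess_em' (v₀ u : V n) (ξ : Fin d → ℝ) :
    fderiv ℝ (fderiv ℝ K) v₀ u (em n d ξ) = 0 := by
  have hd' : HasFDerivAt (fderiv ℝ K) (fderiv ℝ (fderiv ℝ K) v₀) v₀ :=
    ((hK.fderiv_right (m := 1) (by norm_num)).differentiable (by norm_num) v₀).hasFDerivAt
  have h1 : HasFDerivAt (fun v => fderiv ℝ K v (em n d ξ))
      ((ContinuousLinearMap.apply ℝ ℝ (em n d ξ)).comp (fderiv ℝ (fderiv ℝ K) v₀)) v₀ :=
    (ContinuousLinearMap.apply ℝ ℝ (em n d ξ)).hasFDerivAt.comp v₀ hd'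
  have e : (fun v => fderiv ℝ K v (em n d ξ)) = fun _ => 0 := by
    funext v
    have h2 : HasDerivAt (fun s : ℝ => v + s • em n d ξ) (em n d ξ) 0 := by
      simpa using ((hasDerivAt_id (0 : ℝ)).smul_const (em n d ξ)).const_add v
    have h3 : HasDerivAt (fun s : ℝ => K (v + s • em n d ξ)) (fderiv ℝ K v (em n d ξ)) 0 := by
      have h4 : HasFDerivAt K (fderiv ℝ K v) (v + (0 : ℝ) • em n d ξ) := by
        have := (hK.differentiable (by norm_num) v).hasFDerivAt
        simpa using this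
      exact h4.comp_hasDerivAt (0 : ℝ) h2
    have e2 : (fun s : ℝ => K (v + s • em n d ξ)) = fun _ => K v := by
      funext s
      rw [← map_smul, hinv]
    rw [e2] at h3
    exact h3.unique (hasDerivAt_const (0 : ℝ) (K v))
  rw [e] at h1
  have h5 := h1.unique (hasFDerivAt_const (0 : ℝ) v₀)
  exact congrArg (fun M : V n →L[ℝ] ℝ => M u) h5

include hK hinv in
theorem hess_bound (hd : d ≤ n) (v₀ w : V n) :
    |fderiv ℝ (fderiv ℝ K) v₀ w w| ≤ ‖fderiv ℝ (fderiv ℝ K) v₀‖ * ‖qq n d w‖ ^ 2 := by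
  have hw : w = em n d (pr n hd w) + qq n d w := (em_pr_add hd w).symm
  have e : fderiv ℝ (fderiv ℝ K) v₀ w = fderiv ℝ (fderiv ℝ K) v₀ (qq n d w) := by
    refine (congrArg (fderiv ℝ (fderiv ℝ K) v₀) hw).trans ?_
    rw [map_add, hess_em hK hinv, zero_add]
  have h1 : fderiv ℝ (fderiv ℝ K) v₀ w w =
      fderiv ℝ (fderiv ℝ K) v₀ (qq n d w) (qq n d w) := by
    rw [e]
    refine (congrArg (fderiv ℝ (fderiv ℝ K) v₀ (qq n d w)) hw).trans ?_
    rw [map_add, hess_em' hK hinv, zero_add]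
  rw [h1, ← Real.norm_eq_abs]
  refine (ContinuousLinearMap.le_opNorm₂ _ _ _).trans (le_of_eq ?_)
  ring

end linear

section core

variable {n : ℕ} {N : Type u} [TopologicalSpace N] [T2Space N] [CompactSpace N]
  [ChartedSpace (V n) N] [IsManifold (𝓡 n) ∞ N] {r : ℕ∞} {F G : DiffM n N r} {h : N → ℝ}
  {Φ : N → N}

theorem theta_iter {G : N → N} {d m : ℕ} {θ : Torus d → N} {g : Torus d ≃ₜ Torus d}
    (hdyn : ∀ t, G^[m] (θ t) = θ (g t)) (q : ℕ) (t : Torus d) :
    G^[m * q] (θ t) = θ (g^[q] t) := by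
  induction q with
  | zero => rfl
  | succ q ih =>
    rw [Nat.mul_succ, add_comm, Function.iterate_add_apply, ih, hdyn, Function.iterate_succ_apply']

/-- **Hyperbolicity in the core.** -/
theorem core_noBdd (hr : 1 ≤ r) (hh : ContMDiff (𝓡 n) 𝓘(ℝ, ℝ) ∞ h) (hm : ∀ x, h x ≤ h (F x))
    (hG : ∀ y, G y = F (Φ y)) (hΦ : IsPush n h univ Φ) {d m : ℕ} {E : V n → N}
    {g : Torus d ≃ₜ Torus d} (H : CritTorus n h G d m E g)
    (hH : IsHyperbolic toTorus g (ChainRec g)) (hN : NormNondeg n h d E) {x₀ : Fin d → ℝ}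
    (hgrow : GrowD n h Φ (E (emb n d x₀))) {k : ℕ} (hk : 1 ≤ k)
    (hper : G^[k] (E (emb n d x₀)) = E (emb n d x₀)) :
    ∃ ψ ∈ IsManifold.maximalAtlas (𝓡 n) ∞ N, E (emb n d x₀) ∈ ψ.source ∧
      NoBdd (fun _ => fderiv ℝ (fun v => ψ (G^[k] (ψ.symm v))) (ψ (E (emb n d x₀)))) := by
  have hd := H.le
  obtain ⟨ψ, hψ, hv₀, hψE⟩ := H.chart (emb n d x₀)
  set v₀ := emb n d x₀ with hv₀def
  have hp0 : ψ.symm v₀ = E v₀ := hψE v₀ hv₀
  have hp : E v₀ ∈ ψ.source := by rw [← hp0]; exact ψ.map_target hv₀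
  have hψp : ψ (E v₀) = v₀ := by rw [← hp0]; exact ψ.right_inv hv₀
  refine ⟨ψ, hψ, hp, ?_⟩
  obtain ⟨θ, hθ, hθi, hθE⟩ := exists_theta hd H.tube
  have hdyn : ∀ t, G^[m] (θ t) = θ (g t) := theta_dyn H hθE
  -- the period is a multiple of `m`
  have hdis : ∀ s, 0 < s → s < m → ∀ t t', G^[s] (θ t) ≠ θ t' := by
    intro s h0 h1 t t'
    obtain ⟨x, rfl⟩ := tor_surj' t
    obtain ⟨x', rfl⟩ := tor_surj' t'
    rw [hθE, hθE]
    exact H.dis s h0 h1 x x'
  have hperθ : G^[k] (θ (toTorus x₀)) = θ (toTorus x₀) := by rw [hθE]; exact hper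
  have hmod : k % m = 0 := by
    by_contra hne
    have h1 : G^[k % m] (θ (g^[k / m] (toTorus x₀))) = θ (toTorus x₀) := by
      rw [← theta_iter hdyn, ← Function.iterate_add_apply, Nat.mod_add_div]
      exact hperθ
    exact hdis (k % m) (Nat.pos_of_ne_zero hne) (Nat.mod_lt _ H.pos) _ _ h1
  obtain ⟨l, rfl⟩ := Nat.dvd_of_mod_eq_zero hmod
  have hl : 1 ≤ l := by
    rcases Nat.eq_zero_or_pos l with rfl | h1
    · omega
    · exact h1
  have hgl : g^[l] (toTorus x₀) = toTorus x₀ := by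
    apply hθi
    rw [← theta_iter hdyn]
    exact hperθ
  obtain ⟨A, hA, hAl, hB⟩ := noBdd_lift hH hl hgl
  have hAi : ContDiff ℝ 1 (A^[l]) := by
    clear hB hgl hperθ hmod hper hk
    induction l with
    | zero => exact contDiff_id
    | succ l ih =>
      rw [Function.iterate_succ']
      rcases Nat.eq_zero_or_pos l with rfl | h1
      · exact hA.comp contDiff_id
      · exact hA.comp (ih h1)
  set B := fderiv ℝ (A^[l]) x₀ with hBdef
  have hBd : HasFDerivAt (A^[l]) B x₀ := (hAi.differentiable (by norm_num) x₀).hasFDerivAt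
  obtain ⟨w, hw, hw'⟩ : ∃ w : Fin d → ℝ, IsI w ∧ A^[l] x₀ = x₀ + w := by
    have h1 : toTorus x₀ = toTorus (A^[l] x₀) := by rw [lift_iter hAl, hgl]
    exact ⟨A^[l] x₀ - x₀, (tor_eq_iff _ _).1 h1, by abel⟩
  -- the map in the chart
  have hloc : ContDiffAt ℝ 1 (fun v => ψ (G^[m * l] (ψ.symm v))) (ψ (E v₀)) :=
    cda2 (iter1 hr G (m * l)) hψ hψ hp (by rw [hper]; exact hp)
  rw [hψp] at hloc ⊢
  set a := fderiv ℝ (fun v => ψ (G^[m * l] (ψ.symm v))) v₀ with ha
  have had : HasFDerivAt (fun v => ψ (G^[m * l] (ψ.symm v))) a v₀ :=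
    (hloc.differentiableAt (by norm_num)).hasFDerivAt
  have hemb : Tendsto (fun ξ : Fin d → ℝ => v₀ + em n d ξ) (𝓝 0) (𝓝 v₀) := by
    have h1 : Continuous fun ξ : Fin d → ℝ => v₀ + em n d ξ := by fun_prop
    have h2 := h1.tendsto 0
    rwa [map_zero, add_zero] at h2
  have hAt : Tendsto (fun ξ : Fin d → ℝ => em n d (A^[l] (x₀ + ξ) - w)) (𝓝 0) (𝓝 v₀) := by
    have h1 : Continuous fun ξ : Fin d → ℝ => em n d (A^[l] (x₀ + ξ) - w) :=
      (em n d).continuous.comp ((hAi.continuous.comp (continuous_const.add continuous_id)).sub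
        continuous_const)
    have h2 := h1.tendsto 0
    rwa [add_zero, hw', add_sub_cancel_right] at h2
  have htan : a ∘L em n d = em n d ∘L B := by
    have h1 : HasFDerivAt ((fun v => ψ (G^[m * l] (ψ.symm v))) ∘ fun ξ : Fin d → ℝ =>
        v₀ + em n d ξ) (a ∘L em n d) 0 := by
      refine HasFDerivAt.comp (0 : Fin d → ℝ) ?_ ((em n d).hasFDerivAt.const_add v₀)
      show HasFDerivAt _ a (v₀ + em n d 0)
      rw [map_zero, add_zero]
      exact had
    have h2 : HasFDerivAt (fun ξ : Fin d → ℝ => em n d (A^[l] (x₀ + ξ) - w)) (em n d ∘L B) 0 := by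
      have h3 : HasFDerivAt (fun ξ : Fin d → ℝ => A^[l] (x₀ + ξ) - w) B 0 := by
        have h4 : HasFDerivAt (A^[l]) B (x₀ + 0) := by rw [add_zero]; exact hBd
        have h5 : HasFDerivAt (fun ξ : Fin d → ℝ => x₀ + ξ) (ContinuousLinearMap.id ℝ _) 0 :=
          (hasFDerivAt_id (0 : Fin d → ℝ)).const_add x₀
        have h6 := HasFDerivAt.comp (0 : Fin d → ℝ) h4 h5
        rw [ContinuousLinearMap.comp_id] at h6
        exact h6.sub_const w
      exact (em n d).hasFDerivAt.comp (0 : Fin d → ℝ) h3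
    refine h1.unique (h2.congr_of_eventuallyEq ?_)
    filter_upwards [hemb.eventually (ψ.open_target.mem_nhds hv₀),
      hAt.eventually (ψ.open_target.mem_nhds hv₀)] with ξ k1 k2
    show ψ (G^[m * l] (ψ.symm (v₀ + em n d ξ))) = em n d (A^[l] (x₀ + ξ) - w)
    have k3 : v₀ + em n d ξ = emb n d (x₀ + ξ) := by
      rw [← em_apply, map_add]
      rfl
    rw [hψE _ k1, k3, ← hθE, theta_iter hdyn, ← lift_iter hAl l (x₀ + ξ),
      ← tor_sub_int (A^[l] (x₀ + ξ)) hw, hθE, ← em_apply, ← hψE _ k2, ψ.right_inv k2]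
  -- the function in the chart
  have hKs : ContDiff ℝ ∞ (fun v => h (E v)) := by
    rw [← contMDiff_iff_contDiff]
    exact hh.comp H.tube.smooth
  have hK2 : ContDiff ℝ 2 (fun v => h (E v)) :=
    hKs.of_le (WithTop.coe_le_coe.2 (le_top : (2 : ℕ∞) ≤ ⊤))
  have hinv : ∀ v (ξ : Fin d → ℝ), h (E (v + em n d ξ)) = h (E v) := by
    intro v ξ
    refine H.indep v _ ((qq_eq_iff v _).1 ?_)
    rw [map_add, qq_em, add_zero]
  have eK : (fun v => h (ψ.symm v)) =ᶠ[𝓝 v₀] fun v => h (E v) := by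
    filter_upwards [ψ.open_target.mem_nhds hv₀] with v hv
    rw [hψE v hv]
  have hcrit : IsCrit n h (E v₀) := H.core.2 (qq_em x₀)
  have hqc : Tendsto (fun u : V n => v₀ + qq n d u) (𝓝 0) (𝓝 v₀) := by
    have h1 : Continuous fun u : V n => v₀ + qq n d u := by fun_prop
    have h2 := h1.tendsto 0
    rwa [map_zero, add_zero] at h2
  have huc : Tendsto (fun u : V n => v₀ + u) (𝓝 0) (𝓝 v₀) := by
    have h1 : Continuous fun u : V n => v₀ + u := by fun_prop
    have h2 := h1.tendsto 0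
    rwa [add_zero] at h2
  obtain ⟨c, hc, hgr⟩ := grow_chart hh hcrit hgrow hψ hp (qq n d) qq_qq (by
      rw [hψp]
      filter_upwards [huc.eventually (eK.fderiv (𝕜 := ℝ)),
        hqc.eventually (eK.fderiv (𝕜 := ℝ))] with u k1 k2
      rw [k1, k2]
      exact fderiv_qq hinv hd v₀ u) (fun v hv => by
      rw [hψp, eK.fderiv.fderiv_eq] at hv
      exact (qq_zero_iff v).2 (hN x₀ v hv))
  intro v hbd hv
  have hq := qzero hr hh hm hG hΦ hcrit hk hper hψ hp (qq n d) hc hgr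
    (D := ‖fderiv ℝ (fderiv ℝ fun v => h (E v)) v₀‖)
    (ContinuousLinearMap.opNorm_nonneg (fderiv ℝ (fderiv ℝ fun v => h (E v)) v₀))
    (fun w => by
      rw [hψp, eK.fderiv.fderiv_eq]
      exact hess_bound hK2 hinv hd v₀ w) hbd (fun i => by rw [hψp]; exact hv i)
  have hvem : ∀ i, em n d (pr n hd (v i)) = v i := fun i => by
    have := em_pr_add hd (v i)
    rwa [hq i, add_zero] at this
  obtain ⟨C, hC⟩ := hbd
  have h0 := hB (fun i => pr n hd (v i)) ⟨‖pr n hd‖ * C, fun i => ((pr n hd).le_opNorm _).trans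
    (mul_le_mul_of_nonneg_left (hC i) (pr n hd).opNorm_nonneg)⟩ fun i => by
      show pr n hd (v (i + 1)) = B (pr n hd (v i))
      have e1 : a (em n d (pr n hd (v i))) = em n d (B (pr n hd (v i))) :=
        congrArg (fun M : (Fin d → ℝ) →L[ℝ] V n => M (pr n hd (v i))) htan
      rw [hv i, ← pr_em hd (B (pr n hd (v i))), ← e1, hvem]
  intro i
  have h0' : pr n hd (v i) = 0 := h0 i
  rw [← hvem i, h0', map_zero]

end core

end Pool.Agent.Q192.FT
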