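import Pool.Agent.Q192.FT.Tor

/-!
# Coordinates of the tube, and perturbations of the identity of class `C^r`

Author: helper192.
-/

set_option autoImplicit false

open scoped Manifold ContDiff Topology NNReal
open Filter Set Metric

namespace Pool.Agent.Q192.FT

open Pool.Agent.H718R2.G Pool.Agent.H728R2.OS Pool.Agent.W564.SC

/-- `C^r` perturbations of the identity by a `1/2`-Lipschitz map (after `W782.SC.perturb`) -/
theorem perturbR {E : Type*} [NormedAddCommGroup E] [NormedSpace ℝ E] [CompleteSpace E]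
    {r : ℕ∞} (hr : 1 ≤ r) (g : E → E) (hg : ContDiff ℝ r g) {K : ℝ≥0} (hK : K ≤ 1 / 2)
    (hl : LipschitzWith K g) :
    ∃ F : E ≃ₜ E, ContDiff ℝ r F ∧ ContDiff ℝ r F.symm ∧ ∀ v, F v = v + g v := by
  set f : E → E := fun v => v + g v with hf
  have hfs : ContDiff ℝ r f := contDiff_id.add hg
  have hr0 : (r : WithTop ℕ∞) ≠ 0 := by
    intro h
    have : r = 0 := by exact_mod_cast h
    rw [this] at hr
    exact absurd hr (by norm_num)
  have hA : ApproximatesLinearOn f ((ContinuousLinearEquiv.refl ℝ E : E ≃L[ℝ] E) :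
      E →L[ℝ] E) univ K := by
    intro x _ y _
    have : f x - f y - ((ContinuousLinearEquiv.refl ℝ E : E ≃L[ℝ] E) :
        E →L[ℝ] E) (x - y) = g x - g y := by
      simp only [hf, ContinuousLinearEquiv.coe_coe, ContinuousLinearEquiv.coe_refl']
      simp only [id]
      abel
    rw [this]
    exact hl.norm_sub_le x y
  have hc : Subsingleton E ∨ K <
      ‖(((ContinuousLinearEquiv.refl ℝ E : E ≃L[ℝ] E).symm : E ≃L[ℝ] E) :
        E →L[ℝ] E)‖₊⁻¹ := by
    rcases subsingleton_or_nontrivial E with h | h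
    · exact Or.inl h
    · right
      have h1 : ‖(((ContinuousLinearEquiv.refl ℝ E : E ≃L[ℝ] E).symm : E ≃L[ℝ] E) :
          E →L[ℝ] E)‖₊ = 1 := by
        have : (((ContinuousLinearEquiv.refl ℝ E : E ≃L[ℝ] E).symm : E ≃L[ℝ] E) :
            E →L[ℝ] E) = ContinuousLinearMap.id ℝ E := rfl
        rw [this]
        apply NNReal.coe_injective
        rw [coe_nnnorm]
        exact ContinuousLinearMap.norm_id
      rw [h1, inv_one]
      refine lt_of_le_of_lt hK ?_
      rw [div_lt_one (by norm_num)]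
      norm_num
  let H : E ≃ₜ E := hA.toHomeomorph f hc
  have hH : ⇑H = f := rfl
  have hD : ∀ a : E, ∃ e : E ≃L[ℝ] E, HasFDerivAt f (e : E →L[ℝ] E) a := by
    intro a
    have hga : HasFDerivAt g (fderiv ℝ g a) a :=
      (hg.differentiable hr0).differentiableAt.hasFDerivAt
    have hn : ‖fderiv ℝ g a‖ ≤ 1 / 2 := by
      have h1 := norm_fderiv_le_of_lipschitz ℝ hl (x₀ := a)
      refine h1.trans ?_
      have : (K : ℝ) ≤ ((1 / 2 : ℝ≥0) : ℝ) := by exact_mod_cast hK
      simpa using this
    have hn' : ‖-fderiv ℝ g a‖ < 1 := by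
      rw [norm_neg]
      linarith
    refine ⟨ContinuousLinearEquiv.unitsEquiv ℝ E (Units.oneSub (-fderiv ℝ g a) hn'), ?_⟩
    have h1 : HasFDerivAt f (ContinuousLinearMap.id ℝ E + fderiv ℝ g a) a :=
      (hasFDerivAt_id a).add hga
    have h2 : ((ContinuousLinearEquiv.unitsEquiv ℝ E (Units.oneSub (-fderiv ℝ g a) hn') :
        E ≃L[ℝ] E) : E →L[ℝ] E) = ContinuousLinearMap.id ℝ E + fderiv ℝ g a := by
      apply ContinuousLinearMap.ext
      intro v
      change ((Units.oneSub (-fderiv ℝ g a) hn' : (E →L[ℝ] E)ˣ) : E →L[ℝ] E) v = _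
      rw [Units.val_oneSub, sub_neg_eq_add]
      rfl
    rw [h2]
    exact h1
  choose e he using hD
  exact ⟨H, hfs, Homeomorph.contDiff_symm H (f₀' := e) he hfs, fun v => rfl⟩

/-- the last coordinates -/
noncomputable def qq (n d : ℕ) : V n →L[ℝ] V n :=
  LinearMap.toContinuousLinearMap
    { toFun := fun v => WithLp.toLp 2 fun i : Fin n => if (i : ℕ) < d then 0 else v i
      map_add' := fun v w => by
        ext i
        by_cases h : (i : ℕ) < d
        · simp [h]
        · simp [h]
      map_smul' := fun c v => by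
        ext i
        by_cases h : (i : ℕ) < d
        · simp [h]
        · simp [h] }

/-- the first coordinates -/
noncomputable def pr (n : ℕ) {d : ℕ} (h : d ≤ n) : V n →L[ℝ] (Fin d → ℝ) :=
  LinearMap.toContinuousLinearMap
    { toFun := fun v i => v (Fin.castLE h i)
      map_add' := fun v w => by
        ext i
        simp
      map_smul' := fun c v => by
        ext i
        simp }

/-- the inclusion -/
noncomputable def em (n d : ℕ) : (Fin d → ℝ) →L[ℝ] V n :=
  LinearMap.toContinuousLinearMap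
    { toFun := emb n d
      map_add' := fun v w => by
        ext i
        by_cases h : (i : ℕ) < d
        · simp [emb, h]
        · simp [emb, h]
      map_smul' := fun c v => by
        ext i
        by_cases h : (i : ℕ) < d
        · simp [emb, h]
        · simp [emb, h] }

variable {n d : ℕ} (hd : d ≤ n)

theorem em_apply (x : Fin d → ℝ) : em n d x = emb n d x := rfl

theorem qq_apply (v : V n) (i : Fin n) : qq n d v i = if (i : ℕ) < d then 0 else v i := rfl

theorem pr_apply (v : V n) (i : Fin d) : pr n hd v i = v (Fin.castLE hd i) := rfl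

theorem emb_lt (x : Fin d → ℝ) (i : Fin n) (h : (i : ℕ) < d) : emb n d x i = x ⟨i, h⟩ := by
  show (if h : (i : ℕ) < d then x ⟨i, h⟩ else 0) = _
  rw [dif_pos h]

theorem emb_ge (x : Fin d → ℝ) (i : Fin n) (h : d ≤ (i : ℕ)) : emb n d x i = 0 := by
  show (if h : (i : ℕ) < d then x ⟨i, h⟩ else 0) = _
  rw [dif_neg (not_lt.2 h)]

theorem pr_em (x : Fin d → ℝ) : pr n hd (em n d x) = x := by
  funext i
  rw [pr_apply, em_apply, emb_lt x _ (by exact i.2)]
  rfl

theorem qq_em (x : Fin d → ℝ) : qq n d (em n d x) = 0 := by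
  ext i
  rw [qq_apply]
  by_cases h : (i : ℕ) < d
  · rw [if_pos h]
    rfl
  · rw [if_neg h, em_apply, emb_ge x i (not_lt.1 h)]
    rfl

theorem em_pr_add (v : V n) : em n d (pr n hd v) + qq n d v = v := by
  ext i
  show em n d (pr n hd v) i + qq n d v i = v i
  rw [qq_apply, em_apply]
  by_cases h : (i : ℕ) < d
  · rw [if_pos h, emb_lt _ i h, add_zero, pr_apply]
    rfl
  · rw [if_neg h, emb_ge _ i (not_lt.1 h), zero_add]

theorem pr_qq (v : V n) : pr n hd (qq n d v) = 0 := by
  funext i
  rw [pr_apply, qq_apply, if_pos (by exact i.2)]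
  rfl

theorem qq_qq (v : V n) : qq n d (qq n d v) = qq n d v := by
  ext i
  rw [qq_apply, qq_apply]
  by_cases h : (i : ℕ) < d
  · rw [if_pos h, if_pos h]
  · rw [if_neg h, if_neg h]

theorem qq_eq_iff (v w : V n) :
    qq n d w = qq n d v ↔ ∀ i : Fin n, d ≤ (i : ℕ) → w i = v i := by
  constructor
  · intro h i hi
    have h1 : qq n d w i = qq n d v i := by rw [h]
    rwa [qq_apply, qq_apply, if_neg (not_lt.2 hi), if_neg (not_lt.2 hi)] at h1
  · intro h
    ext i
    rw [qq_apply, qq_apply]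
    by_cases hi : (i : ℕ) < d
    · rw [if_pos hi, if_pos hi]
    · rw [if_neg hi, if_neg hi, h i (not_lt.1 hi)]

theorem qq_zero_iff (v : V n) : qq n d v = 0 ↔ ∀ i : Fin n, d ≤ (i : ℕ) → v i = 0 := by
  have h := qq_eq_iff (n := n) (d := d) 0 v
  rw [map_zero] at h
  rw [h]
  rfl

theorem pr_int_iff (v w : V n) : IsI (pr n hd w - pr n hd v) ↔
    ∀ i : Fin n, (i : ℕ) < d → ∃ a : ℤ, w i = v i + a := by
  constructor
  · intro h i hi
    obtain ⟨a, ha⟩ := h ⟨i, hi⟩
    refine ⟨a, ?_⟩
    rw [Pi.sub_apply, pr_apply, pr_apply] at ha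
    have : w i - v i = a := ha
    linarith
  · intro h i
    obtain ⟨a, ha⟩ := h (Fin.castLE hd i) i.2
    refine ⟨a, ?_⟩
    rw [Pi.sub_apply, pr_apply, pr_apply, ha]
    ring

theorem core_iff (hd : d ≤ n) (v : V n) : qq n d v = 0 ↔ ∃ x, v = emb n d x := by
  constructor
  · intro h
    refine ⟨pr n hd v, ?_⟩
    have h1 := em_pr_add hd v
    rw [h, add_zero] at h1
    exact h1.symm
  · rintro ⟨x, rfl⟩
    exact qq_em x

end Pool.Agent.Q192.FT
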