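import Pool.Agent.Q192.FT.Hyp2
import Pool.Agent.Y318.MN.Cyc

/-!
# No cycles

Author: helper192. The proof of `no_cycle2` follows the proof of `no_cycle` of helper318
(`Pool/Agent/Y318/MN/Cyc.lean`).
-/

set_option autoImplicit false
set_option linter.unusedSectionVars false

open scoped Manifold ContDiff Topology NNReal
open Filter Set Metric

universe u

namespace Pool.Agent.Q192.FT

open Pool.Agent.H718R2.G Pool.Agent.TH80.OMS Pool.Agent.Y504.CO Pool.Agent.Y318.MN

open Pool.Agent.H728R2.OS (Torus toTorus IsLift IsHyperbolic ChainRec)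

theorem stab_dist {X : Type u} [MetricSpace X] {g : X → X} {x z : X} (h : z ∈ StabSet g x)
    (δ : ℝ) (hδ : 0 < δ) : ∃ K : ℕ, ∀ k ≥ K, dist (g^[k] x) (g^[k] z) < δ := by
  have hV : IsOpen {p : X × X | dist p.1 p.2 < δ} :=
    isOpen_lt (continuous_fst.dist continuous_snd) continuous_const
  obtain ⟨K, hK⟩ := h _ hV fun w => by
    show dist w w < δ
    rw [dist_self]
    exact hδ
  exact ⟨K, fun k hk => hK k hk⟩

section

variable {n : ℕ} {N : Type u} [MetricSpace N] [CompactSpace N]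
  [ChartedSpace (V n) N] [IsManifold (𝓡 n) ∞ N] {r : ℕ∞} {F G : DiffM n N r} {h : N → ℝ}
  {Φ : N → N}

theorem no_cycle2 (hc : Continuous h) (hm : ∀ x, h x ≤ h (F x)) (hG : ∀ y, G y = F (Φ y))
    (hΦ : IsPush n h univ Φ) {C : Set N} (hCC : CritInv n F h ⊆ C)
    (hfw : ∀ x, G x ∈ C ↔ x ∈ C) (hR : ∀ x ∈ C, Reach G C x x → ∃ k : ℕ, 1 ≤ k ∧ G^[k] x = x)
    (hOf : (Omega G).Finite) : FiniteNoCycle G := by
  have hsubC : Omega G ⊆ C := (omega_sub hc hm hG hΦ).trans hCC
  refine ⟨hOf, ?_⟩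
  intro k O hinj hO hcyc
  choose p hp hpO using hO
  choose x hx x' hx' z hz hz' using hcyc
  -- points of the orbits
  have hmem : ∀ i, ∀ y ∈ O i, y ∈ Omega G ∧ h y = h (p i) ∧ y ∈ Per G := by
    intro i y hy
    rw [hpO i] at hy
    obtain ⟨j, rfl⟩ := hy
    obtain ⟨m, hm1, hmp⟩ := hp i
    have h1 : p i ∈ Omega G := per_mem_omega hm1 hmp
    refine ⟨(omega_iter hc hm hG hΦ h1 j).2, (h_omega hc hm hG hΦ h1 j).1, m, hm1, ?_⟩
    rw [← Function.iterate_add_apply, add_comm, Function.iterate_add_apply, hmp]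
  have hup : ∀ i k, h (G^[k] (z i)) ≤ h (p (i + 1)) := by
    intro i k
    have h1 := hmem (i + 1) (x' i) (hx' i)
    rw [← h1.2.1]
    exact le_of_stab hc (g_mono hm hG hΦ) (fun k => (h_omega hc hm hG hΦ h1.1 k).1) (hz' i) k
  have hmono' : ∀ x, h (G.symm x) ≤ h x := by
    intro x
    have := g_mono hm hG hΦ (G.symm x)
    rwa [G.apply_symm_apply] at this
  have hlo : ∀ i k, h (p i) ≤ h (G.symm^[k] (z i)) := by
    intro i k
    have h1 := hmem i (x i) (hx i)
    rw [← h1.2.1]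
    have h2 := le_of_stab (g := G.symm) (h := fun y => - h y) hc.neg
      (fun y => neg_le_neg (hmono' y)) (x := x i) (z := z i)
      (fun k => by rw [(h_omega hc hm hG hΦ h1.1 k).2]) (hz i) k
    exact neg_le_neg_iff.1 h2
  have hle : ∀ i, h (p i) ≤ h (p (i + 1)) := fun i => (hlo i 0).trans (hup i 0)
  have heq : ∀ i, h (p i) = h (p (i + 1)) := by
    have hs : ∑ i, h (p (i + 1)) = ∑ i, h (p i) :=
      Equiv.sum_comp (Equiv.addRight (1 : Fin (k + 2))) fun i => h (p i)
    intro i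
    exact (Finset.sum_eq_sum_iff_of_le (s := Finset.univ) fun i _ => hle i).1 hs.symm i
      (Finset.mem_univ i)
  -- the connecting orbits are critical
  have hup0 : ∀ (w : N) (k : ℕ), h w ≤ h (G^[k] w) := fun w k => g_mono_iter hm hG hΦ w k
  have hlo0 : ∀ (w : N) (k : ℕ), h (G.symm^[k] w) ≤ h w := by
    intro w k
    induction k with
    | zero => exact le_rfl
    | succ k ih => rw [Function.iterate_succ_apply']; exact (hmono' _).trans ih
  have hcr : ∀ i, z i ∈ CritInv n F h := by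
    intro i
    refine critInv_of_const hm hG hΦ (a := h (p i)) fun k => ⟨?_, ?_⟩
    · refine le_antisymm ((hup i k).trans (heq i).symm.le) ?_
      exact (hlo i 0).trans (hup0 _ k)
    · refine le_antisymm ?_ (hlo i k)
      exact (hlo0 _ k).trans ((hup i 0).trans (heq i).symm.le)
  have hzC : ∀ i, z i ∈ C := fun i => hCC (hcr i)
  have hOC : ∀ i, ∀ y ∈ O i, y ∈ C := fun i y hy => hsubC (hmem i y hy).1
  -- the chain
  have hstep : ∀ i, Reach G C (z i) (z (i + 1)) := by
    intro i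
    obtain ⟨a, ha, ha'⟩ := (hmem (i + 1) (x' i) (hx' i)).2.2
    obtain ⟨b, hb, hb'⟩ := (hmem (i + 1) (x (i + 1)) (hx (i + 1))).2.2
    obtain ⟨j, hj⟩ : ∃ j : ℕ, G^[j] (x' i) = x (i + 1) := by
      have h1 : x' i ∈ Pool.Agent.Y504.CO.orb G (p (i + 1)) := by
        have := hx' i
        rw [hpO (i + 1)] at this
        exact this
      have h2 : x (i + 1) ∈ Pool.Agent.Y504.CO.orb G (x' i) := by
        rw [Pool.Agent.Y504.CO.orb_eq (hp (i + 1)) h1]
        have := hx (i + 1)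
        rw [hpO (i + 1)] at this
        exact this
      obtain ⟨j, hj⟩ := h2
      exact ⟨j, hj⟩
    have r1 := reach_of_stab (G := (G : N → N)) (fun x hx => (hfw x).2 hx) (hzC i)
      (hOC _ _ (hx' i)) ha ha' (stab_dist (hz' i)) j
    rw [hj] at r1
    have r2 := reach_of_unstab G.toHomeomorph hfw (hzC (i + 1)) (hOC _ _ (hx (i + 1))) hb hb'
      (stab_dist (hz (i + 1)))
    exact r1.trans r2
  have hsucc : ∀ j : ℕ, Fin.ofNat (k + 2) j + 1 = Fin.ofNat (k + 2) (j + 1) := by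
    intro j
    apply Fin.ext
    simp [Fin.val_add, Nat.add_mod]
  have hround : ∀ j : ℕ, Reach G C (z (Fin.ofNat (k + 2) 0)) (z (Fin.ofNat (k + 2) (j + 1))) := by
    intro j
    induction j with
    | zero =>
      rw [← hsucc]
      exact hstep _
    | succ j ih =>
      rw [← hsucc (j + 1)]
      exact ih.trans (hstep _)
  have hclosed : Reach G C (z 0) (z 0) := by
    have h1 := hround (k + 1)
    have e : Fin.ofNat (k + 2) (k + 1 + 1) = 0 := by
      apply Fin.ext
      simp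
    have e' : Fin.ofNat (k + 2) 0 = 0 := rfl
    rwa [e, e'] at h1
  obtain ⟨b, hb1, hb⟩ := hR _ (hzC 0) hclosed
  obtain ⟨a, ha1, ha⟩ := (hmem 0 (x 0) (hx 0)).2.2
  obtain ⟨a', ha1', ha'⟩ := (hmem (0 + 1) (x' 0) (hx' 0)).2.2
  have e1 : x' 0 = z 0 := eq_of_stab ha1' hb1 ha' hb (hz' 0)
  have e2 : x 0 = z 0 := eq_of_stab (g := G.symm) ha1 hb1 (symm_per G ha) (symm_per G hb) (hz 0)
  have h1 : z 0 ∈ Pool.Agent.Y504.CO.orb G (p 0) := by
    have := hx 0
    rw [hpO 0, e2] at this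
    exact this
  have h2 : z 0 ∈ Pool.Agent.Y504.CO.orb G (p (0 + 1)) := by
    have := hx' 0
    rw [hpO (0 + 1), e1] at this
    exact this
  have h3 : O 0 = O (0 + 1) := by
    rw [hpO 0, hpO (0 + 1)]
    exact (Pool.Agent.Y504.CO.orb_eq (hp 0) h1).symm.trans
      (Pool.Agent.Y504.CO.orb_eq (hp (0 + 1)) h2)
  have h4 := hinj h3
  have h5 : (1 : Fin (k + 2)) = 0 := by
    rw [zero_add] at h4
    exact h4.symm
  exact absurd h5 (by simp)

end

/-- two disjoint compact sets have positive distance -/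
theorem iso_of_closed {X : Type u} [MetricSpace X] {A B C : Set X} (hA : IsCompact A)
    (hB : IsClosed B) (hd : Disjoint A B) (hC : C ⊆ A ∪ B) :
    ∃ ρ : ℝ, 0 < ρ ∧ ∀ a ∈ A, ∀ c ∈ C, dist a c < ρ → c ∈ A := by
  obtain ⟨δ, hδ, h⟩ := hd.exists_thickenings hA hB
  refine ⟨δ, hδ, fun a ha c hc hac => ?_⟩
  rcases hC hc with h1 | h1
  · exact h1
  · exfalso
    have h2 : c ∈ thickening δ A := by
      rw [mem_thickening_iff]
      exact ⟨a, ha, by rw [dist_comm]; exact hac⟩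
    exact (Set.disjoint_left.1 h) h2 (self_subset_thickening hδ B h1)

/-- chain recurrence in a torus of a cycle -/
theorem reach_cyc {X : Type u} [MetricSpace X] [CompactSpace X] (G : X ≃ₜ X) {C : Set X} {d m : ℕ}
    {θ : Torus d → X} (hθ : Continuous θ) (hinj : Function.Injective θ)
    (g : Torus d ≃ₜ Torus d) (hconj : ∀ t, G^[m] (θ t) = θ (g t)) {i : ℕ} {ρ : ℝ} (hρ : 0 < ρ)
    (hiso : ∀ a ∈ (fun t => G^[i] (θ t)) '' univ, ∀ c ∈ C, dist a c < ρ →
      c ∈ (fun t => G^[i] (θ t)) '' univ) {t : Torus d}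
    (h : Reach G C (G^[i] (θ t)) (G^[i] (θ t))) : t ∈ ChainRec g := by
  have hci : ∀ s, G^[m] (G^[i] (θ s)) = G^[i] (θ (g s)) := by
    intro s
    rw [← Function.iterate_add_apply, add_comm, Function.iterate_add_apply, hconj]
  have h1 := reach_pow G.continuous m h
  have h2 := reach_piece h1 (A := (fun t => G^[i] (θ t)) '' univ) ⟨t, mem_univ _, rfl⟩ (by
    rintro _ ⟨s, -, rfl⟩
    exact ⟨g s, mem_univ _, (hci s).symm⟩) hρ hiso
  rw [image_univ] at h2
  exact chain_of_reach (φ := fun t => G^[i] (θ t)) ((G.continuous.iterate i).comp hθ)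
    ((G.injective.iterate i).comp hinj) g hci h2

end Pool.Agent.Q192.FT
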