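import Pool.Agent.Q192.FT.Lin

/-!
# Perturbations along the torus coordinates of a tube

Author: helper192.
-/

set_option autoImplicit false
set_option linter.unusedSectionVars false

open scoped Manifold ContDiff Topology NNReal
open Filter Set Metric

universe u

namespace Pool.Agent.Q192.FT

open Pool.Agent.H718R2.G Pool.Agent.H728R2.OS Pool.Agent.W564.SC

section lin

variable {n d : ℕ} (hd : d ≤ n)

/-- the cut-off -/
noncomputable def bmp (n : ℕ) : ContDiffBump (0 : V n) := ⟨1 / 2, 1, by norm_num, by norm_num⟩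

theorem bmp_zero : bmp n (0 : V n) = 1 := by
  apply (bmp n).one_of_mem_closedBall
  rw [mem_closedBall, dist_self]
  exact (bmp n).rIn_pos.le

theorem bmp_out {v : V n} (hv : 1 ≤ ‖v‖) : bmp n v = 0 := by
  apply (bmp n).zero_of_le_dist
  rw [dist_zero_right]
  exact hv

/-- the displacement -/
noncomputable def Yu (u : (Fin d → ℝ) → (Fin d → ℝ)) (v : V n) : V n :=
  bmp n (qq n d v) • em n d (u (pr n hd v))

theorem Yu_smooth {r : ℕ∞} {u : (Fin d → ℝ) → (Fin d → ℝ)} (hu : ContDiff ℝ r u) :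
    ContDiff ℝ r (Yu hd u) := by
  have h1 : ContDiff ℝ r fun v : V n => bmp n (qq n d v) :=
    ((bmp n).contDiff (n := r)).comp (qq n d).contDiff
  have h2 : ContDiff ℝ r fun v : V n => em n d (u (pr n hd v)) :=
    (em n d).contDiff.comp (hu.comp (pr n hd).contDiff)
  exact h1.smul h2

theorem Yu_lip : ∃ c : ℝ, 0 < c ∧ ∀ u : (Fin d → ℝ) → (Fin d → ℝ), ContDiff ℝ 1 u →
    (∀ j ≤ 1, ∀ x, ‖iteratedFDeriv ℝ j u x‖ ≤ c) → LipschitzWith (1 / 2) (Yu hd u) := by
  obtain ⟨L, hL⟩ := ContDiff.lipschitzWith_of_hasCompactSupport (𝕂 := ℝ) (n := ∞)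
    (bmp n).hasCompactSupport (bmp n).contDiff (by simp)
  set B : ℝ := (L * ‖qq n d‖ + ‖pr n hd‖) * ‖em n d‖ with hB
  have hB0 : 0 ≤ B := by positivity
  refine ⟨1 / (2 * (B + 1)), by positivity, fun u hu hub => ?_⟩
  set c : ℝ := 1 / (2 * (B + 1)) with hc
  have hc0 : 0 < c := by positivity
  have hBc : B * c ≤ 1 / 2 := by
    rw [hc, mul_one_div, div_le_div_iff₀ (by positivity) (by norm_num)]
    linarith
  have hu0 : ∀ x, ‖u x‖ ≤ c := fun x => by
    have := hub 0 (by norm_num) x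
    rwa [norm_iteratedFDeriv_zero] at this
  have hu1 : ∀ x, ‖fderiv ℝ u x‖ ≤ c := fun x => by
    have h1 := hub 1 le_rfl x
    rwa [← zero_add 1, ← norm_iteratedFDeriv_fderiv, norm_iteratedFDeriv_zero] at h1
  have hul : ∀ x y, ‖u x - u y‖ ≤ c * ‖x - y‖ := by
    intro x y
    exact Convex.norm_image_sub_le_of_norm_fderiv_le (𝕜 := ℝ) (s := univ)
      (fun z _ => (hu.differentiable (by simp)) z) (fun z _ => hu1 z) convex_univ
      (mem_univ y) (mem_univ x)
  refine LipschitzWith.of_dist_le_mul fun v w => ?_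
  rw [dist_eq_norm, dist_eq_norm]
  have e : Yu hd u v - Yu hd u w =
      (bmp n (qq n d v) - bmp n (qq n d w)) • em n d (u (pr n hd v)) +
        bmp n (qq n d w) • em n d (u (pr n hd v) - u (pr n hd w)) := by
    unfold Yu
    rw [map_sub, sub_smul, smul_sub]
    abel
  have h1 : ‖(bmp n (qq n d v) - bmp n (qq n d w)) • em n d (u (pr n hd v))‖ ≤
      (L * (‖qq n d‖ * ‖v - w‖)) * (‖em n d‖ * c) := by
    rw [norm_smul]
    refine mul_le_mul ?_ ?_ (norm_nonneg _) (by positivity)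
    · refine (hL.norm_sub_le _ _).trans ?_
      rw [← map_sub]
      exact mul_le_mul_of_nonneg_left ((qq n d).le_opNorm _) L.2
    · exact ((em n d).le_opNorm _).trans (mul_le_mul_of_nonneg_left (hu0 _) (norm_nonneg _))
  have h2 : ‖bmp n (qq n d w) • em n d (u (pr n hd v) - u (pr n hd w))‖ ≤
      ‖em n d‖ * (c * (‖pr n hd‖ * ‖v - w‖)) := by
    rw [norm_smul, Real.norm_eq_abs, abs_of_nonneg (bmp n).nonneg]
    have h3 : ‖em n d (u (pr n hd v) - u (pr n hd w))‖ ≤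
        ‖em n d‖ * (c * (‖pr n hd‖ * ‖v - w‖)) := by
      refine ((em n d).le_opNorm _).trans (mul_le_mul_of_nonneg_left ?_ (norm_nonneg _))
      refine (hul _ _).trans (mul_le_mul_of_nonneg_left ?_ hc0.le)
      rw [← map_sub]
      exact (pr n hd).le_opNorm _
    calc bmp n (qq n d w) * ‖em n d (u (pr n hd v) - u (pr n hd w))‖
        ≤ 1 * ‖em n d (u (pr n hd v) - u (pr n hd w))‖ :=
          mul_le_mul_of_nonneg_right (bmp n).le_one (norm_nonneg _)
      _ ≤ _ := by rw [one_mul]; exact h3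
  rw [e]
  refine (norm_add_le _ _).trans ((add_le_add h1 h2).trans ?_)
  have h3 : (L * (‖qq n d‖ * ‖v - w‖)) * (‖em n d‖ * c) +
      ‖em n d‖ * (c * (‖pr n hd‖ * ‖v - w‖)) = (B * c) * ‖v - w‖ := by
    rw [hB]
    ring
  rw [h3]
  have h4 : (((1 / 2 : ℝ≥0)) : ℝ) = 1 / 2 := by simp
  rw [h4]
  exact mul_le_mul_of_nonneg_right hBc (norm_nonneg _)

/-- The properties of the perturbation in the coordinates of the tube. -/
structure IsX (r : ℕ∞) (u : (Fin d → ℝ) → (Fin d → ℝ)) (X : V n ≃ₜ V n) : Prop where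
  smooth : ContDiff ℝ r X
  smooth' : ContDiff ℝ r X.symm
  eq : ∀ v, X v = v + Yu hd u v

theorem exists_X {r : ℕ∞} (hr : 1 ≤ r) : ∃ c : ℝ, 0 < c ∧
    ∀ u : (Fin d → ℝ) → (Fin d → ℝ), ContDiff ℝ r u →
    (∀ j ≤ 1, ∀ x, ‖iteratedFDeriv ℝ j u x‖ ≤ c) → ∃ X : V n ≃ₜ V n, IsX hd r u X := by
  obtain ⟨c, hc, h⟩ := Yu_lip (n := n) hd
  refine ⟨c, hc, fun u hu hub => ?_⟩
  have h1 : ContDiff ℝ 1 u := hu.of_le (by exact_mod_cast hr)
  obtain ⟨F, hF1, hF2, hF3⟩ := perturbR hr (Yu hd u) (Yu_smooth hd hu) le_rfl (h u h1 hub)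
  exact ⟨F, hF1, hF2, hF3⟩

variable {hd} {r : ℕ∞} {u : (Fin d → ℝ) → (Fin d → ℝ)} {X : V n ≃ₜ V n}

theorem IsX.qq_eq (hX : IsX hd r u X) (v : V n) : qq n d (X v) = qq n d v := by
  rw [hX.eq, map_add]
  unfold Yu
  rw [map_smul, qq_em, smul_zero, add_zero]

theorem IsX.qq_symm (hX : IsX hd r u X) (v : V n) : qq n d (X.symm v) = qq n d v := by
  have h := hX.qq_eq (X.symm v)
  rw [X.apply_symm_apply] at h
  exact h.symm

theorem IsX.out (hX : IsX hd r u X) {v : V n} (hv : 1 ≤ ‖qq n d v‖) : X v = v := by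
  rw [hX.eq]
  unfold Yu
  rw [bmp_out hv, zero_smul, add_zero]

theorem IsX.out_symm (hX : IsX hd r u X) {v : V n} (hv : 1 ≤ ‖qq n d v‖) : X.symm v = v := by
  rw [X.symm_apply_eq]
  exact (hX.out hv).symm

theorem IsX.add (hX : IsX hd r u X) (hu : ∀ x w, IsI w → u (x + w) = u x) (v : V n)
    {k : Fin d → ℝ} (hk : IsI k) : X (v + em n d k) = X v + em n d k := by
  rw [hX.eq, hX.eq]
  unfold Yu
  rw [map_add, qq_em, add_zero, map_add, pr_em, hu _ _ hk]
  abel

theorem IsX.add_symm (hX : IsX hd r u X) (hu : ∀ x w, IsI w → u (x + w) = u x) (v : V n)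
    {k : Fin d → ℝ} (hk : IsI k) : X.symm (v + em n d k) = X.symm v + em n d k := by
  rw [X.symm_apply_eq, hX.add hu _ hk, X.apply_symm_apply]

theorem IsX.core (hX : IsX hd r u X) (x : Fin d → ℝ) : X (emb n d x) = emb n d (x + u x) := by
  rw [hX.eq]
  unfold Yu
  rw [← em_apply, qq_em, bmp_zero, one_smul, pr_em, ← map_add]
  rfl

end lin

section man

variable {n d : ℕ} {N : Type u} [TopologicalSpace N] [ChartedSpace (V n) N]
  [IsManifold (𝓡 n) ∞ N]

/-- an embedded `𝕋^d × ℝ^(n-d)` -/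
structure Tube (n d : ℕ) {N : Type u} [TopologicalSpace N] [ChartedSpace (V n) N]
    (E : V n → N) : Prop where
  chart : ∀ v, ∃ χ ∈ IsManifold.maximalAtlas (𝓡 n) ∞ N, v ∈ χ.target ∧
    ∀ w ∈ χ.target, χ.symm w = E w
  inj : ∀ v w, E v = E w ↔ ∃ k : Fin d → ℝ, IsI k ∧ w = v + em n d k

theorem tube_of {E : V n → N} (hd : d ≤ n)
    (hch : ∀ v, ∃ χ ∈ IsManifold.maximalAtlas (𝓡 n) ∞ N, v ∈ χ.target ∧
      ∀ w ∈ χ.target, χ.symm w = E w)
    (hinj : ∀ v w, E v = E w ↔ (∀ i : Fin n, (i : ℕ) < d → ∃ a : ℤ, w i = v i + a) ∧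
      ∀ i : Fin n, d ≤ (i : ℕ) → w i = v i) : Tube n d E := by
  refine ⟨hch, fun v w => ?_⟩
  rw [hinj, ← pr_int_iff hd, ← qq_eq_iff]
  constructor
  · rintro ⟨h1, h2⟩
    refine ⟨_, h1, ?_⟩
    rw [map_sub]
    have e1 := em_pr_add hd v
    have e2 := em_pr_add hd w
    rw [h2] at e2
    rw [← e2]
    conv_rhs => rw [← e1]
    rw [map_add (pr n hd), map_add (em n d), pr_em, pr_qq, map_zero, map_add (pr n hd),
      map_add (em n d), pr_em, pr_qq, map_zero]
    abel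
  · rintro ⟨k, hk, rfl⟩
    rw [map_add, pr_em, add_sub_cancel_left, map_add, qq_em, add_zero]
    exact ⟨hk, rfl⟩

variable {E : V n → N} (hE : Tube n d E)

include hE in
theorem Tube.smooth : ContMDiff (𝓡 n) (𝓡 n) ∞ E := by
  intro v
  obtain ⟨χ, hχ, hv, h⟩ := hE.chart v
  have h1 : ContMDiffAt (𝓡 n) (𝓡 n) ∞ χ.symm v := contMDiffAt_symm_of_mem_maximalAtlas hχ hv
  refine h1.congr_of_eventuallyEq ?_
  filter_upwards [χ.open_target.mem_nhds hv] with w hw
  exact (h w hw).symm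

/-- the image of the closed slab -/
def slab (n d : ℕ) {N : Type u} (E : V n → N) : Set N := E '' {v | ‖qq n d v‖ ≤ 1}

include hE in
theorem Tube.slab_compact (hd : d ≤ n) : IsCompact (slab n d E) := by
  -- a compact fundamental domain
  have hc : IsCompact {v : V n | ‖qq n d v‖ ≤ 1 ∧ pr n hd v ∈ Icc (0 : Fin d → ℝ) 1} := by
    have hcl : IsClosed {v : V n | ‖qq n d v‖ ≤ 1 ∧ pr n hd v ∈ Icc (0 : Fin d → ℝ) 1} :=
      (isClosed_le (qq n d).continuous.norm continuous_const).inter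
        (isClosed_Icc.preimage (pr n hd).continuous)
    obtain ⟨R, hR⟩ := (isCompact_Icc (a := (0 : Fin d → ℝ)) (b := 1)).isBounded.exists_norm_le
    refine Metric.isCompact_of_isClosed_isBounded hcl ?_
    refine (Metric.isBounded_closedBall (x := (0 : V n)) (r := ‖em n d‖ * R + 1)).subset ?_
    rintro v ⟨h1, h2⟩
    rw [mem_closedBall, dist_zero_right, ← em_pr_add hd v]
    refine (norm_add_le _ _).trans (add_le_add ?_ h1)
    exact ((em n d).le_opNorm _).trans (mul_le_mul_of_nonneg_left (hR _ h2) (norm_nonneg _))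
  have e : slab n d E = E '' {v : V n | ‖qq n d v‖ ≤ 1 ∧ pr n hd v ∈ Icc (0 : Fin d → ℝ) 1} := by
    apply subset_antisymm
    · rintro _ ⟨v, hv, rfl⟩
      set k : Fin d → ℝ := fun i => -((⌊pr n hd v i⌋ : ℤ) : ℝ) with hk
      have hkI : IsI k := fun i => ⟨-⌊pr n hd v i⌋, by rw [hk]; push_cast; rfl⟩
      refine ⟨v + em n d k, ⟨?_, ?_⟩, ((hE.inj _ _).2 ⟨k, hkI, rfl⟩).symm⟩
      · rw [map_add, qq_em, add_zero]
        exact hv
      · rw [map_add, pr_em]
        have h1 : ∀ i, (pr n hd v + k) i = Int.fract (pr n hd v i) := fun i => by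
          rw [Pi.add_apply, hk]
          exact (sub_eq_add_neg _ _).symm
        constructor
        · intro i
          rw [h1]
          exact Int.fract_nonneg _
        · intro i
          rw [h1]
          exact (Int.fract_lt_one _).le
    · rintro _ ⟨v, hv, rfl⟩
      exact ⟨v, hv.1, rfl⟩
  rw [e]
  exact hc.image hE.smooth.continuous

open Classical in
/-- the map of `N` induced by the map `X` of the tube -/
noncomputable def psi (E : V n → N) (X : V n → V n) (y : N) : N :=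
  if h : ∃ v, E v = y then E (X h.choose) else y

include hE in
theorem Tube.psi_E {X : V n → V n} (hX : ∀ v (k : Fin d → ℝ), IsI k → X (v + em n d k) =
    X v + em n d k) (v : V n) : psi E X (E v) = E (X v) := by
  have h : ∃ w, E w = E v := ⟨v, rfl⟩
  unfold psi
  rw [dif_pos h]
  have hw := h.choose_spec
  generalize h.choose = w at hw
  obtain ⟨k, hk, rfl⟩ := (hE.inj _ _).1 hw
  rw [hX _ _ hk]
  exact (hE.inj _ _).2 ⟨k, hk, rfl⟩

include hE in
theorem Tube.psi_out {X : V n → V n} (hX : ∀ v (k : Fin d → ℝ), IsI k → X (v + em n d k) =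
    X v + em n d k) (hX1 : ∀ v, 1 ≤ ‖qq n d v‖ → X v = v) {y : N} (hy : y ∉ slab n d E) :
    psi E X y = y := by
  by_cases h : ∃ v, E v = y
  · obtain ⟨v, rfl⟩ := h
    rw [hE.psi_E hX, hX1]
    by_contra hcon
    exact hy ⟨v, (not_le.1 hcon).le, rfl⟩
  · unfold psi
    rw [dif_neg h]

include hE in
theorem Tube.psi_inv {X X' : V n → V n} (hX : ∀ v (k : Fin d → ℝ), IsI k →
    X (v + em n d k) = X v + em n d k) (hX' : ∀ v (k : Fin d → ℝ), IsI k →
    X' (v + em n d k) = X' v + em n d k) (hXX : ∀ v, X' (X v) = v) (y : N) :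
    psi E X' (psi E X y) = y := by
  by_cases h : ∃ v, E v = y
  · obtain ⟨v, rfl⟩ := h
    rw [hE.psi_E hX, hE.psi_E hX', hXX]
  · have h1 : psi E X y = y := by
      unfold psi
      rw [dif_neg h]
    rw [h1]
    unfold psi
    rw [dif_neg h]

include hE in
theorem Tube.psi_smooth [T2Space N] (hd : d ≤ n) {r : ℕ∞} {X : V n → V n}
    (hXs : ContDiff ℝ r X) (hX : ∀ v (k : Fin d → ℝ), IsI k → X (v + em n d k) =
    X v + em n d k) (hX1 : ∀ v, 1 ≤ ‖qq n d v‖ → X v = v) :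
    ContMDiff (𝓡 n) (𝓡 n) r (psi E X) := by
  intro y
  by_cases hy : y ∈ slab n d E
  · obtain ⟨v, -, rfl⟩ := hy
    obtain ⟨χ, hχ, hv, h⟩ := hE.chart v
    have hsrc : E v ∈ χ.source := by
      rw [← h v hv]
      exact χ.map_target hv
    have hχv : χ (E v) = v := by
      rw [← h v hv, χ.right_inv hv]
    have h1 : ContMDiffAt (𝓡 n) (𝓡 n) r χ (E v) :=
      (contMDiffAt_of_mem_maximalAtlas hχ hsrc).of_le (by exact_mod_cast le_top)
    have h2 : ContMDiffAt (𝓡 n) (𝓡 n) r X (χ (E v)) := hXs.contDiffAt.contMDiffAt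
    have h3 : ContMDiffAt (𝓡 n) (𝓡 n) r E (X (χ (E v))) :=
      (hE.smooth _).of_le (by exact_mod_cast le_top)
    have h4 : ContMDiffAt (𝓡 n) (𝓡 n) r (E ∘ X ∘ χ) (E v) :=
      h3.comp (E v) (h2.comp (E v) h1)
    refine h4.congr_of_eventuallyEq ?_
    filter_upwards [χ.open_source.mem_nhds hsrc] with z hz
    have e : z = E (χ z) := by
      rw [← h _ (χ.map_source hz), χ.left_inv hz]
    conv_lhs => rw [e]
    rw [hE.psi_E hX]
    rfl
  · have hO : (slab n d E)ᶜ ∈ 𝓝 y := (hE.slab_compact hd).isClosed.isOpen_compl.mem_nhds hy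
    refine (contMDiffAt_id (I := 𝓡 n) (x := y)).congr_of_eventuallyEq ?_
    filter_upwards [hO] with z hz
    exact hE.psi_out hX hX1 hz

include hE in
/-- the diffeomorphism of `N` -/
theorem Tube.exists_psi [T2Space N] {hd : d ≤ n} {r : ℕ∞} {u : (Fin d → ℝ) → (Fin d → ℝ)}
    {X : V n ≃ₜ V n} (hX : IsX hd r u X) (hu : ∀ x w, IsI w → u (x + w) = u x) :
    ∃ Ψ : DiffM n N r, (∀ y, Ψ y = psi E X y) ∧ ∀ y, Ψ.symm y = psi E X.symm y := by
  have a1 : ∀ v (k : Fin d → ℝ), IsI k → X (v + em n d k) = X v + em n d k :=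
    fun v k hk => hX.add hu v hk
  have a2 : ∀ v (k : Fin d → ℝ), IsI k → X.symm (v + em n d k) = X.symm v + em n d k :=
    fun v k hk => hX.add_symm hu v hk
  refine ⟨⟨⟨psi E X, psi E X.symm, ?_, ?_⟩, ?_, ?_⟩, fun y => rfl, fun y => rfl⟩
  · exact hE.psi_inv a1 a2 X.symm_apply_apply
  · exact hE.psi_inv a2 a1 X.apply_symm_apply
  · exact hE.psi_smooth hd hX.smooth a1 fun v hv => hX.out hv
  · exact hE.psi_smooth hd hX.smooth' a2 fun v hv => hX.out_symm hv

end man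

end Pool.Agent.Q192.FT
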