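import Pool.Agent.Q192.FT.Stab
import Pool.Agent.Y318.MN.Axm

/-!
# Functions which are not decreased by an `Ω`-stable diffeomorphism

Author: helper192.
-/

set_option autoImplicit false
set_option linter.unusedSectionVars false

open scoped Manifold ContDiff Topology NNReal
open Filter Set Metric MeasureTheory

universe u

namespace Pool.Agent.Q192.FT

open Pool.Agent.H718R2.G Pool.Agent.Y318.MN Pool.Agent.TH80.OMS Pool.Agent.Y504.CO

variable {n : ℕ} {N : Type u} [TopologicalSpace N] [T2Space N] [CompactSpace N]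
  [ChartedSpace (V n) N] [IsManifold (𝓡 n) ∞ N]

theorem omegaStable_of {r : ℕ∞} {F : DiffM n N r}
    (hF : StructStable n N r F ∨ OmegaStable n N r F) : OmegaStable n N r F := by
  rcases hF with ⟨U, hU, hFU, h⟩ | h
  · refine ⟨U, hU, hFU, fun G hG => ?_⟩
    obtain ⟨e, he⟩ := h G hG
    exact Pool.Agent.Y504.CO.omegaConj_of_conj e he
  · exact h

theorem omega_image {r : ℕ∞} (G : DiffM n N r) : G '' Omega G = Omega G := by
  refine Subset.antisymm ?_ ?_
  · rintro _ ⟨x, hx, rfl⟩
    exact omega_fwd hx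
  · intro x hx
    exact ⟨G.symm x, omega_bwd hx, G.apply_symm_apply x⟩

/-- **`Ω`-stable diffeomorphisms and the functions which they do not decrease.** -/
theorem stable_fun {r : ℕ∞} (hr : 1 ≤ r) {F : DiffM n N r} (hF : OmegaStable n N r F) {h : N → ℝ}
    (hh : ContMDiff (𝓡 n) 𝓘(ℝ, ℝ) ∞ h) (hm : ∀ x, h x ≤ h (F x)) :
    (∀ p ∈ closure (Per F), IsCrit n h p) ∧ ConjInto F (CritInv n F h) := by
  obtain ⟨U₁, hU₁, hFU₁, hfin⟩ := finite_per hr hF
  obtain ⟨U, hU, hFU, hconj⟩ := hF
  obtain ⟨Φ, G, hGU, hG, hΦ⟩ := exists_push hh hr F U hU hFU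
  have hc := hh.continuous
  constructor
  · have h1 : Per F ⊆ {p | IsCrit n h p} := by
      rintro x ⟨k, hk, hxk⟩
      have hcard := ncard_conj F.continuous G.continuous (hconj G hGU) hk
      have hsub : {y | G^[k] y = y} ⊆ {y | F^[k] y = y} := by
        intro y hy
        have h1 := (omega_iter hc hm hG hΦ (per_mem_omega hk hy) k).1
        show F^[k] y = y
        rw [h1]
        exact hy
      have heq := Set.eq_of_subset_of_ncard_le hsub hcard.le (hfin F hFU₁ k hk)
      have h2 : x ∈ {y | G^[k] y = y} := by rw [heq]; exact hxk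
      exact (omega_fix hc hm hG hΦ (per_mem_omega hk h2)).2.1
    exact fun p hp => closure_minimal h1 (crit_closed hh) hp
  · obtain ⟨e, he⟩ := hconj G hGU
    have hagree : ∀ x ∈ Omega G, G x = F x := fun x hx => (omega_fix hc hm hG hΦ hx).2.2
    refine ⟨Omega G, Cnt.omega_closed G, omega_sub hc hm hG hΦ, ?_, e, fun x y hxy => ?_⟩
    · rw [← image_congr hagree]
      exact omega_image G
    · rw [← hagree _ (e x).2]
      exact (he x y hxy.symm).symm

/-- All smooth functions which are not decreased are critical on a finite nonwandering set. -/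
theorem fun_of_finite {r : ℕ∞} (hr : 1 ≤ r) {F : DiffM n N r} (hF : OmegaStable n N r F)
    (hfin : FiniteNoCycle F ∧ ∀ p ∈ Omega F, IsHyperbolicPer n F p) : CritFun n F := by
  rintro h ⟨hh, hm⟩
  have hsub : ((CritInv n F h ∩ Rec F) \ Per F) = ∅ := by
    rw [Set.sdiff_eq_empty]
    exact fun x hx => (hfin.2 x (rec_sub_omega hx.2)).1
  obtain ⟨-, h2, h3⟩ := stable_main hr hF hh hm (by rw [hsub]; exact countable_empty)
  exact ⟨fun p hp => (h2 p hp).2, h3⟩

end Pool.Agent.Q192.FT
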