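import Pool.Agent.Q192.FT.Conv
import Pool.Agent.Y318.MN.Dyn

/-!
# Perturbation of the dynamics on critical tori

Author: helper192.
-/

set_option autoImplicit false
set_option linter.unusedSectionVars false

open scoped Manifold ContDiff Topology NNReal
open Filter Set Metric

universe u

namespace Pool.Agent.Q192.FT

open Pool.Agent.H718R2.G Pool.Agent.H728R2.OS Pool.Agent.Y318.MN

theorem kseq (r : ℕ∞) (hr : 1 ≤ r) : ∃ k : ℕ → ℕ, (∀ m, (k m : ℕ∞) ≤ r) ∧ (∀ m, 1 ≤ k m) ∧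
    ∀ j : ℕ, (j : ℕ∞) ≤ r → ∀ᶠ m in atTop, j ≤ k m := by
  rcases eq_or_ne r ⊤ with h | h
  · subst h
    refine ⟨fun m => m + 1, fun m => le_top, fun m => Nat.le_add_left 1 m, fun j _ => ?_⟩
    filter_upwards [eventually_ge_atTop j] with m hm
    omega
  · obtain ⟨R, rfl⟩ := ENat.ne_top_iff_exists.1 h
    refine ⟨fun _ => R, fun _ => le_rfl, fun _ => by exact_mod_cast hr, fun j hj => ?_⟩
    exact Eventually.of_forall fun _ => by exact_mod_cast hj

variable {n : ℕ} {N : Type u} [TopologicalSpace N] [T2Space N] [CompactSpace N]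
  [ChartedSpace (V n) N] [IsManifold (𝓡 n) ∞ N]

theorem pert_tube {d : ℕ} (hd : d ≤ n) {E : V n → N} (hE : Tube n d E) {r : ℕ∞} (hr : 1 ≤ r)
    {f : Torus d ≃ₜ Torus d} {P : (Torus d ≃ₜ Torus d) → Prop} (hA : Approx r f P)
    (F : DiffM n N r) (U : Set (DiffM n N r)) (hU : IsOpen[strongTop n N r] U) (hFU : F ∈ U) :
    ∃ (u : (Fin d → ℝ) → (Fin d → ℝ)) (X : V n ≃ₜ V n) (g : Torus d ≃ₜ Torus d)
      (Ψ : DiffM n N r), (∀ x w, IsI w → u (x + w) = u x) ∧ IsX hd r u X ∧ P g ∧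
      (∀ x, g (toTorus x) = f (toTorus (x + u x))) ∧ (∀ y, Ψ y = psi E X y) ∧
      Ψ.trans F ∈ U := by
  obtain ⟨k, hk1, hk2, hk3⟩ := kseq r hr
  obtain ⟨c, hc, hX⟩ := exists_X (n := n) hd hr
  have hpos : ∀ m : ℕ, 0 < min c (1 / ((m : ℝ) + 1)) := fun m => lt_min hc (by positivity)
  choose u g hus hup hP hg hub using fun m : ℕ => disp hA (hk1 m) (hpos m)
  choose X hX using fun m => hX (u m) (hus m) fun j hj x =>
    (hub m j (hj.trans (hk2 m)) x).trans (min_le_left _ _)
  choose Ψ hΨ hΨ' using fun m => hE.exists_psi (hX m) (hup m)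
  have hu0 : ∀ j : ℕ, (j : ℕ∞) ≤ r → ∀ ε : ℝ, 0 < ε → ∀ᶠ m in atTop,
      ∀ x, ‖iteratedFDeriv ℝ j (u m) x‖ ≤ ε := by
    intro j hj ε hε
    have h1 : ∀ᶠ m : ℕ in atTop, (1 : ℝ) / ((m : ℝ) + 1) < ε :=
      (tendsto_one_div_add_atTop_nhds_zero_nat (𝕜 := ℝ)).eventually (gt_mem_nhds hε)
    filter_upwards [h1, hk3 j hj] with m hm hm' x
    exact (hub m j hm' x).trans ((min_le_right _ _).trans hm.le)
  obtain ⟨m, hm⟩ := (seq_mem (psi_jet hE hus hX hup hu0 F Ψ hΨ) U hU hFU).exists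
  exact ⟨u m, X m, g m, Ψ m, hup m, hX m, hP m, hg m, hΨ m, hm⟩

/-- The situation: `h` does not decrease and the critical invariant set is in `C`. -/
structure Sys {r : ℕ∞} (h : N → ℝ) (C : Set N) (F : DiffM n N r) : Prop where
  mono : ∀ x, h x ≤ h (F x)
  crit : ∀ x ∈ C, IsCrit n h x
  inv : ∀ x, F x ∈ C ↔ x ∈ C
  cov : CritInv n F h ⊆ C

theorem CritTorus.tube {h : N → ℝ} {F : N → N} {d m : ℕ} {E : V n → N} {f : Torus d ≃ₜ Torus d}
    (H : CritTorus n h F d m E f) : Tube n d E := tube_of H.le H.chart H.inj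

theorem CritTorus.core {h : N → ℝ} {F : N → N} {d m : ℕ} {E : V n → N} {f : Torus d ≃ₜ Torus d}
    (H : CritTorus n h F d m E f) {v : V n} : IsCrit n h (E v) ↔ qq n d v = 0 := by
  rw [H.crit, qq_zero_iff]

theorem core_mem_cyc {F : N → N} {d m : ℕ} {E : V n → N} (hm : 1 ≤ m) (x : Fin d → ℝ) :
    E (emb n d x) ∈ cyc n F d m E := ⟨0, hm, x, rfl⟩

/-- nothing changes if the map is the same on the cycle -/
theorem crit_congr {h : N → ℝ} {F G : N → N} {d m : ℕ} {E : V n → N} {f : Torus d ≃ₜ Torus d}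
    (H : CritTorus n h F d m E f) (hG : ∀ x ∈ cyc n F d m E, G x = F x) :
    CritTorus n h G d m E f ∧ cyc n G d m E = cyc n F d m E := by
  have key : ∀ i ≤ m, ∀ x, G^[i] (E (emb n d x)) = F^[i] (E (emb n d x)) := by
    intro i
    induction i with
    | zero => intro _ x; rfl
    | succ i ih =>
      intro hi x
      rw [Function.iterate_succ_apply', Function.iterate_succ_apply', ih (by omega),
        hG _ ⟨i, by omega, x, rfl⟩]
  refine ⟨⟨H.le, H.pos, H.chart, H.inj, H.indep, H.crit, fun i hi x => ?_, fun i h0 hi x y => ?_,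
    fun x y hxy => ?_⟩, ?_⟩
  · rw [key i hi.le]
    exact H.orb i hi x
  · rw [key i hi.le]
    exact H.dis i h0 hi x y
  · rw [key m le_rfl]
    exact H.dyn x y hxy
  · ext y
    constructor
    · rintro ⟨i, hi, x, rfl⟩
      exact ⟨i, hi, x, key i hi.le x⟩
    · rintro ⟨i, hi, x, rfl⟩
      exact ⟨i, hi, x, (key i hi.le x).symm⟩

/-- **One step.** -/
theorem step {r : ℕ∞} (hr : 1 ≤ r) {h : N → ℝ} {C : Set N} {F : DiffM n N r} (HS : Sys h C F)
    {d m : ℕ} {E : V n → N} {f : Torus d ≃ₜ Torus d} (H : CritTorus n h F d m E f)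
    (hcore : ∀ x, E (emb n d x) ∈ C) {P : (Torus d ≃ₜ Torus d) → Prop} (hA : Approx r f P)
    (U : Set (DiffM n N r)) (hU : IsOpen[strongTop n N r] U) (hFU : F ∈ U) :
    ∃ G ∈ U, Sys h C G ∧ (∃ g : Torus d ≃ₜ Torus d, P g ∧ CritTorus n h G d m E g) ∧
      cyc n G d m E = cyc n F d m E ∧
      ∀ x ∈ C, (∀ z, x ≠ E (emb n d z)) → G x = F x := by
  obtain ⟨u, X, g, Ψ, hup, hX, hP, hg, hΨ, hmem⟩ := pert_tube H.le H.tube hr hA F U hU hFU
  have hXa : ∀ v (k : Fin d → ℝ), IsI k → X (v + em n d k) = X v + em n d k :=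
    fun v k hk => hX.add hup v hk
  have hXo : ∀ v, 1 ≤ ‖qq n d v‖ → X v = v := fun v hv => hX.out hv
  have hΨE : ∀ v, Ψ (E v) = E (X v) := fun v => by rw [hΨ, H.tube.psi_E hXa]
  have hΨo : ∀ y, (∀ v, E v ≠ y) → Ψ y = y := by
    intro y hy
    rw [hΨ]
    refine H.tube.psi_out hXa hXo ?_
    rintro ⟨v, -, hv⟩
    exact hy v hv
  have hCE : ∀ v, E v ∈ C ↔ qq n d v = 0 := by
    intro v
    constructor
    · intro hv
      exact H.core.1 (HS.crit _ hv)
    · intro hv
      obtain ⟨x, rfl⟩ := (core_iff H.le v).1 hv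
      exact hcore x
  have hΨC : ∀ x, Ψ x ∈ C ↔ x ∈ C := by
    intro x
    by_cases hx : ∃ v, E v = x
    · obtain ⟨v, rfl⟩ := hx
      rw [hΨE, hCE, hCE, hX.qq_eq]
    · push Not at hx
      rw [hΨo x hx]
  set G : DiffM n N r := Ψ.trans F with hG
  have hGa : ∀ x, G x = F (Ψ x) := fun x => rfl
  have hGC : ∀ x, G x ∈ C ↔ x ∈ C := fun x => by rw [hGa, HS.inv, hΨC]
  -- critical points off `C` are not in the tube
  have hoff : ∀ x, IsCrit n h x → x ∉ C → ∀ v, E v ≠ x := by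
    rintro x hx hxC v rfl
    exact hxC ((hCE v).2 (H.core.1 hx))
  have hGm : ∀ x, h x ≤ h (G x) := by
    intro x
    have e : h (Ψ x) = h x := by
      by_cases hx : ∃ v, E v = x
      · obtain ⟨v, rfl⟩ := hx
        rw [hΨE]
        exact H.indep v (X v) ((qq_eq_iff v (X v)).1 (hX.qq_eq v))
      · push Not at hx
        rw [hΨo x hx]
    rw [← e]
    exact HS.mono _
  have hcov : CritInv n G h ⊆ C := by
    intro y hy
    by_contra hyC
    have h1 : ∀ k, G^[k] y ∉ C := by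
      intro k
      induction k with
      | zero => exact hyC
      | succ k ih => rw [Function.iterate_succ_apply', hGC]; exact ih
    have h2 : ∀ k, G.symm^[k] y ∉ C := by
      intro k
      induction k with
      | zero => exact hyC
      | succ k ih =>
        rw [Function.iterate_succ_apply', ← hGC, G.apply_symm_apply]
        exact ih
    have h3 : ∀ k, G^[k] y = F^[k] y := by
      intro k
      induction k with
      | zero => rfl
      | succ k ih =>
        rw [Function.iterate_succ_apply', Function.iterate_succ_apply', ← ih, hGa,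
          hΨo _ (hoff _ (hy k).1 (h1 k))]
    have h4 : ∀ k, G.symm^[k] y = F.symm^[k] y := by
      intro k
      induction k with
      | zero => rfl
      | succ k ih =>
        rw [Function.iterate_succ_apply', Function.iterate_succ_apply', ← ih]
        have e1 : G (G.symm (G.symm^[k] y)) = G.symm^[k] y := G.apply_symm_apply _
        have e2 : G.symm (G.symm^[k] y) = G.symm^[k + 1] y :=
          (Function.iterate_succ_apply' _ _ _).symm
        rw [hGa, e2, hΨo _ (hoff _ (hy (k + 1)).2 (h2 (k + 1)))] at e1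
        rw [e2, ← F.symm_apply_apply (G.symm^[k + 1] y), e1]
    refine hyC (HS.cov fun k => ?_)
    rw [← h3, ← h4]
    exact hy k
  -- the images of the core
  have hcoreG : ∀ i, 1 ≤ i → i ≤ m → ∀ x,
      G^[i] (E (emb n d x)) = F^[i] (E (emb n d (x + u x))) := by
    intro i h0 hi x
    induction i with
    | zero => omega
    | succ i ih =>
      rcases Nat.eq_zero_or_pos i with rfl | hi0
      · show G (E (emb n d x)) = F (E (emb n d (x + u x)))
        rw [hGa, hΨE, hX.core]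
      · rw [Function.iterate_succ_apply', Function.iterate_succ_apply', ih hi0 (by omega), hGa,
          hΨo]
        intro v hv
        have h1 := H.orb i (by omega) (x + u x)
        rw [← hv, H.core, core_iff H.le] at h1
        obtain ⟨z, rfl⟩ := h1
        exact H.dis i hi0 (by omega) (x + u x) z hv.symm
  have hsurj : ∀ x', ∃ x, x + u x = x' := by
    intro x'
    have h1 : qq n d (X.symm (emb n d x')) = 0 := by
      rw [hX.qq_symm]
      exact qq_em x'
    obtain ⟨x, hx⟩ := (core_iff H.le _).1 h1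
    refine ⟨x, ?_⟩
    have h2 : emb n d (x + u x) = emb n d x' := by
      rw [← hX.core, ← hx, X.apply_symm_apply]
    have h3 := congrArg (pr n H.le) h2
    rwa [← em_apply, ← em_apply, pr_em, pr_em] at h3
  refine ⟨G, hmem, ⟨hGm, HS.crit, hGC, hcov⟩, ⟨g, hP, ⟨H.le, H.pos, H.chart, H.inj, H.indep,
    H.crit, fun i hi x => ?_, fun i h0 hi x y => ?_, fun x y hxy => ?_⟩⟩, ?_, fun x hx hxE => ?_⟩
  · rcases Nat.eq_zero_or_pos i with rfl | hi0
    · exact H.orb 0 hi x
    · rw [hcoreG i hi0 hi.le]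
      exact H.orb i hi _
  · rw [hcoreG i h0 hi.le]
    exact H.dis i h0 hi _ y
  · rw [hcoreG m H.pos le_rfl]
    refine H.dyn _ _ ?_
    rw [hxy, hg]
  · ext y
    constructor
    · rintro ⟨i, hi, x, rfl⟩
      rcases Nat.eq_zero_or_pos i with rfl | hi0
      · exact ⟨0, hi, x, rfl⟩
      · exact ⟨i, hi, x + u x, hcoreG i hi0 hi.le x⟩
    · rintro ⟨i, hi, x, rfl⟩
      rcases Nat.eq_zero_or_pos i with rfl | hi0
      · exact ⟨0, hi, x, rfl⟩
      · obtain ⟨x', rfl⟩ := hsurj x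
        exact ⟨i, hi, x', (hcoreG i hi0 hi.le x').symm⟩
  · rw [hGa, hΨo]
    rintro v rfl
    obtain ⟨z, hz⟩ := (core_iff H.le v).1 ((hCE v).1 hx)
    exact hxE z (by rw [hz])

/-- **All cycles.** -/
theorem multi {r : ℕ∞} (hr : 1 ≤ r) {h : N → ℝ} {C : Set N} {F : DiffM n N r} (HS : Sys h C F)
    {p : ℕ} (d m : Fin p → ℕ) (E : Fin p → V n → N) (f : ∀ j, Torus (d j) ≃ₜ Torus (d j))
    (H : ∀ j, CritTorus n h F (d j) (m j) (E j) (f j))
    (hcyc : ∀ j, cyc n F (d j) (m j) (E j) ⊆ C)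
    (hdis : ∀ i j, i ≠ j → Disjoint (cyc n F (d i) (m i) (E i)) (cyc n F (d j) (m j) (E j)))
    (P : ∀ j, (Torus (d j) ≃ₜ Torus (d j)) → Prop) (hA : ∀ j, Approx r (f j) (P j))
    (U : Set (DiffM n N r)) (hU : IsOpen[strongTop n N r] U) (hFU : F ∈ U) :
    ∃ G ∈ U, Sys h C G ∧ (∃ g : ∀ j, Torus (d j) ≃ₜ Torus (d j), (∀ j, P j (g j)) ∧
      ∀ j, CritTorus n h G (d j) (m j) (E j) (g j)) ∧
      (∀ j, cyc n G (d j) (m j) (E j) = cyc n F (d j) (m j) (E j)) ∧
      ∀ x ∈ C, (∀ j z, x ≠ E j (emb n (d j) z)) → G x = F x := by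
  classical
  have key : ∀ s : Finset (Fin p), ∃ G ∈ U, Sys h C G ∧
      (∃ g : ∀ j, Torus (d j) ≃ₜ Torus (d j), (∀ j ∈ s, P j (g j)) ∧ (∀ j, j ∉ s → g j = f j) ∧
      ∀ j, CritTorus n h G (d j) (m j) (E j) (g j)) ∧
      (∀ j, cyc n G (d j) (m j) (E j) = cyc n F (d j) (m j) (E j)) ∧
      ∀ x ∈ C, (∀ j z, x ≠ E j (emb n (d j) z)) → G x = F x := by
    intro s
    induction s using Finset.induction_on with
    | empty =>
      exact ⟨F, hFU, HS, ⟨f, fun j hj => absurd hj (Finset.notMem_empty j), fun j _ => rfl, H⟩,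
        fun j => rfl, fun x _ _ => rfl⟩
    | insert j₀ s hj₀ ih =>
      obtain ⟨G, hGU, HG, ⟨g, hg1, hg2, hg3⟩, hG4, hG5⟩ := ih
      have hcoreC : ∀ x, E j₀ (emb n (d j₀) x) ∈ C := fun x =>
        hcyc j₀ (core_mem_cyc (H j₀).pos x)
      have hA' : Approx r (g j₀) (P j₀) := by
        rw [hg2 j₀ hj₀]
        exact hA j₀
      obtain ⟨G', hGU', HG', ⟨g', hg'1, hg'2⟩, hG'4, hG'5⟩ :=
        step hr HG (hg3 j₀) hcoreC hA' U hU hGU
      have hag : ∀ j, j ≠ j₀ → ∀ x ∈ cyc n G (d j) (m j) (E j), G' x = G x := by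
        intro j hj x hx
        rw [hG4 j] at hx
        refine hG'5 x (hcyc j hx) fun z hz => ?_
        have h1 : x ∈ cyc n F (d j₀) (m j₀) (E j₀) := by
          rw [hz]
          exact core_mem_cyc (H j₀).pos z
        exact Set.disjoint_left.1 (hdis j j₀ hj) hx h1
      refine ⟨G', hGU', HG', ⟨Function.update g j₀ g', fun j hj => ?_, fun j hj => ?_,
        fun j => ?_⟩, fun j => ?_, fun x hx hxE => ?_⟩
      · by_cases hjj : j = j₀
        · subst hjj
          rw [Function.update_self]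
          exact hg'1
        · rw [Function.update_of_ne hjj]
          exact hg1 j ((Finset.mem_insert.1 hj).resolve_left hjj)
      · have hjj : j ≠ j₀ := fun hh => hj (by rw [hh]; exact Finset.mem_insert_self _ _)
        rw [Function.update_of_ne hjj]
        exact hg2 j fun hh => hj (Finset.mem_insert_of_mem hh)
      · by_cases hjj : j = j₀
        · subst hjj
          rw [Function.update_self]
          exact hg'2
        · rw [Function.update_of_ne hjj]
          exact (crit_congr (hg3 j) (hag j hjj)).1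
      · by_cases hjj : j = j₀
        · subst hjj
          rw [hG'4, hG4]
        · rw [(crit_congr (hg3 j) (hag j hjj)).2, hG4]
      · rw [hG'5 x hx (hxE j₀), hG5 x hx hxE]
  obtain ⟨G, h1, h2, ⟨g, h3, -, h4⟩, h5, h6⟩ := key Finset.univ
  exact ⟨G, h1, h2, ⟨g, fun j => h3 j (Finset.mem_univ j), h4⟩, h5, h6⟩

end Pool.Agent.Q192.FT
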