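import Pool.Agent.Q192.FT.Defs
import Pool.Agent.W683.SC.Loc
import Pool.Agent.W917.SC.COMP
import Pool.Agent.H728R2.OS.S.COV

/-!
# Small periodic displacements

Author: helper192.
-/

set_option autoImplicit false

open scoped Manifold ContDiff Topology
open Filter Set Metric

namespace Pool.Agent.Q192.FT

open Pool.Agent.H718R2.G Pool.Agent.H728R2.OS Pool.Agent.W564.SC

variable {d : ℕ}

/-- integer vectors -/
def IsI (z : Fin d → ℝ) : Prop := ∀ i, ∃ n : ℤ, z i = n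

theorem tor_eq_iff (x y : Fin d → ℝ) : toTorus x = toTorus y ↔ IsI (y - x) := by
  constructor
  · intro h i
    have h1 : ((x i : ℝ) : UnitAddCircle) = ((y i : ℝ) : UnitAddCircle) := congrFun h i
    have h2 : (((y i - x i : ℝ)) : UnitAddCircle) = 0 := by
      rw [AddCircle.coe_sub, h1, sub_self]
    obtain ⟨n, hn⟩ := (AddCircle.coe_eq_zero_iff (1 : ℝ)).1 h2
    refine ⟨n, ?_⟩
    rw [Pi.sub_apply, ← hn]
    simp
  · intro h
    funext i
    obtain ⟨n, hn⟩ := h i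
    have h2 : (((y i - x i : ℝ)) : UnitAddCircle) = 0 := by
      rw [AddCircle.coe_eq_zero_iff]
      exact ⟨n, by rw [Pi.sub_apply] at hn; rw [hn]; simp⟩
    rw [AddCircle.coe_sub, sub_eq_zero] at h2
    exact h2.symm

theorem tor_add_int (x : Fin d → ℝ) {w : Fin d → ℝ} (hw : IsI w) : toTorus (x + w) = toTorus x := by
  symm
  rw [tor_eq_iff, add_sub_cancel_left]
  exact hw

theorem tor_sub_int (x : Fin d → ℝ) {w : Fin d → ℝ} (hw : IsI w) : toTorus (x - w) = toTorus x := by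
  rw [tor_eq_iff, sub_sub_cancel]
  exact hw

theorem lift_add {B : (Fin d → ℝ) → (Fin d → ℝ)} {b : Torus d → Torus d} (hB : Continuous B)
    (hl : IsLift toTorus B b) {w : Fin d → ℝ} (hw : IsI w) :
    ∃ c : Fin d → ℝ, IsI c ∧ ∀ y, B (y + w) = B y + c := by
  obtain ⟨c, hc⟩ := lift_unique (isCov_toTorus d) hB (hB.comp (continuous_add_const w))
    (fun z => by
      show toTorus (B z) = toTorus (B (z + w))
      rw [hl, hl, tor_add_int z hw])
  have hc' : ∀ y, B (y + w) = B y + c := hc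
  refine ⟨c, ?_, hc'⟩
  have h1 : toTorus (B 0) = toTorus (B (0 + w)) := by rw [hl, hl, tor_add_int 0 hw]
  rw [hc' 0, tor_eq_iff, add_sub_cancel_left] at h1
  exact h1

theorem int_small {c : Fin d → ℝ} (hc : IsI c) (h : ‖c‖ < 1) : c = 0 := by
  funext i
  obtain ⟨n, hn⟩ := hc i
  have h1 : |c i| < 1 := (norm_le_pi_norm c i).trans_lt h
  rw [hn] at h1
  have h2 : |n| < 1 := by exact_mod_cast h1
  have h3 : n = 0 := Int.abs_lt_one_iff.1 h2
  rw [hn, h3]
  simp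

theorem iter_per {E : Type} [NormedAddCommGroup E] [NormedSpace ℝ E] {u : (Fin d → ℝ) → E}
    {w : Fin d → ℝ} (h : ∀ x, u (x + w) = u x) (j : ℕ) (x : Fin d → ℝ) :
    iteratedFDeriv ℝ j u (x + w) = iteratedFDeriv ℝ j u x := by
  rw [← iteratedFDeriv_comp_add_right]
  congr 1
  funext z
  exact h z

/-- the perturbations of the lift of `f` -/
theorem pert {r : ℕ∞} {f : Torus d ≃ₜ Torus d} {P : (Torus d ≃ₜ Torus d) → Prop}
    (hA : Approx r f P) {A : (Fin d → ℝ) → (Fin d → ℝ)} (hAs : ContDiff ℝ r A)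
    (hAl : IsLift toTorus A f) {k : ℕ} (hk : (k : ℕ∞) ≤ r) {ε : ℝ} (hε : 0 < ε)
    (hε2 : ε ≤ 1 / 2) :
    ∃ (δ : (Fin d → ℝ) → (Fin d → ℝ)) (g : Torus d ≃ₜ Torus d), ContDiff ℝ r δ ∧
      (∀ j ≤ k, ∀ z, ‖iteratedFDeriv ℝ j δ z‖ < ε) ∧ IsLift toTorus (A + δ) g ∧ P g ∧
      ∀ x w, IsI w → δ (x + w) = δ x := by
  obtain ⟨-, happ⟩ := hA
  obtain ⟨g, ⟨⟨B, hBs, hBl⟩, -⟩, ⟨F₁, G₁, hF₁, hG₁, hF₁l, hG₁l, hcl⟩, hP⟩ := happ k hk ε hε
  obtain ⟨c, hc⟩ := lift_unique (isCov_toTorus d) hAs.continuous hF₁.continuous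
    (fun z => by rw [hAl, hF₁l])
  obtain ⟨c', hc'⟩ := lift_unique (isCov_toTorus d) hBs.continuous hG₁.continuous
    (fun z => by rw [hBl, hG₁l])
  have hcI : IsI c := by
    have h1 : toTorus (A 0) = toTorus (F₁ 0) := by rw [hAl, hF₁l]
    rw [hc 0, tor_eq_iff, add_sub_cancel_left] at h1
    exact h1
  refine ⟨fun w => G₁ w - F₁ w, g, ?_, hcl, ?_, hP, ?_⟩
  · have e : (fun w => G₁ w - F₁ w) = fun w => (B w + c') - (A w + c) := by
      funext w
      rw [hc, hc']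
    rw [e]
    exact (hBs.add contDiff_const).sub (hAs.add contDiff_const)
  · intro z
    show toTorus (A z + (G₁ z - F₁ z)) = _
    have e : A z + (G₁ z - F₁ z) = G₁ z - c := by rw [hc z]; abel
    rw [e, tor_sub_int _ hcI, hG₁l]
  · intro x w hw
    obtain ⟨c₁, hc₁, h1⟩ := lift_add hG₁.continuous hG₁l hw
    obtain ⟨c₂, hc₂, h2⟩ := lift_add hF₁.continuous hF₁l hw
    have h3 : IsI (c₁ - c₂) := by
      intro i
      obtain ⟨a, ha⟩ := hc₁ i
      obtain ⟨b, hb⟩ := hc₂ i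
      exact ⟨a - b, by rw [Pi.sub_apply, ha, hb]; push_cast; ring⟩
    have hb : ∀ z, ‖G₁ z - F₁ z‖ < ε := fun z => by
      have := hcl 0 (Nat.zero_le k) z
      rwa [norm_iteratedFDeriv_zero] at this
    have h4 : c₁ - c₂ = (G₁ (x + w) - F₁ (x + w)) - (G₁ x - F₁ x) := by
      rw [h1, h2]
      abel
    have h5 : ‖c₁ - c₂‖ < 1 := by
      rw [h4]
      refine (norm_sub_le _ _).trans_lt ?_
      have := hb (x + w)
      have := hb x
      linarith
    have h6 := int_small h3 h5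
    show G₁ (x + w) - F₁ (x + w) = G₁ x - F₁ x
    rw [h6] at h4
    exact sub_eq_zero.1 h4.symm

/-- **Small displacements.** -/
theorem disp {r : ℕ∞} {f : Torus d ≃ₜ Torus d} {P : (Torus d ≃ₜ Torus d) → Prop}
    (hA : Approx r f P) {k : ℕ} (hk : (k : ℕ∞) ≤ r) {ε : ℝ} (hε : 0 < ε) :
    ∃ (u : (Fin d → ℝ) → (Fin d → ℝ)) (g : Torus d ≃ₜ Torus d), ContDiff ℝ r u ∧
      (∀ x w, IsI w → u (x + w) = u x) ∧ P g ∧ (∀ x, g (toTorus x) = f (toTorus (x + u x))) ∧
      ∀ j ≤ k, ∀ x, ‖iteratedFDeriv ℝ j u x‖ ≤ ε := by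
  obtain ⟨⟨⟨A, hAs, hAl⟩, A', hA's, hA'l⟩, -⟩ := id hA
  have hpos : ∀ m : ℕ, (0 : ℝ) < 1 / 2 * (1 / ((m : ℝ) + 1)) := fun m => by positivity
  have hle : ∀ m : ℕ, (1 : ℝ) / 2 * (1 / ((m : ℝ) + 1)) ≤ 1 / 2 := fun m => by
    have h1 : (1 : ℝ) / ((m : ℝ) + 1) ≤ 1 := by
      rw [div_le_one (by positivity)]
      linarith [Nat.cast_nonneg (α := ℝ) m]
    linarith
  choose δ g hδs hδb hδl hP hδp using fun m : ℕ => pert hA hAs hAl hk (hpos m) (hle m)
  set u : ℕ → (Fin d → ℝ) → (Fin d → ℝ) := fun m x => A' (A x + δ m x) - A' (A x) with hu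
  have hus : ∀ m, ContDiff ℝ r (u m) := fun m =>
    (hA's.comp (hAs.add (hδs m))).sub (hA's.comp hAs)
  have hup : ∀ m x w, IsI w → u m (x + w) = u m x := by
    intro m x w hw
    obtain ⟨c₁, hc₁, h1⟩ := lift_add hAs.continuous hAl hw
    obtain ⟨c₂, -, h2⟩ := lift_add hA's.continuous hA'l hc₁
    show A' (A (x + w) + δ m (x + w)) - A' (A (x + w)) = A' (A x + δ m x) - A' (A x)
    rw [hδp m x w hw, h1, add_right_comm, h2, h2]
    abel
  have hg : ∀ m x, g m (toTorus x) = f (toTorus (x + u m x)) := by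
    intro m x
    have h1 : toTorus (x + u m x) = f.symm (g m (toTorus x)) := by
      funext i
      have h2 : toTorus (A' (A x + δ m x)) = f.symm (g m (toTorus x)) := by
        rw [hA'l]
        congr 1
        exact hδl m x
      have h3 : toTorus (A' (A x)) = toTorus x := by
        rw [hA'l, hAl, f.symm_apply_apply]
      have h2i : ((A' (A x + δ m x) i : ℝ) : UnitAddCircle) = f.symm (g m (toTorus x)) i :=
        congrFun h2 i
      have h3i : ((A' (A x) i : ℝ) : UnitAddCircle) = ((x i : ℝ) : UnitAddCircle) := congrFun h3 i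
      show ((x i + (A' (A x + δ m x) i - A' (A x) i) : ℝ) : UnitAddCircle) = _
      rw [AddCircle.coe_add, AddCircle.coe_sub, h2i, h3i]
      abel
    rw [h1, f.apply_symm_apply]
  by_contra hcon
  push Not at hcon
  have hbad := fun m => hcon (u m) (g m) (hus m) (hup m) (hP m) (hg m)
  choose j hj x hx using hbad
  -- points of the unit cube
  set y : ℕ → Fin d → ℝ := fun m i => Int.fract (x m i) with hy
  have hyx : ∀ m, iteratedFDeriv ℝ (j m) (u m) (y m) = iteratedFDeriv ℝ (j m) (u m) (x m) := by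
    intro m
    have e : x m = y m + fun i => ((⌊x m i⌋ : ℤ) : ℝ) := by
      funext i
      rw [Pi.add_apply, hy]
      exact (Int.fract_add_floor _).symm
    conv_rhs => rw [e]
    exact (iter_per (fun z => hup m z _ fun i => ⟨_, rfl⟩) _ _).symm
  have hyc : ∀ m, y m ∈ Icc (0 : Fin d → ℝ) 1 := fun m =>
    ⟨fun i => Int.fract_nonneg _, fun i => (Int.fract_lt_one _).le⟩
  obtain ⟨j₀, hj₀⟩ := Finite.exists_infinite_fiber
    (fun m => (⟨j m, Nat.lt_succ_of_le (hj m)⟩ : Fin (k + 1)))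
  have hinf : {m | j m = (j₀ : ℕ)}.Infinite := by
    rw [Set.infinite_coe_iff] at hj₀
    refine hj₀.mono ?_
    intro m hm
    exact congrArg Fin.val hm
  obtain ⟨s₁, hs₁, hj₁⟩ := extraction_of_frequently_atTop (Nat.frequently_atTop_iff_infinite.mpr hinf)
  obtain ⟨y₀, -, s₂, hs₂, hy₀⟩ := isCompact_Icc.tendsto_subseq (fun m => hyc (s₁ m))
  set s : ℕ → ℕ := s₁ ∘ s₂ with hs
  have hst : Tendsto s atTop atTop := (hs₁.comp hs₂).tendsto_atTop
  have hys : Tendsto (fun m => y (s m)) atTop (𝓝 y₀) := hy₀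
  have hj0k : (j₀ : ℕ) ≤ k := Nat.lt_succ_iff.1 j₀.2
  have hlim : Tendsto (fun m => (1 : ℝ) / 2 * (1 / ((s m : ℕ) + 1 : ℝ))) atTop (𝓝 0) := by
    have h1 := ((tendsto_one_div_add_atTop_nhds_zero_nat (𝕜 := ℝ)).comp hst).const_mul (1 / 2)
    rw [mul_zero] at h1
    exact h1
  have hrk : (k : WithTop ℕ∞) ≤ r := by exact_mod_cast hk
  have J1 : JetConv k (fun m => A + δ (s m)) (fun m => y (s m)) A y₀ := by
    refine Pool.Agent.W683.SC.jet_add (Pool.Agent.W683.SC.jet_const hys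
      (hAs.of_le hrk).contDiffAt) (fun m => (hδs (s m)).of_le hrk) fun i hi => ?_
    rw [tendsto_zero_iff_norm_tendsto_zero]
    exact squeeze_zero (fun m => norm_nonneg _) (fun m => (hδb (s m) i hi _).le) hlim
  have t1 : Tendsto (fun m => (A + δ (s m)) (y (s m))) atTop (𝓝 (A y₀)) := by
    have h1 : Tendsto (fun m => A (y (s m))) atTop (𝓝 (A y₀)) :=
      (hAs.continuous.tendsto y₀).comp hys
    have h2 : Tendsto (fun m => δ (s m) (y (s m))) atTop (𝓝 0) := by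
      rw [tendsto_zero_iff_norm_tendsto_zero]
      refine squeeze_zero (fun m => norm_nonneg _) (fun m => ?_) hlim
      have := hδb (s m) 0 (Nat.zero_le k) (y (s m))
      rw [norm_iteratedFDeriv_zero] at this
      exact this.le
    have h3 := h1.add h2
    rw [add_zero] at h3
    exact h3
  have J2 := Pool.Agent.W917.SC.comp _ _ _ k _ _ _ _ _ _ J1
    (Pool.Agent.W683.SC.jet_const t1 (hA's.of_le hrk).contDiffAt)
  have J3 := Pool.Agent.W683.SC.jet_const hys ((hA's.comp hAs).of_le hrk).contDiffAt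
  have h0 := ((J2.conv j₀ hj0k).sub (J3.conv j₀ hj0k)).norm
  rw [sub_self, norm_zero] at h0
  obtain ⟨m, hm⟩ := (h0.eventually (gt_mem_nhds hε)).exists
  have e1 : j (s m) = (j₀ : ℕ) := hj₁ _
  have e2 : iteratedFDeriv ℝ (j₀ : ℕ) (u (s m)) (y (s m)) =
      iteratedFDeriv ℝ (j₀ : ℕ) (A' ∘ (A + δ (s m))) (y (s m)) -
        iteratedFDeriv ℝ (j₀ : ℕ) (A' ∘ A) (y (s m)) := by
    have hjr : ((j₀ : ℕ) : WithTop ℕ∞) ≤ r := le_trans (by exact_mod_cast hj0k) hrk
    have h1 := iteratedFDeriv_sub_apply (𝕜 := ℝ) (i := (j₀ : ℕ)) (x := y (s m))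
      (f := A' ∘ (A + δ (s m))) (g := A' ∘ A)
      ((hA's.comp (hAs.add (hδs (s m)))).of_le hjr).contDiffAt
      ((hA's.comp hAs).of_le hjr).contDiffAt
    exact h1
  have h2 := hx (s m)
  rw [← hyx, e1, e2] at h2
  exact absurd h2 (not_lt.2 hm.le)

end Pool.Agent.Q192.FT
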